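import Pool.Agent.MP_08d8de_an.Disp2.FromGood
import Pool.Agent.MP_08d8de_an.Defs

/-!
From the `σ`-form of the collision operator to the reduced form over `(w, φ)`, `|φ| ≤ π/4`.
-/

set_option autoImplicit false

open MeasureTheory Set Filter Topology
open scoped Real ENNReal ComplexConjugate

noncomputable section

namespace BoltzDisp

open Pool.Agent.Boltzmann2

/-! ### The reduced kernel -/

/-- the reduced kernel -/
def kk (b : ℝ → ℝ) (φ : ℝ) : ℝ :=
  if φ ∈ Icc (-(π / 4)) (π / 4) ∧ φ ≠ 0 then 2 * (b (Real.cos (2 * φ)) + b (-Real.cos (2 * φ)))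
  else 0

lemma adm_b {s γ c : ℝ} {b : ℝ → ℝ} (h : Admissible s γ c b) {θ : ℝ}
    (hθ : θ ∈ Icc (-π) π) (h0 : θ ≠ 0) :
    0 ≤ b (Real.cos θ) ∧ b (Real.cos θ) ≤ c * |Real.sin (θ / 2)| ^ (-(1 : ℝ) - 2 * s) := by
  obtain ⟨hs0, hs1, hγ, hγ1, hγ2, hc, hbm, hb⟩ := h
  have habs : |θ| ∈ Ioc 0 π := ⟨abs_pos.2 h0, abs_le.2 ⟨hθ.1, hθ.2⟩⟩
  obtain ⟨h1, h2⟩ := hb |θ| habs
  rw [Real.cos_abs] at h1 h2
  have h3 : |Real.sin (|θ| / 2)| = |Real.sin (θ / 2)| := by
    rcases abs_cases θ with ⟨h, _⟩ | ⟨h, _⟩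
    · rw [h]
    · rw [h, neg_div, Real.sin_neg, abs_neg]
  rw [h3] at h1 h2
  refine ⟨le_trans ?_ h1, h2⟩
  positivity

lemma kk_nonneg {s γ c : ℝ} {b : ℝ → ℝ} (h : Admissible s γ c b) (φ : ℝ) : 0 ≤ kk b φ := by
  unfold kk
  split_ifs with hφ
  · obtain ⟨hφ, h0⟩ := hφ
    have hπ := Real.pi_pos
    have h1 := (adm_b h (θ := 2 * φ) ⟨by linarith [hφ.1], by linarith [hφ.2]⟩ (by
      simpa using h0)).1
    have h2 : 0 ≤ b (-Real.cos (2 * φ)) := by
      have h3 := (adm_b h (θ := π - |2 * φ|) ⟨by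
        have := abs_le.2 (show -(π / 2) ≤ 2 * φ ∧ 2 * φ ≤ π / 2 from
          ⟨by linarith [hφ.1], by linarith [hφ.2]⟩)
        linarith, by linarith [abs_nonneg (2 * φ)]⟩ (by
          have := abs_le.2 (show -(π / 2) ≤ 2 * φ ∧ 2 * φ ≤ π / 2 from
            ⟨by linarith [hφ.1], by linarith [hφ.2]⟩)
          have : 0 < π - |2 * φ| := by linarith
          exact this.ne')).1
      rwa [Real.cos_pi_sub, Real.cos_abs] at h3
    positivity
  · exact le_rfl

lemma measurable_kk {b : ℝ → ℝ} (hb : Measurable b) : Measurable (kk b) := by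
  unfold kk
  apply Measurable.ite
  · exact measurableSet_Icc.inter (measurableSet_singleton (0 : ℝ)).compl
  · fun_prop
  · fun_prop

lemma kk_le {s γ c : ℝ} {b : ℝ → ℝ} (h : Admissible s γ c b) (φ : ℝ) :
    kk b φ ≤ (64 * c) * |φ| ^ (-1 - 2 * s) := by
  have hs0 : 0 < s := h.1
  have hs1 : s < 1 := h.2.1
  have hc : 1 ≤ c := h.2.2.2.2.2.1
  have hπ := Real.pi_pos
  unfold kk
  split_ifs with hφ
  · obtain ⟨hφ, h0⟩ := hφ
    have hφa : |φ| ≤ π / 4 := abs_le.2 hφ
    have hφ0 : 0 < |φ| := abs_pos.2 h0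
    have h2a : |2 * φ| ≤ π / 2 := by rw [abs_mul, abs_two]; linarith
    have h1 := (adm_b h (θ := 2 * φ) ⟨by linarith [hφ.1], by linarith [hφ.2]⟩ (by
      simpa using h0)).2
    have h2 := (adm_b h (θ := π - |2 * φ|) ⟨by linarith, by linarith [abs_nonneg (2 * φ)]⟩ (by
          have : 0 < π - |2 * φ| := by linarith
          exact this.ne')).2
    rw [Real.cos_pi_sub, Real.cos_abs] at h2
    -- lower bounds for the sines
    have hpi4 : π < 4 := Real.pi_lt_four
    have e1 : |φ| / 2 ≤ |Real.sin (2 * φ / 2)| := by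
      rw [mul_div_cancel_left₀ _ (two_ne_zero)]
      have h3 : 2 / π * |φ| ≤ |Real.sin φ| := by
        have h4 : |Real.sin φ| = Real.sin |φ| := by
          rw [← Real.abs_sin_eq_sin_abs_of_abs_le_pi (by linarith)]
        rw [h4]
        exact Real.mul_le_sin hφ0.le (by linarith)
      refine le_trans ?_ h3
      have : (1 : ℝ) / 2 ≤ 2 / π := by
        rw [div_le_div_iff₀ two_pos hπ]; linarith
      nlinarith
    have e2 : |φ| / 2 ≤ |Real.sin ((π - |2 * φ|) / 2)| := by
      have h3 : (π - |2 * φ|) / 2 = π / 2 - |φ| := by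
        rw [abs_mul, abs_two]; ring
      rw [h3, Real.sin_pi_div_two_sub]
      have h4 : Real.cos (π / 4) ≤ Real.cos |φ| :=
        Real.cos_le_cos_of_nonneg_of_le_pi hφ0.le (by linarith) hφa
      rw [Real.cos_pi_div_four] at h4
      have h5 : (1 : ℝ) ≤ √2 := by
        rw [Real.one_le_sqrt]; norm_num
      have h6 := le_abs_self (Real.cos |φ|)
      linarith
    have e3 : ∀ x : ℝ, |φ| / 2 ≤ x → x ^ (-(1 : ℝ) - 2 * s) ≤ 8 * |φ| ^ (-1 - 2 * s) := by
      intro x hx
      have h3 : x ^ (-(1 : ℝ) - 2 * s) ≤ (|φ| / 2) ^ (-(1 : ℝ) - 2 * s) :=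
        Real.rpow_le_rpow_of_nonpos (by positivity) hx (by linarith)
      refine h3.trans ?_
      rw [div_eq_mul_inv, Real.mul_rpow hφ0.le (by norm_num), mul_comm]
      apply mul_le_mul_of_nonneg_right _ (by positivity)
      rw [Real.inv_rpow (by norm_num), ← Real.rpow_neg (by norm_num)]
      calc (2 : ℝ) ^ (-(-(1 : ℝ) - 2 * s)) ≤ (2 : ℝ) ^ (3 : ℝ) :=
            Real.rpow_le_rpow_of_exponent_le (by norm_num) (by linarith)
        _ = 8 := by norm_num
    have f1 := e3 _ e1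
    have f2 := e3 _ e2
    have g1 : b (Real.cos (2 * φ)) ≤ c * (8 * |φ| ^ (-1 - 2 * s)) :=
      h1.trans (mul_le_mul_of_nonneg_left f1 (by linarith))
    have g2 : b (-Real.cos (2 * φ)) ≤ c * (8 * |φ| ^ (-1 - 2 * s)) :=
      h2.trans (mul_le_mul_of_nonneg_left f2 (by linarith))
    have g3 : 0 ≤ |φ| ^ (-1 - 2 * s) := by positivity
    nlinarith
  · positivity

/-- the reduced kernel satisfies the assumptions -/
lemma kern_kk {s γ c : ℝ} {b : ℝ → ℝ} (h : Admissible s γ c b) (hγs : γ + 4 * s < 1) :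
    Kern s γ (kk b) (64 * c) := by
  have hc : 1 ≤ c := h.2.2.2.2.2.1
  exact ⟨h.1, h.2.2.2.1, hγs, measurable_kk h.2.2.2.2.2.2.1, by linarith, kk_nonneg h, kk_le h⟩

/-! ### Folding the angular integral -/

lemma fold_angle {b : ℝ → ℝ} (hbm : Measurable b) (hb0 : ∀ θ, Real.cos θ ≠ 1 → 0 ≤ b (Real.cos θ))
    {h : ℝ → ℝ} (hhm : Measurable h) (hper : ∀ θ, h (θ + π) = h θ)
    (hI : IntegrableOn (fun φ => kk b φ * h (2 * φ)) (Icc (-(π / 4)) (π / 4))) :
    IntegrableOn (fun θ => b (Real.cos θ) * h θ) (Ioo (-π) π) ∧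
    ∫ θ in Ioo (-π) π, b (Real.cos θ) * h θ =
      ∫ φ in Icc (-(π / 4)) (π / 4), kk b φ * h (2 * φ) := by
  have hπ := Real.pi_pos
  set H : ℝ → ℝ := fun θ => (b (Real.cos θ) + b (-Real.cos θ)) * h θ with hH
  set G : ℝ → ℝ := fun θ => b (Real.cos θ) * h θ with hG
  have hGper : Function.Periodic G (2 * π) := by
    intro θ
    simp only [hG]
    rw [Real.cos_add_two_pi]
    congr 1
    rw [two_mul, ← add_assoc, hper, hper]
  have hGpi : ∀ θ, G (θ + π) = b (-Real.cos θ) * h θ := by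
    intro θ
    simp only [hG]
    rw [Real.cos_add_pi, hper]
  have hae : ∀ᵐ φ : ℝ ∂(volume.restrict (Icc (-(π / 4)) (π / 4))),
      kk b φ * h (2 * φ) = 2 * H (2 * φ) := by
    have h1 : ∀ᵐ φ : ℝ ∂(volume.restrict (Icc (-(π / 4)) (π / 4))), φ ≠ 0 := by
      apply ae_restrict_of_ae
      simp [ae_iff]
    filter_upwards [ae_restrict_mem measurableSet_Icc, h1] with φ h2 h3
    unfold kk
    rw [if_pos ⟨h2, h3⟩]
    simp only [hH]
    ring
  have hI2 : IntegrableOn (fun φ => 2 * H (2 * φ)) (Icc (-(π / 4)) (π / 4)) :=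
    hI.congr hae
  have hle4 : -(π / 4) ≤ π / 4 := by linarith
  have hI3 : IntervalIntegrable (fun φ => H (2 * φ)) volume (-(π / 4)) (π / 4) := by
    have h1 : IntervalIntegrable (fun φ => 2 * H (2 * φ)) volume (-(π / 4)) (π / 4) := by
      rw [intervalIntegrable_iff_integrableOn_Icc_of_le hle4]
      exact hI2
    have h2 := h1.const_mul (1 / 2)
    refine h2.congr ?_
    intro φ _
    simp only
    ring
  have hI4 : IntervalIntegrable H volume (-(π / 2)) (π / 2) := by
    have e1 : -(π / 4) = (-(π / 2)) / 2 := by ring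
    have e2 : π / 4 = (π / 2) / 2 := by ring
    rw [e1, e2] at hI3
    exact (IntervalIntegrable.comp_mul_left_iff (c := 2) two_ne_zero).1 hI3
  have hle2 : -(π / 2) ≤ π / 2 := by linarith
  have hI5 : IntegrableOn H (Ioc (-(π / 2)) (π / 2)) :=
    (intervalIntegrable_iff_integrableOn_Ioc_of_le hle2).1 hI4
  have hpos : ∀ᵐ θ : ℝ ∂(volume.restrict (Ioc (-(π / 2)) (π / 2))),
      0 ≤ b (Real.cos θ) ∧ 0 ≤ b (-Real.cos θ) := by
    have h1 : ∀ᵐ φ : ℝ ∂(volume.restrict (Ioc (-(π / 2)) (π / 2))), φ ≠ 0 := by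
      apply ae_restrict_of_ae
      simp [ae_iff]
    filter_upwards [ae_restrict_mem measurableSet_Ioc, h1] with θ h2 h3
    constructor
    · apply hb0
      intro hcos
      rw [Real.cos_eq_one_iff_of_lt_of_lt (by linarith [h2.1]) (by linarith [h2.2])] at hcos
      exact h3 hcos
    · rw [← Real.cos_add_pi]
      apply hb0
      rw [Real.cos_add_pi]
      have := Real.cos_nonneg_of_mem_Icc (x := θ) ⟨h2.1.le, h2.2⟩
      intro hcon
      linarith
  have hm : AEStronglyMeasurable (fun θ => b (Real.cos θ) * h θ)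
      (volume.restrict (Ioc (-(π / 2)) (π / 2))) :=
    Measurable.aestronglyMeasurable (by fun_prop)
  have hm' : AEStronglyMeasurable (fun θ => b (-Real.cos θ) * h θ)
      (volume.restrict (Ioc (-(π / 2)) (π / 2))) :=
    Measurable.aestronglyMeasurable (by fun_prop)
  have hG1 : IntervalIntegrable G volume (-(π / 2)) (π / 2) := by
    rw [intervalIntegrable_iff_integrableOn_Ioc_of_le hle2]
    refine Integrable.mono hI5 hm ?_
    filter_upwards [hpos] with θ hθ
    simp only [hG, hH]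
    rw [norm_mul, norm_mul, Real.norm_of_nonneg hθ.1, Real.norm_of_nonneg (add_nonneg hθ.1 hθ.2)]
    exact mul_le_mul_of_nonneg_right (by linarith [hθ.2]) (norm_nonneg _)
  have hG2 : IntervalIntegrable (fun θ => G (θ + π)) volume (-(π / 2)) (π / 2) := by
    simp only [hGpi]
    rw [intervalIntegrable_iff_integrableOn_Ioc_of_le hle2]
    refine Integrable.mono hI5 hm' ?_
    filter_upwards [hpos] with θ hθ
    simp only [hH]
    rw [norm_mul, norm_mul, Real.norm_of_nonneg hθ.2, Real.norm_of_nonneg (add_nonneg hθ.1 hθ.2)]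
    exact mul_le_mul_of_nonneg_right (by linarith [hθ.1]) (norm_nonneg _)
  have hG3 : IntervalIntegrable G volume (π / 2) (3 * π / 2) := by
    have h1 := IntervalIntegrable.comp_add_right_iff (f := G) (a := -(π / 2)) (b := π / 2) (c := π)
    have h2 := h1.1 hG2
    rw [show -(π / 2) + π = π / 2 by ring, show π / 2 + π = 3 * π / 2 by ring] at h2
    exact h2
  have hG4 : IntervalIntegrable G volume (-(π / 2)) (-(π / 2) + 2 * π) := by
    rw [show -(π / 2) + 2 * π = 3 * π / 2 by ring]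
    exact hG1.trans hG3
  have hG5 : IntervalIntegrable G volume (-π) π :=
    hGper.intervalIntegrable (by positivity) hG4 (-π) π
  constructor
  · rw [← intervalIntegrable_iff_integrableOn_Ioo_of_le (by linarith)]
    exact hG5
  · rw [← integral_Ioc_eq_integral_Ioo, ← intervalIntegral.integral_of_le (by linarith)]
    have h1 := hGper.intervalIntegral_add_eq (-π) (-(π / 2))
    rw [show -π + 2 * π = π by ring, show -(π / 2) + 2 * π = 3 * π / 2 by ring] at h1
    have h2 : ∫ θ in (-π)..π, b (Real.cos θ) * h θ = ∫ θ in (-π)..π, G θ := rfl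
    rw [h2, h1, ← intervalIntegral.integral_add_adjacent_intervals hG1 hG3]
    have h3 : ∫ θ in (π / 2)..(3 * π / 2), G θ = ∫ θ in (-(π / 2))..(π / 2), G (θ + π) := by
      rw [intervalIntegral.integral_comp_add_right]
      congr 1 <;> ring
    rw [h3, ← intervalIntegral.integral_add hG1 hG2]
    have h4 : ∀ θ, G θ + G (θ + π) = H θ := by
      intro θ
      rw [hGpi]
      simp only [hG, hH]
      ring
    simp only [h4]
    have h5 : ∫ φ in Icc (-(π / 4)) (π / 4), kk b φ * h (2 * φ) =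
        ∫ φ in (-(π / 4))..(π / 4), 2 * H (2 * φ) := by
      rw [integral_congr_ae hae, integral_Icc_eq_integral_Ioc,
        ← intervalIntegral.integral_of_le hle4]
    rw [h5, intervalIntegral.integral_const_mul,
      intervalIntegral.integral_comp_mul_left _ two_ne_zero]
    rw [show 2 * -(π / 4) = -(π / 2) by ring, show 2 * (π / 4) = π / 2 by ring]
    simp

end BoltzDisp
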