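import Pool.Agent.MP_08d8de_an.Disp2.Bridge2

/-!
From the `σ`-form of the collision operator to the reduced form, part two.
-/

set_option autoImplicit false

open MeasureTheory Set Filter Topology
open scoped Real ENNReal ComplexConjugate

noncomputable section

namespace BoltzDisp

open Pool.Agent.Boltzmann2

/-! ### Rotation of the angle -/

lemma periodic_exp' (Φ : ℂ → ℝ) :
    Function.Periodic (fun α : ℝ => Φ (Complex.exp (α * Complex.I))) (2 * π) := by
  intro α
  simp only
  congr 1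
  push_cast
  rw [add_mul, Complex.exp_add, Complex.exp_two_pi_mul_I, mul_one]

lemma rot_int (Φ : ℂ → ℝ) {u : ℂ} (hu : ‖u‖ = 1) :
    ∫ α in Ioo (-π) π, Φ (Complex.exp (α * Complex.I)) =
      ∫ θ in Ioo (-π) π, Φ (u * Complex.exp (θ * Complex.I)) := by
  have hπ := Real.pi_pos
  have hexp : Complex.exp (u.arg * Complex.I) = u := by
    have := Complex.norm_mul_exp_arg_mul_I u
    rwa [hu, Complex.ofReal_one, one_mul] at this
  have h1 : ∀ θ : ℝ, Φ (u * Complex.exp (θ * Complex.I)) =
      (fun α : ℝ => Φ (Complex.exp (α * Complex.I))) (θ + u.arg) := by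
    intro θ
    simp only
    congr 1
    push_cast
    rw [add_mul, Complex.exp_add, hexp, mul_comm]
  simp_rw [h1]
  rw [← integral_Ioc_eq_integral_Ioo, ← integral_Ioc_eq_integral_Ioo,
    ← intervalIntegral.integral_of_le (by linarith), ← intervalIntegral.integral_of_le (by linarith),
    intervalIntegral.integral_comp_add_right (fun α : ℝ => Φ (Complex.exp (α * Complex.I)))]
  have h2 := (periodic_exp' Φ).intervalIntegral_add_eq (-π) (-π + u.arg)
  rw [show -π + 2 * π = π by ring, show -π + u.arg + 2 * π = π + u.arg by ring] at h2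
  exact h2

lemma rot_integrable' (Φ : ℂ → ℝ) {u : ℂ} (hu : ‖u‖ = 1)
    (h : Integrable (fun θ : ℝ => Φ (u * Complex.exp (θ * Complex.I)))
      (volume.restrict (Ioo (-π) π))) :
    Integrable (fun α : ℝ => Φ (Complex.exp (α * Complex.I))) (volume.restrict (Ioo (-π) π)) := by
  have hπ := Real.pi_pos
  have hexp : Complex.exp (u.arg * Complex.I) = u := by
    have := Complex.norm_mul_exp_arg_mul_I u
    rwa [hu, Complex.ofReal_one, one_mul] at this
  have h1 : (fun θ : ℝ => Φ (u * Complex.exp (θ * Complex.I))) =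
      fun θ => (fun α : ℝ => Φ (Complex.exp (α * Complex.I))) (θ + u.arg) := by
    ext θ
    simp only
    congr 1
    push_cast
    rw [add_mul, Complex.exp_add, hexp, mul_comm]
  rw [h1] at h
  have h2 : IntervalIntegrable (fun θ => (fun α : ℝ => Φ (Complex.exp (α * Complex.I)))
      (θ + u.arg)) volume (-π) π := by
    rw [intervalIntegrable_iff_integrableOn_Ioo_of_le (by linarith)]
    exact h
  have h3 := h2.comp_add_right (-u.arg)
  simp only [neg_add_cancel_right, sub_neg_eq_add] at h3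
  have h4 : IntervalIntegrable (fun α : ℝ => Φ (Complex.exp (α * Complex.I))) volume
      (-π + u.arg) (-π + u.arg + 2 * π) := by
    rw [show -π + u.arg + 2 * π = π + u.arg by ring]
    exact h3
  have h5 := (periodic_exp' Φ).intervalIntegrable (by positivity) h4 (-π) π
  rw [intervalIntegrable_iff_integrableOn_Ioo_of_le (by linarith)] at h5
  exact h5

lemma aa_half (θ : ℝ) : aa (θ / 2) = (1 + Complex.exp (θ * Complex.I)) / 2 := by
  have h1 : Complex.exp (θ * Complex.I) =
      Complex.exp ((θ / 2 : ℝ) * Complex.I) * Complex.exp ((θ / 2 : ℝ) * Complex.I) := by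
    rw [← Complex.exp_add]
    congr 1
    push_cast
    ring
  have h2 : (Real.cos (θ / 2) : ℂ) = (Complex.exp ((θ / 2 : ℝ) * Complex.I) +
      Complex.exp (-((θ / 2 : ℝ) * Complex.I))) / 2 := by
    rw [Complex.ofReal_cos, Complex.cos]
    congr 3
    ring
  have h3 : Complex.exp (-((θ / 2 : ℝ) * Complex.I)) * Complex.exp ((θ / 2 : ℝ) * Complex.I) = 1 := by
    rw [← Complex.exp_add]; simp
  unfold aa
  rw [h2, h1]
  linear_combination (1 / 2) * h3

/-- the `σ`-form integrand as a function of `σ` -/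
def CIs (γ : ℝ) (b : ℝ → ℝ) (f : ℂ → ℝ) (v w σ : ℂ) : ℝ :=
  (f (vPrimeStar v w σ) * f (vPrime v w σ) - f w * f v) * (‖v - w‖ ^ γ * b (cosTheta v w σ))

lemma CIs_eq (γ : ℝ) (b : ℝ → ℝ) (f : ℂ → ℝ) {v w : ℂ} (hw : w ≠ v) (θ : ℝ) :
    CIs γ b f v w ((v - w) / (‖v - w‖ : ℂ) * Complex.exp (θ * Complex.I)) =
      ‖v - w‖ ^ γ * (b (Real.cos θ) * DelR f v (v - w, θ / 2)) := by
  have hne : v - w ≠ 0 := sub_ne_zero.2 hw.symm
  have hn : (‖v - w‖ : ℂ) ≠ 0 := by
    rw [Ne, Complex.ofReal_eq_zero, norm_eq_zero]; exact hne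
  have hn' : ‖v - w‖ ≠ 0 := norm_ne_zero_iff.2 hne
  set e := Complex.exp (θ * Complex.I) with he
  have h1 : vPrime v w ((v - w) / (‖v - w‖ : ℂ) * e) = v - (1 - aa (θ / 2)) * (v - w) := by
    unfold vPrime
    rw [aa_half, ← he]
    push_cast
    field_simp
    ring
  have h2 : vPrimeStar v w ((v - w) / (‖v - w‖ : ℂ) * e) = v - aa (θ / 2) * (v - w) := by
    unfold vPrimeStar
    rw [aa_half, ← he]
    push_cast
    field_simp
    ring
  have h3 : cosTheta v w ((v - w) / (‖v - w‖ : ℂ) * e) = Real.cos θ := by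
    unfold cosTheta
    have h4 : inner ℝ (v - w) ((v - w) / (‖v - w‖ : ℂ) * e) = ‖v - w‖ * Real.cos θ := by
      rw [Complex.inner]
      have h5 : (starRingEnd ℂ) (v - w) * ((v - w) / (‖v - w‖ : ℂ) * e) =
          (‖v - w‖ : ℂ) * e := by
        have h6 : (starRingEnd ℂ) (v - w) * (v - w) = (‖v - w‖ : ℂ) ^ 2 := by
          rw [mul_comm, Complex.mul_conj, Complex.normSq_eq_norm_sq]
          push_cast; rfl
        rw [div_mul_eq_mul_div, mul_div_assoc', ← mul_assoc, h6]
        field_simp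
      rw [mul_comm, h5, Complex.re_ofReal_mul, he, Complex.exp_ofReal_mul_I_re]
    rw [h4, mul_div_assoc, mul_comm, div_mul_cancel₀ _ hn']
  unfold CIs DelR
  rw [h1, h2, h3]
  simp only [sub_sub_cancel]
  ring

lemma aa_add_pi (φ : ℝ) : aa (φ + π / 2) = 1 - aa φ := by
  have h1 := aa_half (2 * φ + π)
  have h2 := aa_half (2 * φ)
  rw [show (2 * φ + π) / 2 = φ + π / 2 by ring] at h1
  rw [show (2 * φ) / 2 = φ by ring] at h2
  rw [h1, h2]
  push_cast
  rw [add_mul, Complex.exp_add, Complex.exp_pi_mul_I]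
  ring

lemma DelR_add_pi (f : ℂ → ℝ) (v z : ℂ) (θ : ℝ) :
    DelR f v (z, (θ + π) / 2) = DelR f v (z, θ / 2) := by
  unfold DelR
  simp only
  rw [show (θ + π) / 2 = θ / 2 + π / 2 by ring, aa_add_pi]
  rw [show (1 : ℂ) - (1 - aa (θ / 2)) = aa (θ / 2) by ring]
  ring

lemma measurable_DelR {f : ℂ → ℝ} (hf : Measurable f) (v : ℂ) : Measurable (DelR f v) := by
  have := continuous_aa2.measurable
  unfold DelR
  fun_prop

theorem bridge2 {s γ c : ℝ} {b : ℝ → ℝ} (h : Admissible s γ c b) {f : ℂ → ℝ} (hf : Measurable f)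
    (v : ℂ) (hint : Integrable (fun p : ℂ × ℝ => kk b p.2 * ‖p.1‖ ^ γ * DelR f v p) mu) :
    Integrable (collisionIntegrand γ b f v)
      ((volume : Measure ℂ).prod (volume.restrict (Ioo (-π) π))) ∧
    collisionOp γ b f v = ∫ p, kk b p.2 * ‖p.1‖ ^ γ * DelR f v p ∂mu := by
  have hbm : Measurable b := h.2.2.2.2.2.2.1
  have hDm := measurable_DelR hf v
  have hb0 : ∀ θ, Real.cos θ ≠ 1 → 0 ≤ b (Real.cos θ) := by
    intro θ hθ
    have h1 := adm_b h (θ := Real.arccos (Real.cos θ))
      ⟨by linarith [Real.arccos_nonneg (Real.cos θ), Real.pi_pos], Real.arccos_le_pi _⟩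
      (by
        intro h0
        have := Real.cos_arccos (Real.neg_one_le_cos θ) (Real.cos_le_one θ)
        rw [h0, Real.cos_zero] at this
        exact hθ this.symm)
    rw [Real.cos_arccos (Real.neg_one_le_cos θ) (Real.cos_le_one θ)] at h1
    exact h1.1
  set q : ℂ × ℝ → ℝ := fun p => kk b p.2 * ‖p.1‖ ^ γ * DelR f v p with hq
  have hqi1 := (integrable_prod_iff hint.1).1 hint
  have hne : ∀ᵐ w : ℂ, w ≠ v := by simp [ae_iff]
  have hu : ∀ w : ℂ, w ≠ v → ‖(v - w) / (‖v - w‖ : ℂ)‖ = 1 := by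
    intro w hw
    rw [norm_div, Complex.norm_real, norm_norm, div_self]
    exact norm_ne_zero_iff.2 (sub_ne_zero.2 hw.symm)
  have hmp : MeasurePreserving (fun w : ℂ => v - w) volume volume :=
    Measure.measurePreserving_sub_left (volume : Measure ℂ) v
  -- folding, for fixed `z ≠ 0`
  have hzpos : ∀ z : ℂ, z ≠ 0 → 0 < ‖z‖ ^ γ := fun z hz =>
    Real.rpow_pos_of_pos (norm_pos_iff.2 hz) _
  have hfold1 : ∀ z : ℂ, z ≠ 0 → Integrable (fun φ => q (z, φ))
      (volume.restrict (Icc (-(π / 4)) (π / 4))) →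
      IntegrableOn (fun θ => b (Real.cos θ) * DelR f v (z, θ / 2)) (Ioo (-π) π) ∧
      ∫ θ in Ioo (-π) π, b (Real.cos θ) * DelR f v (z, θ / 2) =
        ∫ φ in Icc (-(π / 4)) (π / 4), kk b φ * DelR f v (z, φ) := by
    intro z hz hzi
    have h1 := fold_angle hbm hb0 (h := fun θ => DelR f v (z, θ / 2))
      (hDm.comp (by fun_prop)) (DelR_add_pi f v z) (by
        have h2 := hzi.const_mul (‖z‖ ^ γ)⁻¹
        refine h2.congr (Eventually.of_forall fun φ => ?_)
        simp only [hq]
        rw [mul_div_cancel_left₀ _ (two_ne_zero)]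
        have := (hzpos z hz).ne'
        field_simp)
    refine ⟨h1.1, h1.2.trans ?_⟩
    congr 1
    ext φ
    rw [mul_div_cancel_left₀ _ (two_ne_zero)]
  have hfold2 : ∀ z : ℂ, z ≠ 0 → Integrable (fun φ => q (z, φ))
      (volume.restrict (Icc (-(π / 4)) (π / 4))) →
      ∫ θ in Ioo (-π) π, ‖b (Real.cos θ) * DelR f v (z, θ / 2)‖ =
        ∫ φ in Icc (-(π / 4)) (π / 4), ‖kk b φ * DelR f v (z, φ)‖ := by
    intro z hz hzi
    have h1 := fold_angle hbm hb0 (h := fun θ => |DelR f v (z, θ / 2)|)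
      ((hDm.comp (by fun_prop)).abs) (fun θ => by
        simp only [DelR_add_pi f v z]) (by
        have h2 := hzi.norm.const_mul (‖z‖ ^ γ)⁻¹
        refine h2.congr (Eventually.of_forall fun φ => ?_)
        simp only [hq, Real.norm_eq_abs, abs_mul]
        rw [mul_div_cancel_left₀ _ (two_ne_zero), abs_of_nonneg (kk_nonneg h φ),
          abs_of_pos (hzpos z hz)]
        have := (hzpos z hz).ne'
        field_simp)
    have h2 : ∫ θ in Ioo (-π) π, ‖b (Real.cos θ) * DelR f v (z, θ / 2)‖ =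
        ∫ θ in Ioo (-π) π, b (Real.cos θ) * |DelR f v (z, θ / 2)| := by
      apply integral_congr_ae
      have h3 : ∀ᵐ φ : ℝ ∂(volume.restrict (Ioo (-π) π)), φ ≠ 0 := by
        apply ae_restrict_of_ae
        simp [ae_iff]
      filter_upwards [ae_restrict_mem measurableSet_Ioo, h3] with θ h4 h5
      rw [norm_mul, Real.norm_of_nonneg, Real.norm_eq_abs]
      apply hb0
      intro hcos
      have hπ := Real.pi_pos
      rw [Real.cos_eq_one_iff_of_lt_of_lt (by linarith [h4.1]) (by linarith [h4.2])] at hcos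
      exact h5 hcos
    rw [h2, h1.2]
    congr 1
    ext φ
    rw [mul_div_cancel_left₀ _ (two_ne_zero), norm_mul, Real.norm_of_nonneg (kk_nonneg h φ),
      Real.norm_eq_abs]
  -- the good `w`
  have hgood : ∀ᵐ w : ℂ, w ≠ v ∧ Integrable (fun φ => q (v - w, φ))
      (volume.restrict (Icc (-(π / 4)) (π / 4))) := by
    have h1 : ∀ᵐ w : ℂ, Integrable (fun φ => q (v - w, φ))
        (volume.restrict (Icc (-(π / 4)) (π / 4))) := hmp.quasiMeasurePreserving.ae hqi1.1
    filter_upwards [hne, h1] with w a b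
    exact ⟨a, b⟩
  have hmeas : AEStronglyMeasurable (collisionIntegrand γ b f v)
      ((volume : Measure ℂ).prod (volume.restrict (Ioo (-π) π))) := by
    apply Measurable.aestronglyMeasurable
    unfold collisionIntegrand vPrime vPrimeStar cosTheta
    fun_prop
  have hin : ∀ w : ℂ, w ≠ v → ∀ Ψ : ℝ → ℝ,
      ∫ α in Ioo (-π) π, Ψ (collisionIntegrand γ b f v (w, α)) =
        ∫ θ in Ioo (-π) π, Ψ (‖v - w‖ ^ γ * (b (Real.cos θ) * DelR f v (v - w, θ / 2))) := by
    intro w hw Ψ
    have h1 := rot_int (fun σ => Ψ (CIs γ b f v w σ)) (hu w hw)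
    simp only [CIs_eq γ b f hw] at h1
    exact h1
  constructor
  · rw [integrable_prod_iff hmeas]
    constructor
    · filter_upwards [hgood] with w hw
      have hz : v - w ≠ 0 := sub_ne_zero.2 hw.1.symm
      exact rot_integrable' (fun σ => CIs γ b f v w σ) (hu w hw.1) (by
        simp only [CIs_eq γ b f hw.1]
        exact ((hfold1 _ hz hw.2).1).const_mul _)
    · have h1 : Integrable (fun w : ℂ => ∫ φ in Icc (-(π / 4)) (π / 4), ‖q (v - w, φ)‖) :=
        (hmp.integrable_comp hqi1.2.1).2 hqi1.2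
      refine h1.congr ?_
      filter_upwards [hgood] with w hw
      have hz : v - w ≠ 0 := sub_ne_zero.2 hw.1.symm
      rw [hin w hw.1 (fun r => ‖r‖)]
      simp only [norm_mul (‖v - w‖ ^ γ)]
      rw [integral_const_mul, hfold2 _ hz hw.2, ← integral_const_mul]
      congr 1
      ext φ
      simp only [hq, norm_mul]
      ring
  · unfold collisionOp
    have h1 : ∫ w : ℂ, ∫ α in Ioo (-π) π, collisionIntegrand γ b f v (w, α) =
        ∫ w : ℂ, ∫ φ in Icc (-(π / 4)) (π / 4), q (v - w, φ) := by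
      apply integral_congr_ae
      filter_upwards [hgood] with w hw
      have hz : v - w ≠ 0 := sub_ne_zero.2 hw.1.symm
      have h2 := hin w hw.1 id
      simp only [id] at h2
      rw [h2, integral_const_mul, (hfold1 _ hz hw.2).2, ← integral_const_mul]
      congr 1
      ext φ
      simp only [hq]
      ring
    rw [h1, integral_sub_left_eq_self
      (fun z : ℂ => ∫ φ in Icc (-(π / 4)) (π / 4), q (z, φ)) volume v]
    unfold mu
    exact (integral_prod _ hint).symm

end BoltzDisp
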