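import Pool.Agent.MP_08d8de_an.Disp.Space

/-!
The class of exponentially decaying line-holomorphic families in the variables `(t, x, v)`,
its closure under directional derivatives and multiplication by velocities.
-/

set_option autoImplicit false

open MeasureTheory Complex Set Filter Topology Metric
open scoped ENNReal ComplexConjugate

namespace BoltzDisp

/-- the open time interval -/
abbrev I0 : Set ℝ := Ioo (-2 : ℝ) 1

lemma isOpen_tube2 (r : ℝ) : IsOpen (tube r) := by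
  have : tube r = ⋃ (y : ℂ) (v : ℂ), Metric.ball (io y v) r := by
    ext Z; simp [tube, dist_eq_norm]
  rw [this]
  exact isOpen_iUnion fun y => isOpen_iUnion fun v => Metric.isOpen_ball

lemma tube_mono2 {r r' : ℝ} (h : r ≤ r') : tube r ⊆ tube r' := by
  rintro Z ⟨y, v, hZ⟩
  exact ⟨y, v, hZ.trans_le h⟩

lemma io_mem_tube {r : ℝ} (hr : 0 < r) (x v : ℂ) : io x v ∈ tube r :=
  ⟨x, v, by simpa using hr⟩

lemma near_add {r ρ r' : ℝ} {Z S W : Ph} (hZ : ‖Z - W‖ < r) (hS : ‖S‖ ≤ ρ) (h : r + ρ ≤ r') :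
    ‖Z + S - W‖ < r' := by
  have : Z + S - W = (Z - W) + S := by abel
  rw [this]
  linarith [norm_add_le (Z - W) S]

lemma tube_add {r ρ r' : ℝ} {Z S : Ph} (hZ : Z ∈ tube r) (hS : ‖S‖ ≤ ρ) (h : r + ρ ≤ r') :
    Z + S ∈ tube r' := by
  obtain ⟨y, v, hZ⟩ := hZ
  exact ⟨y, v, near_add hZ hS h⟩

/-- The class with explicit constants. -/
structure ClW (r κ C : ℝ) (F : ℝ → Ph → ℂ) : Prop where
  hr : 0 < r
  hκ : 0 < κ
  hC : 0 ≤ C
  cont : ContinuousOn (fun p : ℝ × Ph => F p.1 p.2) (I0 ×ˢ tube r)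
  hol : ∀ t ∈ I0, ∀ Z ∈ tube r, ∀ E : Ph, DifferentiableAt ℂ (fun ζ : ℂ => F t (Z + ζ • E)) 0
  bound : ∀ t ∈ I0, ∀ (x v : ℂ) (Z : Ph), ‖Z - io x v‖ < r → ‖F t Z‖ ≤ C * Real.exp (-(κ * ‖v‖))

/-- The class. -/
def Cl (F : ℝ → Ph → ℂ) : Prop := ∃ r κ C, ClW r κ C F

variable {r κ C r' κ' C' : ℝ} {F G F' G' : ℝ → Ph → ℂ}

lemma ClW.mono (h : ClW r κ C F) (hr' : 0 < r') (hrr : r' ≤ r) (hκ' : 0 < κ') (hκκ : κ' ≤ κ)
    (hCC : C ≤ C') : ClW r' κ' C' F := by
  refine ⟨hr', hκ', h.hC.trans hCC, ?_, ?_, ?_⟩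
  · exact h.cont.mono (prod_mono le_rfl (tube_mono2 hrr))
  · intro t ht Z hZ E
    exact h.hol t ht Z (tube_mono2 hrr hZ) E
  · intro t ht x v Z hZ
    refine (h.bound t ht x v Z (hZ.trans_le hrr)).trans ?_
    have h1 : Real.exp (-(κ * ‖v‖)) ≤ Real.exp (-(κ' * ‖v‖)) := by
      apply Real.exp_le_exp.2
      have := mul_le_mul_of_nonneg_right hκκ (norm_nonneg v)
      linarith
    have h2 := h.hC
    exact mul_le_mul hCC h1 (Real.exp_pos _).le (h2.trans hCC)

/-- two members of the class with the same radius and rate -/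
lemma Cl.common (hF : Cl F) (hG : Cl G) : ∃ r κ C, ClW r κ C F ∧ ClW r κ C G := by
  obtain ⟨r, κ, C, h⟩ := hF
  obtain ⟨r', κ', C', h'⟩ := hG
  exact ⟨min r r', min κ κ', max C C',
    h.mono (lt_min h.hr h'.hr) (min_le_left _ _) (lt_min h.hκ h'.hκ) (min_le_left _ _)
      (le_max_left _ _),
    h'.mono (lt_min h.hr h'.hr) (min_le_right _ _) (lt_min h.hκ h'.hκ) (min_le_right _ _)
      (le_max_right _ _)⟩

lemma ClW.norm_le (h : ClW r κ C F) {t : ℝ} (ht : t ∈ I0) {Z : Ph} (hZ : Z ∈ tube r) :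
    ‖F t Z‖ ≤ C := by
  obtain ⟨x, v, hxv⟩ := hZ
  refine (h.bound t ht x v Z hxv).trans ?_
  have h1 : Real.exp (-(κ * ‖v‖)) ≤ 1 := by
    rw [Real.exp_le_one_iff]
    have := mul_nonneg h.hκ.le (norm_nonneg v)
    linarith
  exact mul_le_of_le_one_right h.hC h1

lemma ClW.line (h : ClW r κ C F) {t : ℝ} (ht : t ∈ I0) {Z E : Ph} {ζ : ℂ}
    (hZ : Z + ζ • E ∈ tube r) : DifferentiableAt ℂ (fun ζ : ℂ => F t (Z + ζ • E)) ζ := by
  have h1 := h.hol t ht _ hZ E
  have h2 : (fun ζ' : ℂ => F t (Z + ζ' • E)) =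
      (fun η : ℂ => F t (Z + ζ • E + η • E)) ∘ (fun ζ' => ζ' - ζ) := by
    ext ζ'
    simp only [Function.comp]
    congr 1
    rw [add_assoc, ← add_smul]
    congr 2
    ring
  rw [h2]
  apply DifferentiableAt.comp
  · simpa using h1
  · fun_prop

lemma ClW.add (hF : ClW r κ C F) (hG : ClW r κ C' G) :
    ClW r κ (C + C') (fun t Z => F t Z + G t Z) := by
  refine ⟨hF.hr, hF.hκ, add_nonneg hF.hC hG.hC, hF.cont.add hG.cont, ?_, ?_⟩
  · intro t ht Z hZ E
    exact (hF.hol t ht Z hZ E).add (hG.hol t ht Z hZ E)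
  · intro t ht x v Z hZ
    refine (norm_add_le _ _).trans ?_
    rw [add_mul]
    exact add_le_add (hF.bound t ht x v Z hZ) (hG.bound t ht x v Z hZ)

lemma ClW.smul (hF : ClW r κ C F) (c : ℂ) : ClW r κ (‖c‖ * C) (fun t Z => c * F t Z) := by
  refine ⟨hF.hr, hF.hκ, mul_nonneg (norm_nonneg _) hF.hC, continuousOn_const.mul hF.cont, ?_, ?_⟩
  · intro t ht Z hZ E
    exact (hF.hol t ht Z hZ E).const_mul c
  · intro t ht x v Z hZ
    rw [norm_mul, mul_assoc]
    exact mul_le_mul_of_nonneg_left (hF.bound t ht x v Z hZ) (norm_nonneg _)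

lemma Cl.add (hF : Cl F) (hG : Cl G) : Cl (fun t Z => F t Z + G t Z) := by
  obtain ⟨r, κ, C, h1, h2⟩ := hF.common hG
  exact ⟨r, κ, _, h1.add h2⟩

lemma Cl.smul (hF : Cl F) (c : ℂ) : Cl (fun t Z => c * F t Z) := by
  obtain ⟨r, κ, C, h1⟩ := hF
  exact ⟨r, κ, _, h1.smul c⟩

/-- multiplication by a velocity coordinate -/
lemma Cl.vmul (hF : Cl F) (L : Ph →L[ℂ] ℂ) (hL : ∀ (x v : ℂ), ‖L (io x v)‖ ≤ ‖v‖)
    (hL1 : ∀ Z, ‖L Z‖ ≤ ‖Z‖) : Cl (fun t Z => L Z * F t Z) := by
  obtain ⟨r, κ, C, h⟩ := hF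
  have hr := h.hr
  have hκ := h.hκ
  have hC := h.hC
  refine ⟨r, κ / 2, (r + 2 / κ) * C, hr, by positivity, by positivity, ?_, ?_, ?_⟩
  · exact (L.continuous.comp continuous_snd).continuousOn.mul h.cont
  · intro t ht Z hZ E
    apply DifferentiableAt.mul _ (h.hol t ht Z hZ E)
    fun_prop
  · intro t ht x v Z hZ
    rw [norm_mul]
    have h1 : ‖L Z‖ ≤ r + ‖v‖ := by
      have : Z = (Z - io x v) + io x v := by abel
      rw [this, map_add]
      refine (norm_add_le _ _).trans ?_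
      exact add_le_add ((hL1 _).trans hZ.le) (hL x v)
    have h2 : r + ‖v‖ ≤ (r + 2 / κ) * Real.exp (κ / 2 * ‖v‖) := by
      have h3 : 1 + κ / 2 * ‖v‖ ≤ Real.exp (κ / 2 * ‖v‖) := by
        have := Real.add_one_le_exp (κ / 2 * ‖v‖)
        linarith
      calc r + ‖v‖ ≤ (r + 2 / κ) * (1 + κ / 2 * ‖v‖) := by
            have h4 : (r + 2 / κ) * (1 + κ / 2 * ‖v‖) =
              r + ‖v‖ + (2 / κ + r * (κ / 2 * ‖v‖)) := by field_simp; ring
            rw [h4]
            have : 0 ≤ 2 / κ + r * (κ / 2 * ‖v‖) := by positivity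
            linarith
        _ ≤ _ := by gcongr
    have h3 := h.bound t ht x v Z hZ
    calc ‖L Z‖ * ‖F t Z‖ ≤ ((r + 2 / κ) * Real.exp (κ / 2 * ‖v‖)) *
          (C * Real.exp (-(κ * ‖v‖))) := by
          gcongr
          exact h1.trans h2
      _ = (r + 2 / κ) * C * Real.exp (-(κ / 2 * ‖v‖)) := by
          have : Real.exp (-(κ / 2 * ‖v‖)) = Real.exp (κ / 2 * ‖v‖) * Real.exp (-(κ * ‖v‖)) := by
            rw [← Real.exp_add]; congr 1; ring
          rw [this]; ring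

/-! ### Holomorphic parametric integrals -/

theorem hol_int {X : Type*} [MeasurableSpace X] {μ : Measure X} {Φ : X → ℂ → ℂ} {ρ : ℝ}
    (hρ : 0 < ρ) {B : X → ℝ} (hB : Integrable B μ)
    (hd : ∀ᵐ p ∂μ, DifferentiableOn ℂ (Φ p) (ball 0 ρ))
    (hb : ∀ᵐ p ∂μ, ∀ η ∈ ball (0 : ℂ) ρ, ‖Φ p η‖ ≤ B p)
    (hm : ∀ η ∈ ball (0 : ℂ) ρ, AEStronglyMeasurable (fun p => Φ p η) μ) :
    DifferentiableAt ℂ (fun η => ∫ p, Φ p η ∂μ) 0 := by
  have h0 : (0 : ℂ) ∈ ball (0 : ℂ) ρ := mem_ball_self hρ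
  have hint : Integrable (fun p => Φ p 0) μ := by
    refine hB.mono' (hm 0 h0) ?_
    filter_upwards [hb] with p hp
    exact hp 0 h0
  -- measurability of the derivative at `0`
  have hmd : AEStronglyMeasurable (fun p => deriv (Φ p) 0) μ := by
    have hseq : Tendsto (fun n : ℕ => ((1 / ((n : ℝ) + 1) : ℝ) : ℂ)) atTop (𝓝[≠] 0) := by
      rw [tendsto_nhdsWithin_iff]
      constructor
      · have := tendsto_one_div_add_atTop_nhds_zero_nat (𝕜 := ℝ)
        have h2 := (Complex.continuous_ofReal.tendsto 0).comp this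
        rw [Complex.ofReal_zero] at h2
        exact h2
      · refine Eventually.of_forall fun n => ?_
        simp only [mem_compl_iff, mem_singleton_iff, ofReal_eq_zero]
        positivity
    have hev : ∀ᶠ n : ℕ in atTop, ((1 / ((n : ℝ) + 1) : ℝ) : ℂ) ∈ ball (0 : ℂ) ρ :=
      (hseq.mono_right nhdsWithin_le_nhds).eventually (ball_mem_nhds _ hρ)
    obtain ⟨n0, hn0⟩ := eventually_atTop.1 hev
    have hseq' := hseq.comp (tendsto_add_atTop_nat n0)
    refine aestronglyMeasurable_of_tendsto_ae atTop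
      (f := fun (n : ℕ) p => slope (Φ p) 0 ((1 / (((n + n0 : ℕ) : ℝ) + 1) : ℝ) : ℂ)) ?_ ?_
    · intro n
      simp only [slope, vsub_eq_sub, smul_eq_mul]
      exact ((hm _ (hn0 (n + n0) (by omega))).sub (hm 0 h0)).const_mul _
    · filter_upwards [hd] with p hp
      have h1 : HasDerivAt (Φ p) (deriv (Φ p) 0) 0 :=
        (hp.differentiableAt (ball_mem_nhds _ hρ)).hasDerivAt
      exact (hasDerivAt_iff_tendsto_slope.1 h1).comp hseq'
  have key := hasDerivAt_integral_of_dominated_loc_of_deriv_le (𝕜 := ℂ) (μ := μ)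
    (F := fun η p => Φ p η) (F' := fun η p => deriv (Φ p) η) (x₀ := (0 : ℂ))
    (s := ball 0 (ρ / 2)) (bound := fun p => B p / (ρ / 2))
    (ball_mem_nhds _ (by positivity))
    (by
      filter_upwards [ball_mem_nhds (0 : ℂ) hρ] with η hη
      exact hm η hη)
    hint hmd
    (by
      filter_upwards [hd, hb] with p hp hbp η hη
      have hsub : closedBall η (ρ / 2) ⊆ ball 0 ρ := by
        intro z hz
        rw [mem_closedBall] at hz
        rw [mem_ball] at hη ⊢
        linarith [dist_triangle z η 0]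
      apply Complex.norm_deriv_le_of_forall_mem_sphere_norm_le (by positivity)
      · apply DifferentiableOn.diffContOnCl
        rw [closure_ball _ (by positivity)]
        exact hp.mono hsub
      · intro z hz
        exact hbp z (hsub (sphere_subset_closedBall hz)))
    (hB.div_const _)
    (by
      filter_upwards [hd] with p hp η hη
      apply DifferentiableAt.hasDerivAt
      apply hp.differentiableAt
      apply isOpen_ball.mem_nhds
      exact ball_subset_ball (by linarith) hη)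
  exact key.2.differentiableAt

/-! ### Directional derivatives -/

/-- derivative along the complex line in direction `E` -/
noncomputable def dd (E : Ph) (F : ℝ → Ph → ℂ) (t : ℝ) (Z : Ph) : ℂ :=
  deriv (fun ζ : ℂ => F t (Z + ζ • E)) 0

/-- the Cauchy kernel -/
noncomputable def ck (ρ θ : ℝ) : ℂ :=
  (2 * Real.pi * I : ℂ)⁻¹ * (deriv (circleMap 0 ρ) θ * (1 / (circleMap 0 ρ θ) ^ 2))

lemma continuous_ck {ρ : ℝ} (hρ : 0 < ρ) : Continuous (ck ρ) := by
  unfold ck
  apply continuous_const.mul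
  simp only [deriv_circleMap]
  apply Continuous.mul (by fun_prop)
  apply Continuous.div continuous_const ((continuous_circleMap 0 ρ).pow 2)
  intro θ
  apply pow_ne_zero
  rw [← norm_ne_zero_iff, norm_circleMap_zero]
  positivity

lemma norm_ck {ρ : ℝ} (hρ : 0 < ρ) (θ : ℝ) : ‖ck ρ θ‖ = (2 * Real.pi * ρ)⁻¹ := by
  have hπ := Real.pi_pos
  unfold ck
  rw [deriv_circleMap, norm_mul, norm_mul, norm_mul, norm_div, norm_pow, norm_circleMap_zero,
    norm_I, norm_inv, norm_one]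
  simp only [norm_mul, norm_I, Complex.norm_ofNat, Complex.norm_real, Real.norm_eq_abs,
    abs_of_pos hπ, abs_of_pos hρ, mul_one]
  field_simp

lemma circleMap_smul_norm {ρ : ℝ} (hρ : 0 < ρ) (θ : ℝ) (E : Ph) :
    ‖circleMap 0 ρ θ • E‖ = ρ * ‖E‖ := by
  rw [norm_smul, norm_circleMap_zero, abs_of_pos hρ]

lemma ClW.cauchy (h : ClW r κ C F) (E : Ph) {ρ : ℝ} (hρ : 0 < ρ) (hρE : ρ * ‖E‖ ≤ r / 2) {t : ℝ}
    (ht : t ∈ I0) {Z : Ph} (hZ : Z ∈ tube (r / 2)) :
    dd E F t Z = ∫ θ in (0 : ℝ)..2 * Real.pi, ck ρ θ * F t (Z + circleMap 0 ρ θ • E) := by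
  have h1 : DiffContOnCl ℂ (fun ζ : ℂ => F t (Z + ζ • E)) (ball 0 ρ) := by
    apply DifferentiableOn.diffContOnCl
    rw [closure_ball _ hρ.ne']
    intro ζ hζ
    apply DifferentiableAt.differentiableWithinAt
    apply h.line ht
    apply tube_add hZ (ρ := r / 2) _ (by linarith)
    rw [norm_smul]
    rw [mem_closedBall, dist_zero_right] at hζ
    exact (mul_le_mul_of_nonneg_right hζ (norm_nonneg _)).trans hρE
  have h2 := h1.deriv_eq_smul_circleIntegral hρ
  have h3 : BoltzDisp.dd E F t Z = (2 * Real.pi * I : ℂ)⁻¹ •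
      ∮ z in C((0 : ℂ), ρ), (1 / (z - 0) ^ 2) • F t (Z + z • E) := by
    unfold BoltzDisp.dd
    rw [h2, smul_smul, inv_mul_cancel₀ Complex.two_pi_I_ne_zero, one_smul]
  rw [h3, circleIntegral, smul_eq_mul, ← intervalIntegral.integral_const_mul]
  congr 1
  ext θ
  unfold ck
  simp only [sub_zero, smul_eq_mul]
  ring

/-- a radius for the Cauchy formula -/
lemma exists_rad (r : ℝ) (hr : 0 < r) (E : Ph) : ∃ ρ : ℝ, 0 < ρ ∧ ρ * ‖E‖ ≤ r / 2 := by
  refine ⟨r / (2 * (‖E‖ + 1)), by positivity, ?_⟩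
  rw [div_mul_eq_mul_div, div_le_div_iff₀ (by positivity) (by positivity)]
  nlinarith [norm_nonneg E, mul_pos hr (show (0:ℝ) < 2 by norm_num)]

lemma ClW.dd (h : ClW r κ C F) (E : Ph) {ρ : ℝ} (hρ : 0 < ρ) (hρE : ρ * ‖E‖ ≤ r / 2) :
    ClW (r / 2) κ (C / ρ) (dd E F) := by
  have hr := h.hr
  have hmem : ∀ {Z : Ph}, Z ∈ tube (r / 2) → ∀ θ, Z + circleMap 0 ρ θ • E ∈ tube r := by
    intro Z hZ θ
    apply tube_add hZ (ρ := r / 2) _ (by linarith)
    rw [circleMap_smul_norm hρ]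
    exact hρE
  refine ⟨by positivity, h.hκ, div_nonneg h.hC hρ.le, ?_, ?_, ?_⟩
  · -- continuity
    rw [continuousOn_iff_continuous_domRestrict]
    have h1 : (I0 ×ˢ tube (r / 2)).domRestrict (fun p : ℝ × Ph => BoltzDisp.dd E F p.1 p.2) =
        fun p : ↥(I0 ×ˢ tube (r / 2)) => ∫ θ in (0 : ℝ)..2 * Real.pi,
          ck ρ θ * F p.1.1 (p.1.2 + circleMap 0 ρ θ • E) := by
      ext1 p
      exact h.cauchy E hρ hρE p.2.1 p.2.2
    rw [h1]
    apply intervalIntegral.continuous_parametric_intervalIntegral_of_continuous'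
    apply Continuous.mul
    · exact (continuous_ck hρ).comp continuous_snd
    · apply h.cont.comp_continuous
        (f := fun q : ↥(I0 ×ˢ tube (r / 2)) × ℝ =>
          ((q.1.1.1, q.1.1.2 + circleMap 0 ρ q.2 • E) : ℝ × Ph))
      · have := continuous_circleMap 0 ρ
        fun_prop
      · intro q
        exact ⟨q.1.2.1, hmem q.1.2.2 _⟩
  · intro t ht Z hZ E'
    obtain ⟨ρ', hρ', hball⟩ := Metric.isOpen_iff.1 (isOpen_tube2 (r / 2)) Z hZ
    have hρ'' : 0 < ρ' / (‖E'‖ + 1) := by positivity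
    have hin : ∀ η ∈ ball (0 : ℂ) (ρ' / (‖E'‖ + 1)), Z + η • E' ∈ tube (r / 2) := by
      intro η hη
      apply hball
      rw [mem_ball, dist_eq_norm, add_sub_cancel_left, norm_smul]
      rw [mem_ball, dist_zero_right, lt_div_iff₀ (by positivity)] at hη
      nlinarith [norm_nonneg η, norm_nonneg E']
    have h1 : (fun η : ℂ => BoltzDisp.dd E F t (Z + η • E')) =ᶠ[𝓝 0] fun η =>
        ∫ θ in (0 : ℝ)..2 * Real.pi, ck ρ θ * F t (Z + η • E' + circleMap 0 ρ θ • E) := by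
      filter_upwards [ball_mem_nhds (0 : ℂ) hρ''] with η hη
      exact h.cauchy E hρ hρE ht (hin η hη)
    rw [h1.differentiableAt_iff]
    simp only [intervalIntegral.integral_of_le Real.two_pi_pos.le]
    apply hol_int hρ'' (B := fun _ => (2 * Real.pi * ρ)⁻¹ * C) (integrable_const _)
    · refine Eventually.of_forall fun θ η hη => ?_
      apply DifferentiableAt.differentiableWithinAt
      apply DifferentiableAt.const_mul
      have h2 : (fun η : ℂ => F t (Z + η • E' + circleMap 0 ρ θ • E)) =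
          fun η => F t ((Z + circleMap 0 ρ θ • E) + η • E') := by
        ext η; congr 1; abel
      rw [h2]
      apply h.line ht
      have h3 := hmem (hin η hη) θ
      have h4 : Z + circleMap 0 ρ θ • E + η • E' = Z + η • E' + circleMap 0 ρ θ • E := by abel
      rw [h4]
      exact h3
    · refine Eventually.of_forall fun θ η hη => ?_
      rw [norm_mul, norm_ck hρ]
      apply mul_le_mul_of_nonneg_left _ (by positivity)
      exact h.norm_le ht (hmem (hin η hη) θ)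
    · intro η hη
      apply Continuous.aestronglyMeasurable
      apply (continuous_ck hρ).mul
      apply h.cont.comp_continuous
        (f := fun θ : ℝ => ((t, Z + η • E' + circleMap 0 ρ θ • E) : ℝ × Ph))
      · have := continuous_circleMap 0 ρ
        fun_prop
      · intro θ
        exact ⟨ht, hmem (hin η hη) θ⟩
  · intro t ht x v Z hZ
    have h1 : DiffContOnCl ℂ (fun ζ : ℂ => F t (Z + ζ • E)) (ball 0 ρ) := by
      apply DifferentiableOn.diffContOnCl
      rw [closure_ball _ hρ.ne']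
      intro ζ hζ
      apply DifferentiableAt.differentiableWithinAt
      apply h.line ht
      apply tube_add ⟨x, v, hZ⟩ (ρ := r / 2) _ (by linarith)
      rw [norm_smul]
      rw [mem_closedBall, dist_zero_right] at hζ
      exact (mul_le_mul_of_nonneg_right hζ (norm_nonneg _)).trans hρE
    have h2 := Complex.norm_deriv_le_of_forall_mem_sphere_norm_le hρ h1
      (C := C * Real.exp (-(κ * ‖v‖))) (by
        intro ζ hζ
        apply h.bound t ht x v
        apply near_add hZ (ρ := r / 2) _ (by linarith)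
        rw [norm_smul]
        rw [mem_sphere, dist_zero_right] at hζ
        rw [hζ]; exact hρE)
    unfold BoltzDisp.dd
    calc _ ≤ _ := h2
      _ = _ := by ring

lemma Cl.dd (hF : Cl F) (E : Ph) : Cl (dd E F) := by
  obtain ⟨r, κ, C, h⟩ := hF
  obtain ⟨ρ, hρ, hρE⟩ := exists_rad r h.hr E
  exact ⟨_, _, _, h.dd E hρ hρE⟩

/-! ### Time derivatives -/

/-- `G` is the time derivative of `F` near the real points. -/
def TDer (F G : ℝ → Ph → ℂ) : Prop :=
  ∃ r > 0, ∀ t ∈ I0, ∀ Z ∈ tube r, HasDerivAt (fun τ => F τ Z) (G t Z) t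

lemma TDer.add (h : TDer F F') (h' : TDer G G') :
    TDer (fun t Z => F t Z + G t Z) (fun t Z => F' t Z + G' t Z) := by
  obtain ⟨r, hr, h⟩ := h
  obtain ⟨r', hr', h'⟩ := h'
  refine ⟨min r r', lt_min hr hr', fun t ht Z hZ => ?_⟩
  exact (h t ht Z (tube_mono2 (min_le_left _ _) hZ)).add
    (h' t ht Z (tube_mono2 (min_le_right _ _) hZ))

lemma TDer.mul (h : TDer F F') (c : Ph → ℂ) :
    TDer (fun t Z => c Z * F t Z) (fun t Z => c Z * F' t Z) := by
  obtain ⟨r, hr, h⟩ := h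
  refine ⟨r, hr, fun t ht Z hZ => ?_⟩
  exact (h t ht Z hZ).const_mul (c Z)

lemma TDer.dd (hF : Cl F) (hF' : Cl F') (h : TDer F F') (E : Ph) :
    TDer (dd E F) (dd E F') := by
  obtain ⟨r0, κ, C, h1, h2⟩ := hF.common hF'
  obtain ⟨r1, hr1, h⟩ := h
  have hr0 := h1.hr
  set r := min r0 r1 with hrdef
  have hr : 0 < r := lt_min hr0 hr1
  have h1 : ClW r κ C F := h1.mono hr (min_le_left _ _) h1.hκ le_rfl le_rfl
  have h2 : ClW r κ C F' := h2.mono hr (min_le_left _ _) h2.hκ le_rfl le_rfl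
  obtain ⟨ρ, hρ, hρE⟩ := exists_rad r hr E
  have hmem : ∀ {Z : Ph}, Z ∈ tube (r / 2) → ∀ θ, Z + circleMap 0 ρ θ • E ∈ tube r := by
    intro Z hZ θ
    apply tube_add hZ (ρ := r / 2) _ (by linarith)
    rw [circleMap_smul_norm hρ]
    exact hρE
  refine ⟨r / 2, by positivity, fun t ht Z hZ => ?_⟩
  have hcm := continuous_circleMap 0 ρ
  have e1 : (fun τ => BoltzDisp.dd E F τ Z) =ᶠ[𝓝 t] fun τ =>
      ∫ θ in Ioc (0 : ℝ) (2 * Real.pi), ck ρ θ * F τ (Z + circleMap 0 ρ θ • E) := by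
    filter_upwards [Ioo_mem_nhds ht.1 ht.2] with τ hτ
    rw [h1.cauchy E hρ hρE hτ hZ, intervalIntegral.integral_of_le Real.two_pi_pos.le]
  rw [e1.hasDerivAt_iff, h2.cauchy E hρ hρE ht hZ,
    intervalIntegral.integral_of_le Real.two_pi_pos.le]
  have hmeas : ∀ {F : ℝ → Ph → ℂ}, ClW r κ C F → ∀ τ ∈ I0,
      AEStronglyMeasurable (fun θ => ck ρ θ * F τ (Z + circleMap 0 ρ θ • E))
        (volume.restrict (Ioc (0 : ℝ) (2 * Real.pi))) := by
    intro F hF τ hτ
    apply Continuous.aestronglyMeasurable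
    apply (continuous_ck hρ).mul
    apply hF.cont.comp_continuous
      (f := fun θ : ℝ => ((τ, Z + circleMap 0 ρ θ • E) : ℝ × Ph))
    · fun_prop
    · intro θ
      exact ⟨hτ, hmem hZ θ⟩
  have key := hasDerivAt_integral_of_dominated_loc_of_deriv_le (𝕜 := ℝ)
    (μ := volume.restrict (Ioc (0 : ℝ) (2 * Real.pi)))
    (F := fun τ θ => ck ρ θ * F τ (Z + circleMap 0 ρ θ • E))
    (F' := fun τ θ => ck ρ θ * F' τ (Z + circleMap 0 ρ θ • E)) (x₀ := t)
    (s := I0) (bound := fun _ => (2 * Real.pi * ρ)⁻¹ * C)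
    (Ioo_mem_nhds ht.1 ht.2)
    (by
      filter_upwards [Ioo_mem_nhds ht.1 ht.2] with τ hτ
      exact hmeas h1 τ hτ)
    (by
      refine Integrable.mono' (g := fun _ => (2 * Real.pi * ρ)⁻¹ * C) (integrable_const _)
        (hmeas h1 t ht) (Eventually.of_forall fun θ => ?_)
      rw [norm_mul, norm_ck hρ]
      exact mul_le_mul_of_nonneg_left (h1.norm_le ht (hmem hZ θ)) (by positivity))
    (hmeas h2 t ht)
    (by
      refine Eventually.of_forall fun θ τ hτ => ?_
      rw [norm_mul, norm_ck hρ]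
      exact mul_le_mul_of_nonneg_left (h2.norm_le hτ (hmem hZ θ)) (by positivity))
    (integrable_const _)
    (by
      refine Eventually.of_forall fun θ τ hτ => ?_
      apply HasDerivAt.const_mul
      exact h τ hτ _ (tube_mono2 (min_le_right _ _) (hmem hZ θ)))
  exact key.2

end BoltzDisp
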