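import Pool.Agent.MP_08d8de_an.Disp2.FromGood

/-!
The initial data: a travelling Maxwellian and a beam.
-/

set_option autoImplicit false

open MeasureTheory Complex Set Filter Topology Metric
open scoped ENNReal ComplexConjugate ContDiff

namespace BoltzDisp

/-- travelling Maxwellian -/
noncomputable def gbk (Z : Ph) : ℂ := Complex.exp (-(Z.1.1 * Z.1.2 + Z.2.1 * Z.2.2))

/-- beam with velocity `R` -/
noncomputable def gbm (R : ℝ) (Z : Ph) : ℂ :=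
  Complex.exp (-(Z.1.1 * Z.1.2 + (Z.2.1 - R) * (Z.2.2 - R)))

lemma gbk_io (y v : ℂ) : gbk (io y v) = (Real.exp (-(‖y‖ ^ 2 + ‖v‖ ^ 2)) : ℂ) := by
  unfold gbk io
  simp only
  rw [Complex.mul_conj, Complex.mul_conj, Complex.normSq_eq_norm_sq, Complex.normSq_eq_norm_sq]
  push_cast
  rfl

lemma gbm_io (R : ℝ) (y v : ℂ) :
    gbm R (io y v) = (Real.exp (-(‖y‖ ^ 2 + ‖v - R‖ ^ 2)) : ℂ) := by
  unfold gbm io
  simp only
  have h1 : conj v - (R : ℂ) = conj (v - R) := by simp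
  rw [h1, Complex.mul_conj, Complex.mul_conj, Complex.normSq_eq_norm_sq,
    Complex.normSq_eq_norm_sq]
  push_cast
  rfl

/-- the exponent along complexified points -/
lemma re_mul_ge {p a b : ℂ} (ha : ‖a‖ ≤ 5) (hb : ‖b‖ ≤ 5) :
    ‖p‖ ^ 2 - 10 * ‖p‖ - 25 ≤ ((p + a) * (conj p + b)).re := by
  have h1 : (p + a) * (conj p + b) = (‖p‖ ^ 2 : ℝ) + (p * b + a * conj p + a * b) := by
    have : p * conj p = (‖p‖ ^ 2 : ℝ) := by
      rw [Complex.mul_conj, Complex.normSq_eq_norm_sq]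
    linear_combination this
  rw [h1, Complex.add_re, Complex.ofReal_re]
  have h2 : ‖p * b + a * conj p + a * b‖ ≤ 10 * ‖p‖ + 25 := by
    refine (norm_add_le _ _).trans ?_
    have h3 : ‖p * b + a * conj p‖ ≤ 10 * ‖p‖ := by
      refine (norm_add_le _ _).trans ?_
      rw [norm_mul, norm_mul, RCLike.norm_conj]
      nlinarith [norm_nonneg p]
    have h4 : ‖a * b‖ ≤ 25 := by
      rw [norm_mul]
      nlinarith [norm_nonneg a, norm_nonneg b]
    linarith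
  have h3 := (abs_le.1 (Complex.abs_re_le_norm (p * b + a * conj p + a * b))).1
  linarith

lemma comp_near {Z : Ph} {y v : ℂ} (hZ : ‖Z - io y v‖ < 5) :
    ‖Z.1.1 - y‖ ≤ 5 ∧ ‖Z.1.2 - conj y‖ ≤ 5 ∧ ‖Z.2.1 - v‖ ≤ 5 ∧ ‖Z.2.2 - conj v‖ ≤ 5 := by
  have h1 := (norm_fst_le (Z - io y v)).trans hZ.le
  have h2 := (norm_snd_le (Z - io y v)).trans hZ.le
  exact ⟨(norm_fst_le _).trans h1, (norm_snd_le _).trans h1, (norm_fst_le _).trans h2,
    (norm_snd_le _).trans h2⟩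

lemma re_pair_ge {p P1 P2 : ℂ} (h1 : ‖P1 - p‖ ≤ 5) (h2 : ‖P2 - conj p‖ ≤ 5) :
    ‖p‖ ^ 2 - 10 * ‖p‖ - 25 ≤ (P1 * P2).re := by
  have h := re_mul_ge (p := p) h1 h2
  have e1 : p + (P1 - p) = P1 := by ring
  have e2 : conj p + (P2 - conj p) = P2 := by ring
  rwa [e1, e2] at h

/-- cubic against exponential -/
lemma cube_exp {u : ℝ} (hu : 0 ≤ u) : (1 + u) ^ 3 ≤ 48 * Real.exp ((1 + u) / 2) := by
  have h1 := Real.pow_div_factorial_le_exp ((1 + u) / 2) (by positivity) 3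
  have h2 : (Nat.factorial 3 : ℝ) = 6 := by norm_num [Nat.factorial]
  rw [h2, div_le_iff₀ (by norm_num)] at h1
  have h3 : ((1 + u) / 2) ^ 3 = (1 + u) ^ 3 / 8 := by ring
  rw [h3] at h1
  linarith

/-- the universal constant of the data -/
noncomputable def Cd : ℝ := 384 * Real.exp 200

lemma Cd_pos : 0 < Cd := by unfold Cd; positivity

lemma one_le_Cd : 1 ≤ Cd := by
  unfold Cd
  have : 1 ≤ Real.exp 200 := Real.one_le_exp (by norm_num)
  linarith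

lemma gbk_good {κ : ℝ} (hκ1 : κ ≤ 1) : GoodData κ Cd gbk := by
  refine ⟨?_, ?_, ?_⟩
  · unfold gbk; fun_prop
  · intro Z E
    unfold gbk
    apply DifferentiableAt.cexp
    simp only [Prod.fst_add, Prod.snd_add, Prod.smul_fst, Prod.smul_snd, smul_eq_mul]
    fun_prop
  · intro y v Z hZ
    obtain ⟨a1, a2, a3, a4⟩ := comp_near hZ
    unfold gbk om
    rw [Complex.norm_exp, Complex.neg_re, Complex.add_re]
    have h1 := re_pair_ge a1 a2
    have h2 := re_pair_ge a3 a4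
    have hP := P_pos v
    rw [mul_div_assoc', le_div_iff₀ (by positivity)]
    have h3 := cube_exp (sq_nonneg ‖v‖)
    have hPv : P v ≤ 48 * Real.exp ((1 + ‖v‖ ^ 2) / 2) := h3
    have h4 : Real.exp (κ * ‖v‖) ≤ Real.exp ‖v‖ := by
      apply Real.exp_le_exp.2
      nlinarith [norm_nonneg v]
    calc Real.exp (-((Z.1.1 * Z.1.2).re + (Z.2.1 * Z.2.2).re)) * (P v * Real.exp (κ * ‖v‖))
        ≤ Real.exp (-((‖y‖ ^ 2 - 10 * ‖y‖ - 25) + (‖v‖ ^ 2 - 10 * ‖v‖ - 25))) *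
          ((48 * Real.exp ((1 + ‖v‖ ^ 2) / 2)) * Real.exp ‖v‖) := by
          gcongr
      _ = 48 * (Real.exp (-((‖y‖ ^ 2 - 10 * ‖y‖ - 25) + (‖v‖ ^ 2 - 10 * ‖v‖ - 25))) *
          Real.exp ((1 + ‖v‖ ^ 2) / 2) * Real.exp ‖v‖) := by ring
      _ = 48 * Real.exp (-((‖y‖ ^ 2 - 10 * ‖y‖ - 25) + (‖v‖ ^ 2 - 10 * ‖v‖ - 25)) +
          (1 + ‖v‖ ^ 2) / 2 + ‖v‖) := by rw [Real.exp_add, Real.exp_add]
      _ ≤ 48 * Real.exp (200 + -‖y‖ ^ 2 / 2) := by
          apply mul_le_mul_of_nonneg_left _ (by norm_num)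
          apply Real.exp_le_exp.2
          nlinarith [sq_nonneg (‖y‖ - 10), sq_nonneg (‖v‖ - 11)]
      _ = 48 * Real.exp 200 * Real.exp (-‖y‖ ^ 2 / 2) := by rw [Real.exp_add]; ring
      _ ≤ Cd * Real.exp (-‖y‖ ^ 2 / 2) := by
          unfold Cd
          have := Real.exp_pos 200
          gcongr
          norm_num

lemma P_beam {R : ℝ} (v : ℂ) : P v ≤ 8 * (1 + R ^ 2) ^ 3 * (1 + ‖v - R‖ ^ 2) ^ 3 := by
  unfold P
  have h1 : ‖v‖ ≤ |R| + ‖v - R‖ := by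
    calc ‖v‖ = ‖(v - R) + R‖ := by ring_nf
      _ ≤ ‖v - R‖ + ‖(R : ℂ)‖ := norm_add_le _ _
      _ = |R| + ‖v - R‖ := by rw [Complex.norm_real, Real.norm_eq_abs]; ring
  have h2 : ‖v‖ ^ 2 ≤ (|R| + ‖v - R‖) ^ 2 := by gcongr
  have h3 : 1 + ‖v‖ ^ 2 ≤ 2 * (1 + R ^ 2) * (1 + ‖v - R‖ ^ 2) := by
    have h4 : |R| ^ 2 = R ^ 2 := sq_abs R
    nlinarith [sq_nonneg (|R| - ‖v - R‖), mul_nonneg (sq_nonneg R) (sq_nonneg ‖v - R‖)]
  calc (1 + ‖v‖ ^ 2) ^ 3 ≤ (2 * (1 + R ^ 2) * (1 + ‖v - R‖ ^ 2)) ^ 3 := by gcongr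
    _ = _ := by ring

lemma gbm_good {R : ℝ} (hR : 1 ≤ R) :
    GoodData (1 / R) Cd (fun Z => (((1 + R ^ 2) ^ 3)⁻¹ : ℝ) * gbm R Z) := by
  have hR0 : 0 < R := by linarith
  refine ⟨?_, ?_, ?_⟩
  · unfold gbm; fun_prop
  · intro Z E
    unfold gbm
    apply DifferentiableAt.const_mul
    apply DifferentiableAt.cexp
    simp only [Prod.fst_add, Prod.snd_add, Prod.smul_fst, Prod.smul_snd, smul_eq_mul]
    fun_prop
  · intro y v Z hZ
    obtain ⟨a1, a2, a3, a4⟩ := comp_near hZ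
    unfold gbm om
    rw [norm_mul, Complex.norm_real, Real.norm_eq_abs, abs_of_pos (by positivity),
      Complex.norm_exp, Complex.neg_re, Complex.add_re]
    have h1 := re_pair_ge a1 a2
    have h2 := re_pair_ge (p := v - R) (P1 := Z.2.1 - R) (P2 := Z.2.2 - R)
      (by
        have : Z.2.1 - (R : ℂ) - (v - R) = Z.2.1 - v := by ring
        rw [this]; exact a3)
      (by
        have : Z.2.2 - (R : ℂ) - conj (v - R) = Z.2.2 - conj v := by simp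
        rw [this]; exact a4)
    set d := ‖v - R‖ with hd
    have hd0 : 0 ≤ d := norm_nonneg _
    have hP := P_pos v
    rw [mul_div_assoc', le_div_iff₀ (by positivity)]
    have h3 := cube_exp (sq_nonneg d)
    have hPv : P v ≤ 8 * (1 + R ^ 2) ^ 3 * (48 * Real.exp ((1 + d ^ 2) / 2)) :=
      (P_beam v).trans (by gcongr)
    have hv : ‖v‖ ≤ R + d := by
      calc ‖v‖ = ‖(v - R) + R‖ := by ring_nf
        _ ≤ ‖v - R‖ + ‖(R : ℂ)‖ := norm_add_le _ _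
        _ = R + d := by rw [Complex.norm_real, Real.norm_eq_abs, abs_of_pos hR0]; ring
    have h4 : Real.exp (1 / R * ‖v‖) ≤ Real.exp (1 + d) := by
      apply Real.exp_le_exp.2
      rw [one_div, inv_mul_le_iff₀ hR0]
      nlinarith
    have hRp : 0 < (1 + R ^ 2) ^ 3 := by positivity
    calc ((1 + R ^ 2) ^ 3)⁻¹ * Real.exp (-((Z.1.1 * Z.1.2).re +
            ((Z.2.1 - R) * (Z.2.2 - R)).re)) * (P v * Real.exp (1 / R * ‖v‖))
        ≤ ((1 + R ^ 2) ^ 3)⁻¹ * Real.exp (-((‖y‖ ^ 2 - 10 * ‖y‖ - 25) + (d ^ 2 - 10 * d - 25))) *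
          ((8 * (1 + R ^ 2) ^ 3 * (48 * Real.exp ((1 + d ^ 2) / 2))) * Real.exp (1 + d)) := by
          gcongr
      _ = (((1 + R ^ 2) ^ 3)⁻¹ * (1 + R ^ 2) ^ 3) * 384 *
          (Real.exp (-((‖y‖ ^ 2 - 10 * ‖y‖ - 25) + (d ^ 2 - 10 * d - 25))) *
          Real.exp ((1 + d ^ 2) / 2) * Real.exp (1 + d)) := by ring
      _ = 384 * Real.exp (-((‖y‖ ^ 2 - 10 * ‖y‖ - 25) + (d ^ 2 - 10 * d - 25)) +
          (1 + d ^ 2) / 2 + (1 + d)) := by
          rw [inv_mul_cancel₀ hRp.ne', one_mul,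
            Real.exp_add (-((‖y‖ ^ 2 - 10 * ‖y‖ - 25) + (d ^ 2 - 10 * d - 25)) +
              (1 + d ^ 2) / 2) (1 + d),
            Real.exp_add (-((‖y‖ ^ 2 - 10 * ‖y‖ - 25) + (d ^ 2 - 10 * d - 25)))]
      _ ≤ 384 * Real.exp (200 + -‖y‖ ^ 2 / 2) := by
          apply mul_le_mul_of_nonneg_left _ (by norm_num)
          apply Real.exp_le_exp.2
          nlinarith [sq_nonneg (‖y‖ - 10), sq_nonneg (d - 11)]
      _ = Cd * Real.exp (-‖y‖ ^ 2 / 2) := by rw [Real.exp_add]; unfold Cd; ring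

lemma GoodData.smul {κ N : ℝ} {g : Ph → ℂ} (h : GoodData κ N g) {ε : ℝ} (hε : 0 ≤ ε) :
    GoodData κ (ε * N) (fun Z => (ε : ℂ) * g Z) := by
  refine ⟨continuous_const.mul h.cont, ?_, ?_⟩
  · intro Z E
    exact (h.hol Z E).const_mul _
  · intro y v Z hZ
    rw [norm_mul, Complex.norm_real, Real.norm_eq_abs, abs_of_nonneg hε, mul_assoc]
    exact mul_le_mul_of_nonneg_left (h.bound y v Z hZ) hε

/-- the Maxwellian is annihilated by the collision operator -/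
lemma Del_gbk (ε : ℝ) (τ : ℝ) (Z : Ph) (p : ℂ × ℝ) :
    Del τ (fun Z => (ε : ℂ) * gbk Z) (fun Z => (ε : ℂ) * gbk Z) Z p = 0 := by
  obtain ⟨w, φ⟩ := p
  unfold Del
  simp only
  have key : ∀ u : ℂ, gbk (Z + Sh τ u) = gbk Z * Complex.exp (-(u * (τ * Z.1.2 - Z.2.2) +
      conj u * (τ * Z.1.1 - Z.2.1) + (τ ^ 2 + 1) * (u * conj u))) := by
    intro u
    unfold gbk Sh
    rw [← Complex.exp_add]
    congr 1
    simp only [Prod.fst_add, Prod.snd_add]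
    ring
  have hquad : aa φ * conj (aa φ) + (1 - aa φ) * conj (1 - aa φ) = 1 := by
    rw [Complex.mul_conj, Complex.mul_conj, Complex.normSq_eq_norm_sq, Complex.normSq_eq_norm_sq,
      norm_aa, norm_one_sub_aa, sq_abs, sq_abs]
    rw [← Complex.ofReal_add, Real.cos_sq_add_sin_sq, Complex.ofReal_one]
  rw [key, key, key]
  have h2 : Complex.exp (-(aa φ * w * (τ * Z.1.2 - Z.2.2) +
      conj (aa φ * w) * (τ * Z.1.1 - Z.2.1) + (τ ^ 2 + 1) * (aa φ * w * conj (aa φ * w)))) *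
      Complex.exp (-((1 - aa φ) * w * (τ * Z.1.2 - Z.2.2) +
      conj ((1 - aa φ) * w) * (τ * Z.1.1 - Z.2.1) +
        (τ ^ 2 + 1) * ((1 - aa φ) * w * conj ((1 - aa φ) * w)))) =
      Complex.exp (-(w * (τ * Z.1.2 - Z.2.2) +
      conj w * (τ * Z.1.1 - Z.2.1) + (τ ^ 2 + 1) * (w * conj w))) := by
    rw [← Complex.exp_add]
    congr 1
    simp only [map_mul, map_sub, map_one] at hquad ⊢
    linear_combination (-(τ ^ 2 + 1) * (w * conj w)) * hquad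
  linear_combination ((ε : ℂ) ^ 2 * gbk Z ^ 2) * h2

end BoltzDisp
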