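import Pool.Agent.MP_08d8de_an.Disp2.Bridge3
import Pool.Agent.MP_08d8de_an.Disp2.Data2
import Pool.Agent.MP_08d8de_an.Disp.Existence
import Pool.Agent.MP_08d8de_an.Disp.Positivity

/-! The counterexample, for all `s > 0`, `γ + 2 s ≥ 0`, `γ + 4 s < 1`. -/

set_option autoImplicit false

open MeasureTheory Set Filter Topology
open scoped Real ENNReal ComplexConjugate ContDiff

noncomputable section

namespace BoltzDisp

open Pool.Agent.Boltzmann2

variable {s γ c : ℝ} {b : ℝ → ℝ} {κ N : ℝ} {g : ℝ → Ph → ℂ} {g0 : Ph → ℂ}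

lemma Icc_sub_I0 {t : ℝ} (ht : t ∈ Icc (-1 : ℝ) 0) : t ∈ I0 :=
  ⟨by linarith [ht.1], by linarith [ht.2]⟩

theorem classical2 (hK : Kern s γ (kk b) (64 * c)) (hadm : Admissible s γ c b) (hκ : 0 < κ)
    (hg : Good κ N g)
    (heq : ∀ t ∈ Icc (-2 : ℝ) 1, ∀ Z ∈ tube (3 - t), g t Z = g0 Z + BC γ (kk b) g g t Z)
    (hreal : ∀ t ∈ Icc (-2 : ℝ) 1, ∀ y v, (g t (io y v)).im = 0)
    (hpos : ∀ t ∈ Icc (-2 : ℝ) 1, ∀ y v, 0 ≤ (g t (io y v)).re) :
    IsClassicalSolution γ b (fs g) := by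
  have hj : joint (fs g) = fun p : ℝ × ℂ × ℂ => fs g p.1 p.2.1 p.2.2 := rfl
  have hmeas : ∀ t ∈ Icc (-1 : ℝ) 0, ∀ x, Measurable (fs g t x) := by
    intro t ht x
    have h1 := (fs_smooth hK hκ hg heq 0).1.continuousOn
    have h2 : Continuous (fun v => fs g t x v) :=
      h1.comp_continuous (f := fun v : ℂ => ((t, x, v) : ℝ × ℂ × ℂ)) (by fun_prop)
        (fun v => Icc_sub_I0 ht)
    exact h2.measurable
  refine ⟨⟨U0, isOpen_U0, ?_, ?_⟩, ?_, ?_, ?_, ?_⟩
  · intro p hp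
    exact Icc_sub_I0 hp.1
  · rw [hj, contDiffOn_infty]
    intro n
    exact (fs_smooth hK hκ hg heq n).1
  · intro t ht x _ v
    exact hpos t ⟨by linarith [ht.1], by linarith [ht.2]⟩ _ _
  · intro n q
    obtain ⟨C, hC⟩ := fs_decay hK hκ hg heq n q
    refine ⟨C, fun t ht x _ v => ?_⟩
    rw [hj]
    exact hC (t, x, v) (Icc_sub_I0 ht)
  · intro t ht x _ v
    exact (bridge2 hadm (hmeas t ht x) v
      (fs_integrable hK hκ hg hreal (Icc_sub_I0 ht) x v)).1
  · intro t ht x _ v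
    rw [(bridge2 hadm (hmeas t ht x) v
      (fs_integrable hK hκ hg hreal (Icc_sub_I0 ht) x v)).2]
    exact fs_equation hK hκ hg heq hreal (Icc_sub_I0 ht) x v

/-! ### Integrability of the weights -/

lemma rpow_neg_nat (x : ℝ) (hx : 0 ≤ x) (n : ℕ) : (1 + x) ^ (-(n : ℝ)) = ((1 + x) ^ n)⁻¹ := by
  rw [Real.rpow_neg (by positivity), Real.rpow_natCast]

lemma invP_integrable : Integrable (fun v : ℂ => 1 / P v) := by
  have h1 := integrable_one_add_norm (E := ℂ) (μ := volume) (r := (6 : ℕ)) (by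
    rw [Complex.finrank_real_complex]; norm_num)
  refine (h1.const_mul 8).mono' ?_ (Eventually.of_forall fun v => ?_)
  · exact (continuous_const.div continuous_P (fun v => (P_pos v).ne')).aestronglyMeasurable
  · have hP := P_pos v
    rw [Real.norm_eq_abs, abs_of_pos (by positivity), rpow_neg_nat _ (norm_nonneg v),
      div_le_iff₀ hP]
    have h2 := sq_le_P_aux v
    have h3 : 0 < (1 + ‖v‖) ^ 6 := by positivity
    rw [mul_assoc, inv_mul_eq_div, mul_div_assoc', le_div_iff₀ h3]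
    linarith

lemma sqP_integrable : Integrable (fun v : ℂ => 1 / P v * ‖v‖ ^ 2) := by
  have h1 := integrable_one_add_norm (E := ℂ) (μ := volume) (r := (4 : ℕ)) (by
    rw [Complex.finrank_real_complex]; norm_num)
  refine (h1.const_mul 8).mono' ?_ (Eventually.of_forall fun v => ?_)
  · exact ((continuous_const.div continuous_P (fun v => (P_pos v).ne')).mul
      (by fun_prop)).aestronglyMeasurable
  · have hP := P_pos v
    rw [Real.norm_eq_abs, abs_of_nonneg (by positivity), rpow_neg_nat _ (norm_nonneg v),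
      one_div, inv_mul_le_iff₀ hP]
    have h2 := sq_le_P_aux v
    have h3 : 0 < (1 + ‖v‖) ^ 4 := by positivity
    have h4 : P v * (8 * ((1 + ‖v‖) ^ 4)⁻¹) = 8 * P v / (1 + ‖v‖) ^ 4 := by
      field_simp
    rw [h4, le_div_iff₀ h3]
    have h5 : ‖v‖ ^ 2 ≤ (1 + ‖v‖) ^ 2 := by
      apply pow_le_pow_left₀ (norm_nonneg v); linarith
    calc ‖v‖ ^ 2 * (1 + ‖v‖) ^ 4 ≤ (1 + ‖v‖) ^ 2 * (1 + ‖v‖) ^ 4 := by gcongr
      _ = (1 + ‖v‖) ^ 6 := by ring
      _ ≤ 8 * P v := h2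

lemma om_le_P (hκ : 0 ≤ κ) (y v : ℂ) : om κ y v ≤ Real.exp (-‖y‖ ^ 2 / 2) * (1 / P v) := by
  unfold om
  have hP := P_pos v
  have h1 : 1 ≤ Real.exp (κ * ‖v‖) := Real.one_le_exp (by positivity)
  rw [div_le_iff₀ (by positivity)]
  have h2 : Real.exp (-‖y‖ ^ 2 / 2) * (1 / P v) * (P v * Real.exp (κ * ‖v‖)) =
      Real.exp (-‖y‖ ^ 2 / 2) * Real.exp (κ * ‖v‖) := by field_simp
  rw [h2]
  have := Real.exp_pos (-‖y‖ ^ 2 / 2)
  nlinarith

lemma exp_sq_le_one (y : ℂ) : Real.exp (-‖y‖ ^ 2 / 2) ≤ 1 := by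
  rw [Real.exp_le_one_iff]
  have := sq_nonneg ‖y‖
  linarith

lemma invP_le_one (v : ℂ) : 1 / P v ≤ 1 := by
  rw [div_le_one (P_pos v)]; exact one_le_P v

lemma estimateN_of_interior {k : ℕ} {q : ℝ} (h : InteriorEstimate γ b k q) :
    InteriorEstimateN γ b k q := by
  intro m₀ M₀ E₀ H₀ hm N
  obtain ⟨C, hC⟩ := h m₀ M₀ E₀ H₀ hm N
  exact ⟨C, fun f h1 h2 h3 => hC f h1 h2 (fun _ => h3)⟩

/-- **Main theorem.** -/
theorem not_interior2 (hγs : γ + 4 * s < 1)
    (hadm : Admissible s γ c b) {q : ℝ} (hq : 6 < q) : ¬ InteriorEstimateN γ b 0 q := by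
  have hK := kern_kk hadm hγs
  obtain ⟨C0, hC0, hE⟩ := existence s γ (kk b) (64 * c) hK
  have hA := Cd_pos
  set A := Cd with hAdef
  set D := 4 * C0 * A ^ 2 + 3 * A + 2 * C0 * A + 1 with hD
  have hD0 : 0 < D := by positivity
  set ε := Real.exp (-5) / D with hε
  have he5 : 0 < Real.exp (-5 : ℝ) := Real.exp_pos _
  have he5' : Real.exp (-5 : ℝ) ≤ 1 := Real.exp_le_one_iff.2 (by norm_num)
  have hε0 : 0 < ε := by positivity
  have hεD : ε * D = Real.exp (-5) := by rw [hε]; field_simp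
  have c1 : 4 * C0 * A ^ 2 * ε ≤ Real.exp (-5) := by
    have : 4 * C0 * A ^ 2 ≤ D := by
      have : 0 ≤ 3 * A + 2 * C0 * A + 1 := by positivity
      linarith
    nlinarith
  have c2 : 3 * A * ε ≤ 1 := by
    have : 3 * A ≤ D := by
      have : 0 ≤ 4 * C0 * A ^ 2 + 2 * C0 * A + 1 := by positivity
      linarith
    nlinarith
  have c3 : 2 * C0 * A * ε ≤ 1 := by
    have : 2 * C0 * A ≤ D := by
      have : 0 ≤ 4 * C0 * A ^ 2 + 3 * A + 1 := by positivity
      linarith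
    nlinarith
  set δ := C0 * (ε * A + ε * A) * (ε * A) with hδ
  have hδ0 : 0 ≤ δ := by positivity
  have hδ1 : δ ≤ ε * Real.exp (-5) / 2 := by
    have h1 : δ = ε * (4 * C0 * A ^ 2 * ε) / 2 := by rw [hδ]; ring
    rw [h1]
    have := mul_le_mul_of_nonneg_left c1 hε0.le
    linarith
  have hδ2 : δ ≤ ε / 2 := by nlinarith
  -- bounds for `N_r`
  have hNR : ∀ r : ℝ, ∃ n : ℝ, ∀ x : ℂ, ‖x‖ < 1 → ∀ v : ℂ,
      (1 + ‖v‖) ^ r * Real.exp (-‖x + v‖ ^ 2 / 2) ≤ n := by
    intro r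
    obtain ⟨C, hC0, hC⟩ := poly_exp_le one_pos ⌈r⌉₊
    refine ⟨C * Real.exp (3 / 2), fun x hx v => ?_⟩
    have h1 : (1 + ‖v‖) ^ r ≤ (1 + ‖v‖) ^ ⌈r⌉₊ := by
      rw [← Real.rpow_natCast]
      exact Real.rpow_le_rpow_of_exponent_le (by linarith [norm_nonneg v]) (Nat.le_ceil r)
    have h2 : ‖v‖ - 1 ≤ ‖x + v‖ := by
      have : ‖v‖ ≤ ‖x + v‖ + ‖x‖ := by
        calc ‖v‖ = ‖(x + v) - x‖ := by ring_nf
          _ ≤ _ := norm_sub_le _ _
      linarith
    have h3 : Real.exp (-‖x + v‖ ^ 2 / 2) ≤ Real.exp (-(1 * ‖v‖)) * Real.exp (3 / 2) := by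
      rw [← Real.exp_add]
      apply Real.exp_le_exp.2
      nlinarith [sq_nonneg (‖x + v‖ - 1)]
    calc _ ≤ (1 + ‖v‖) ^ ⌈r⌉₊ * (Real.exp (-(1 * ‖v‖)) * Real.exp (3 / 2)) := by gcongr
      _ = ((1 + ‖v‖) ^ ⌈r⌉₊ * Real.exp (-(1 * ‖v‖))) * Real.exp (3 / 2) := by ring
      _ ≤ _ := mul_le_mul_of_nonneg_right (hC _ (norm_nonneg v)) (Real.exp_pos _).le
  choose NN hNN using hNR
  intro hInt
  obtain ⟨Ct, hCt⟩ := hInt (ε * Real.exp (-5) / 2 * π) (∫ v : ℂ, 1 / P v)
    (∫ v : ℂ, 1 / P v * ‖v‖ ^ 2) 0 (by positivity) NN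
  have key : ∀ R : ℝ, 1 ≤ R → R ^ (q - 6) * (ε / 16) ≤ Ct := by
    intro R hR
    have hR0 : 0 < R := by linarith
    set κ := 1 / R with hκ
    have hκ0 : 0 < κ := by positivity
    have hκ1 : κ ≤ 1 := by rw [hκ, div_le_one hR0]; exact hR
    set gb : Ph → ℂ := fun Z => (ε : ℂ) * gbk Z with hgb
    set h0 : Ph → ℂ := fun Z => (ε : ℂ) * ((((1 + R ^ 2) ^ 3)⁻¹ : ℝ) * gbm R Z) with hh0
    have hgbG : GoodData κ (ε * A) gb := (gbk_good hκ1).smul hε0.le
    have hh0G : GoodData κ (ε * A) h0 := (gbm_good hR).smul hε0.le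
    have hgbio : ∀ y v, gb (io y v) = ((ε * Real.exp (-(‖y‖ ^ 2 + ‖v‖ ^ 2)) : ℝ) : ℂ) := by
      intro y v
      rw [hgb]
      simp only [gbk_io]
      push_cast
      rfl
    have hh0io : ∀ y v, h0 (io y v) =
        ((ε * (((1 + R ^ 2) ^ 3)⁻¹ * Real.exp (-(‖y‖ ^ 2 + ‖v - R‖ ^ 2))) : ℝ) : ℂ) := by
      intro y v
      rw [hh0]
      simp only [gbm_io]
      push_cast
      rfl
    obtain ⟨g, hg, heq, hreal, hclose⟩ := hE κ (ε * A) (ε * A) gb h0 hκ0.le hκ1
      (by positivity) (by positivity) hgbG hh0G (fun τ Z p => Del_gbk ε τ Z p)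
      (fun y v => by rw [hgbio]; exact Complex.ofReal_im _)
      (fun y v => by rw [hh0io]; exact Complex.ofReal_im _)
      (by linarith [c3])
    have hN0 : 0 ≤ ε * A + 2 * (ε * A) := by positivity
    have hN1 : ε * A + 2 * (ε * A) ≤ 1 := by linarith [c2]
    have hpos : ∀ t ∈ Icc (-2 : ℝ) 1, ∀ y v, 0 ≤ (g t (io y v)).re := by
      apply positivity_statement s γ (kk b) (64 * c) hK κ _ g (fun Z => gb Z + h0 Z) hκ0 hκ1
        hN0 hg heq hreal
      intro y v
      rw [Complex.add_re, hgbio, hh0io, Complex.ofReal_re, Complex.ofReal_re]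
      positivity
    have hcl : IsClassicalSolution γ b (fs g) :=
      classical2 hK hadm hκ0 hg heq hreal hpos
    have hI : ∀ {t : ℝ}, t ∈ Icc (-1 : ℝ) 0 → t ∈ Icc (-2 : ℝ) 1 := fun ht =>
      ⟨by linarith [ht.1], by linarith [ht.2]⟩
    have hio0 : ∀ {t : ℝ}, t ∈ Icc (-1 : ℝ) 0 → ∀ y v : ℂ, ‖io y v - io y v‖ < 3 - t := by
      intro t ht y v
      rw [sub_self, norm_zero]
      linarith [ht.2]
    have hf0 : ∀ t ∈ Icc (-1 : ℝ) 0, ∀ x v : ℂ, 0 ≤ fs g t x v := fun t ht x v =>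
      hpos t (hI ht) _ _
    have hup : ∀ t ∈ Icc (-1 : ℝ) 0, ∀ x v : ℂ,
        fs g t x v ≤ Real.exp (-‖x - t * v‖ ^ 2 / 2) * (1 / P v) := by
      intro t ht x v
      have h1 := hg.bound t (hI ht) (x - t * v) v _ (hio0 ht _ _)
      have h2 : fs g t x v ≤ ‖g t (io (x - t * v) v)‖ := Complex.re_le_norm _
      have h3 := om_nonneg κ (x - t * v) v
      have h4 := om_le_P hκ0.le (x - t * v) v
      calc fs g t x v ≤ _ := h2
        _ ≤ _ := h1
        _ ≤ 1 * om κ (x - t * v) v := mul_le_mul_of_nonneg_right hN1 h3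
        _ ≤ _ := by rw [one_mul]; exact h4
    have hup' : ∀ t ∈ Icc (-1 : ℝ) 0, ∀ x v : ℂ, fs g t x v ≤ 1 / P v := by
      intro t ht x v
      refine (hup t ht x v).trans ?_
      have := exp_sq_le_one (x - t * v)
      have hP := P_pos v
      exact mul_le_of_le_one_left (by positivity) this
    have hlow : ∀ t ∈ Icc (-1 : ℝ) 0, ∀ x v : ℂ,
        ε * Real.exp (-(‖x - t * v‖ ^ 2 + ‖v‖ ^ 2)) +
        ε * (((1 + R ^ 2) ^ 3)⁻¹ * Real.exp (-(‖x - t * v‖ ^ 2 + ‖v - R‖ ^ 2))) -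
        δ * om κ (x - t * v) v ≤ fs g t x v := by
      intro t ht x v
      have h1 := hclose t (hI ht) (x - t * v) v _ (hio0 ht _ _)
      have h2 := (abs_le.1 ((Complex.abs_re_le_norm _).trans h1)).1
      rw [Complex.sub_re, Complex.add_re, hgbio, hh0io, Complex.ofReal_re, Complex.ofReal_re] at h2
      have h3 : (g t (io (x - t * v) v)).re = fs g t x v := rfl
      rw [h3] at h2
      linarith
    have hcontf : ∀ t ∈ Icc (-1 : ℝ) 0, ∀ x, Continuous (fun v => fs g t x v) := by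
      intro t ht x
      have h1 := (fs_smooth hK hκ0 hg heq 0).1.continuousOn
      exact h1.comp_continuous (f := fun v : ℂ => ((t, x, v) : ℝ × ℂ × ℂ)) (by fun_prop)
        (fun v => Icc_sub_I0 ht)
    have hfint : ∀ t ∈ Icc (-1 : ℝ) 0, ∀ x, Integrable (fun v => fs g t x v) := by
      intro t ht x
      refine invP_integrable.mono' (hcontf t ht x).aestronglyMeasurable
        (Eventually.of_forall fun v => ?_)
      rw [Real.norm_eq_abs, abs_of_nonneg (hf0 t ht x v)]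
      exact hup' t ht x v
    have hhydro : HydroBounds (ε * Real.exp (-5) / 2 * π) (∫ v : ℂ, 1 / P v)
        (∫ v : ℂ, 1 / P v * ‖v‖ ^ 2) 0 (fs g) := by
      intro t ht x hx
      have ht' : t ∈ Icc (-1 : ℝ) 0 := ⟨ht.1.le, ht.2⟩
      rw [Metric.mem_ball, dist_zero_right] at hx
      refine ⟨?_, ?_, ?_, ?_⟩
      · have h1 : ∀ v ∈ Metric.ball (0 : ℂ) 1, ε * Real.exp (-5) / 2 ≤ fs g t x v := by
          intro v hv
          have hv1 : ‖v‖ < 1 := by rwa [Metric.mem_ball, dist_zero_right] at hv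
          have h2 := hlow t ht' x v
          have hy : ‖x - t * v‖ ≤ 2 := by
            refine (norm_sub_le _ _).trans ?_
            rw [norm_mul, Complex.norm_real, Real.norm_eq_abs]
            have : |t| ≤ 1 := abs_le.2 ⟨by linarith [ht.1], by linarith [ht.2]⟩
            nlinarith [norm_nonneg v, abs_nonneg t]
          have h3 : Real.exp (-5) ≤ Real.exp (-(‖x - t * v‖ ^ 2 + ‖v‖ ^ 2)) := by
            apply Real.exp_le_exp.2
            nlinarith [norm_nonneg v, norm_nonneg (x - t * v)]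
          have h4 : om κ (x - t * v) v ≤ 1 := by
            refine (om_le_P hκ0.le _ _).trans ?_
            have hP := P_pos v
            exact mul_le_one₀ (exp_sq_le_one _) (by positivity) (invP_le_one v)
          have h5 : 0 ≤ ε * (((1 + R ^ 2) ^ 3)⁻¹ *
            Real.exp (-(‖x - t * v‖ ^ 2 + ‖v - R‖ ^ 2))) := by positivity
          have h6 := mul_le_mul_of_nonneg_left h3 hε0.le
          have h7 := mul_le_mul_of_nonneg_left h4 hδ0
          linarith
        have h2 : ∫ _ in Metric.ball (0 : ℂ) 1, ε * Real.exp (-5) / 2 ≤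
            ∫ v in Metric.ball (0 : ℂ) 1, fs g t x v := by
          apply setIntegral_mono_on _ (hfint t ht' x).integrableOn measurableSet_ball h1
          exact integrableOn_const (by
            rw [Complex.volume_ball]
            simp) (by simp)
        have h3 : ∫ _ in Metric.ball (0 : ℂ) 1, ε * Real.exp (-5) / 2 =
            ε * Real.exp (-5) / 2 * π := by
          rw [setIntegral_const, Measure.real, Complex.volume_ball]
          simp
          ring
        have h4 : ∫ v in Metric.ball (0 : ℂ) 1, fs g t x v ≤ ∫ v, fs g t x v :=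
          setIntegral_le_integral (hfint t ht' x) (Eventually.of_forall fun v => hf0 t ht' x v)
        linarith
      · exact integral_mono (hfint t ht' x) invP_integrable (fun v => hup' t ht' x v)
      · apply integral_mono_of_nonneg
        · exact Eventually.of_forall fun v => mul_nonneg (hf0 t ht' x v) (by positivity)
        · exact sqP_integrable
        · exact Eventually.of_forall fun v =>
            mul_le_mul_of_nonneg_right (hup' t ht' x v) (by positivity)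
      · apply integral_nonpos
        intro v
        apply mul_nonpos_of_nonneg_of_nonpos (hf0 t ht' x v)
        exact Real.log_nonpos (hf0 t ht' x v) ((hup' t ht' x v).trans (invP_le_one v))
    have hN : ∀ r, 0 ≤ r → ∀ x ∈ Metric.ball (0 : ℂ) 1, ∀ v,
        (1 + ‖v‖) ^ r * fs g (-1) x v ≤ NN r := by
      intro r _ x hx v
      rw [Metric.mem_ball, dist_zero_right] at hx
      have h1 := hup (-1) ⟨le_rfl, by norm_num⟩ x v
      have h2 : x - ((-1 : ℝ) : ℂ) * v = x + v := by push_cast; ring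
      rw [h2] at h1
      have h3 : Real.exp (-‖x + v‖ ^ 2 / 2) * (1 / P v) ≤ Real.exp (-‖x + v‖ ^ 2 / 2) :=
        mul_le_of_le_one_right (Real.exp_pos _).le (invP_le_one v)
      refine le_trans ?_ (hNN r x hx v)
      exact mul_le_mul_of_nonneg_left (h1.trans h3) (by positivity)
    have hest := hCt (fs g) hcl hhydro hN 0 ⟨by norm_num, le_rfl⟩ 0 (by simp) (R : ℂ)
    rw [norm_iteratedFDeriv_zero] at hest
    have hRP : 0 < (1 + R ^ 2) ^ 3 := by positivity
    have hval : ε / 2 * ((1 + R ^ 2) ^ 3)⁻¹ ≤ fs g 0 0 (R : ℂ) := by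
      have h1 := hlow 0 ⟨by norm_num, le_rfl⟩ 0 (R : ℂ)
      have h2 : (0 : ℂ) - ((0 : ℝ) : ℂ) * (R : ℂ) = 0 := by simp
      rw [h2] at h1
      simp only [sub_self, norm_zero] at h1
      have h3 : Real.exp (-(0 ^ 2 + 0 ^ 2)) = (1 : ℝ) := by norm_num
      rw [h3, mul_one] at h1
      have h4 : om κ 0 (R : ℂ) ≤ ((1 + R ^ 2) ^ 3)⁻¹ := by
        refine (om_le_P hκ0.le _ _).trans ?_
        have h5 : P (R : ℂ) = (1 + R ^ 2) ^ 3 := by
          unfold P
          rw [Complex.norm_real, Real.norm_eq_abs, sq_abs]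
        rw [h5, one_div]
        exact mul_le_of_le_one_left (by positivity) (exp_sq_le_one _)
      have h5 : 0 ≤ ε * Real.exp (-(0 ^ 2 + ‖(R : ℂ)‖ ^ 2)) := by positivity
      have h6 := mul_le_mul_of_nonneg_left h4 hδ0
      have h7 : δ * ((1 + R ^ 2) ^ 3)⁻¹ ≤ ε / 2 * ((1 + R ^ 2) ^ 3)⁻¹ :=
        mul_le_mul_of_nonneg_right hδ2 (by positivity)
      have h8 : ε * ((1 + R ^ 2) ^ 3)⁻¹ =
          ε / 2 * ((1 + R ^ 2) ^ 3)⁻¹ + ε / 2 * ((1 + R ^ 2) ^ 3)⁻¹ := by ring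
      rw [h8] at h1
      generalize ε / 2 * ((1 + R ^ 2) ^ 3)⁻¹ = X at *
      generalize δ * ((1 + R ^ 2) ^ 3)⁻¹ = Y at *
      generalize δ * om κ 0 (R : ℂ) = W at *
      linarith
    have hval0 : 0 ≤ fs g 0 0 (R : ℂ) := by
      refine le_trans ?_ hval
      positivity
    have hj : ‖joint (fs g) (0, 0, (R : ℂ))‖ = fs g 0 0 (R : ℂ) := by
      show ‖fs g 0 0 (R : ℂ)‖ = _
      rw [Real.norm_eq_abs, abs_of_nonneg hval0]
    rw [hj, Complex.norm_real, Real.norm_eq_abs, abs_of_pos hR0] at hest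
    have hinv : 1 / (8 * R ^ 6) ≤ ((1 + R ^ 2) ^ 3)⁻¹ := by
      rw [one_div]
      apply inv_anti₀ hRP
      calc (1 + R ^ 2) ^ 3 ≤ (2 * R ^ 2) ^ 3 := by
            gcongr
            nlinarith
        _ = 8 * R ^ 6 := by ring
    calc R ^ (q - 6) * (ε / 16) = R ^ q * (ε / 2 * (1 / (8 * R ^ 6))) := by
          rw [Real.rpow_sub hR0]
          have : R ^ (6 : ℝ) = R ^ 6 := by norm_cast
          rw [this]
          field_simp
          norm_num
      _ ≤ (1 + R) ^ q * (ε / 2 * ((1 + R ^ 2) ^ 3)⁻¹) := by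
          apply mul_le_mul _ _ (by positivity) (by positivity)
          · exact Real.rpow_le_rpow hR0.le (by linarith) (by linarith)
          · exact mul_le_mul_of_nonneg_left hinv (by positivity)
      _ ≤ (1 + R) ^ q * fs g 0 0 (R : ℂ) := by
          apply mul_le_mul_of_nonneg_left hval (by positivity)
      _ ≤ Ct := hest
  have htend : Tendsto (fun R : ℝ => R ^ (q - 6) * (ε / 16)) atTop atTop :=
    (tendsto_rpow_atTop (by linarith)).atTop_mul_const (by positivity)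
  obtain ⟨R, hR1, hR2⟩ := ((htend.eventually_gt_atTop Ct).and (eventually_ge_atTop 1)).exists
  exact absurd (key R hR2) (not_le.2 hR1)

/-- The model kernel is admissible. -/
theorem model_admissible2 (hs0 : 0 < s) (hγ : 0 ≤ γ + 2 * s) (hγs : γ + 4 * s < 1) :
    Admissible s γ 1 (fun x => ((1 - x) / 2) ^ (-(1 / 2 : ℝ) - s)) := by
  refine ⟨hs0, by linarith, by linarith, hγ, by linarith, le_rfl, by fun_prop, ?_⟩
  intro θ _
  have h1 : (1 - Real.cos θ) / 2 = |Real.sin (θ / 2)| ^ 2 := by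
    rw [sq_abs, Real.sin_sq_eq_half_sub]
    ring_nf
  have h2 : ((1 - Real.cos θ) / 2) ^ (-(1 / 2 : ℝ) - s) =
      |Real.sin (θ / 2)| ^ (-(1 : ℝ) - 2 * s) := by
    rw [h1, ← Real.rpow_natCast, ← Real.rpow_mul (abs_nonneg _)]
    congr 1
    push_cast; ring
  simp only [inv_one, one_mul]
  rw [h2]
  exact ⟨le_rfl, le_rfl⟩

end BoltzDisp
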