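import Pool.Agent.MP_08d8de_an.Disp2.Smooth2

/-!
Solutions in characteristic variables (class `Good`) give smooth solutions in `(t, x, v)`.
-/

set_option autoImplicit false

open MeasureTheory Complex Set Filter Topology Metric
open scoped ENNReal ComplexConjugate ContDiff

namespace BoltzDisp

variable {κ N : ℝ} {g : ℝ → Ph → ℂ} {g0 : Ph → ℂ} {s γ Ck : ℝ} {k : ℝ → ℝ}

/-- `(X, V) ↦ (X - t V, V)` -/
noncomputable def Tm (t : ℝ) (Z : Ph) : Ph := (Z.1 - (t : ℂ) • Z.2, Z.2)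

/-- `(Y, V) ↦ (Y + t V, V)` -/
noncomputable def Tp (t : ℝ) (Z : Ph) : Ph := (Z.1 + (t : ℂ) • Z.2, Z.2)

lemma Tm_Tp (t : ℝ) (Z : Ph) : Tm t (Tp t Z) = Z := by
  unfold Tm Tp; ext <;> simp

lemma Tm_add_smul (t : ℝ) (Z E : Ph) (ζ : ℂ) : Tm t (Z + ζ • E) = Tm t Z + ζ • Tm t E := by
  unfold Tm; ext <;> simp <;> ring

lemma Tm_sub (t : ℝ) (Z W : Ph) : Tm t Z - Tm t W = Tm t (Z - W) := by
  unfold Tm; ext <;> simp <;> ring

lemma Tp_sub (t : ℝ) (Z W : Ph) : Tp t Z - Tp t W = Tp t (Z - W) := by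
  unfold Tp; ext <;> simp <;> ring

lemma Tm_Sh (t : ℝ) (Z : Ph) (u : ℂ) : Tm t (Z + Sh 0 u) = Tm t Z + Sh t u := by
  unfold Tm Sh; ext <;> simp <;> ring

lemma Tm_io (t : ℝ) (x v : ℂ) : Tm t (io x v) = io (x - t * v) v := by
  unfold Tm io; ext <;> simp

lemma Tp_io (t : ℝ) (x v : ℂ) : Tp t (io x v) = io (x + t * v) v := by
  unfold Tp io; ext <;> simp

lemma norm_Tm {t : ℝ} (ht : |t| ≤ 2) (Z : Ph) : ‖Tm t Z‖ ≤ 3 * ‖Z‖ := by
  have h1 : ‖Z.1‖ ≤ ‖Z‖ := norm_fst_le Z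
  have h2 : ‖Z.2‖ ≤ ‖Z‖ := norm_snd_le Z
  have h3 : ‖(t : ℂ) • Z.2‖ ≤ 2 * ‖Z.2‖ := by
    rw [norm_smul, Complex.norm_real, Real.norm_eq_abs]
    exact mul_le_mul_of_nonneg_right ht (norm_nonneg _)
  unfold Tm
  rw [Prod.norm_def]
  apply max_le
  · refine (norm_sub_le _ _).trans ?_
    linarith
  · simp only; linarith [norm_nonneg Z]

lemma norm_Tp {t : ℝ} (ht : |t| ≤ 2) (Z : Ph) : ‖Tp t Z‖ ≤ 3 * ‖Z‖ := by
  have h1 : ‖Z.1‖ ≤ ‖Z‖ := norm_fst_le Z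
  have h2 : ‖Z.2‖ ≤ ‖Z‖ := norm_snd_le Z
  have h3 : ‖(t : ℂ) • Z.2‖ ≤ 2 * ‖Z.2‖ := by
    rw [norm_smul, Complex.norm_real, Real.norm_eq_abs]
    exact mul_le_mul_of_nonneg_right ht (norm_nonneg _)
  unfold Tp
  rw [Prod.norm_def]
  apply max_le
  · refine (norm_add_le _ _).trans ?_
    linarith
  · simp only; linarith [norm_nonneg Z]

lemma abs_le_two2 {t : ℝ} (ht : t ∈ I0) : |t| ≤ 2 := by
  rw [abs_le]; constructor <;> linarith [ht.1, ht.2]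

lemma near_Tm {t : ℝ} (ht : t ∈ I0) {r : ℝ} {Z : Ph} {x v : ℂ} (hZ : ‖Z - io x v‖ < r) :
    ‖Tm t Z - io (x - t * v) v‖ < 3 * r := by
  rw [← Tm_io, Tm_sub]
  exact (norm_Tm (abs_le_two2 ht) _).trans_lt (by linarith)

lemma near_Tp {t : ℝ} (ht : t ∈ I0) {r : ℝ} {Z : Ph} {x v : ℂ} (hZ : ‖Z - io x v‖ < r) :
    ‖Tp t Z - io (x + t * v) v‖ < 3 * r := by
  rw [← Tp_io, Tp_sub]
  exact (norm_Tp (abs_le_two2 ht) _).trans_lt (by linarith)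

lemma tube_Tm {t : ℝ} (ht : t ∈ I0) {r : ℝ} {Z : Ph} (hZ : Z ∈ tube r) : Tm t Z ∈ tube (3 * r) := by
  obtain ⟨x, v, hZ⟩ := hZ
  exact ⟨_, _, near_Tm ht hZ⟩

lemma tube_Tp {t : ℝ} (ht : t ∈ I0) {r : ℝ} {Z : Ph} (hZ : Z ∈ tube r) : Tp t Z ∈ tube (3 * r) := by
  obtain ⟨x, v, hZ⟩ := hZ
  exact ⟨_, _, near_Tp ht hZ⟩

lemma continuous_Tm : Continuous (fun q : ℝ × Ph => Tm q.1 q.2) := by
  unfold Tm; fun_prop

lemma continuous_Tp : Continuous (fun q : ℝ × Ph => Tp q.1 q.2) := by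
  unfold Tp; fun_prop

lemma om_le_exp (κ : ℝ) (y v : ℂ) : om κ y v ≤ Real.exp (-(κ * ‖v‖)) := by
  unfold om
  rw [Real.exp_neg, div_le_iff₀ (mul_pos (P_pos v) (Real.exp_pos _))]
  have h1 : Real.exp (-‖y‖ ^ 2 / 2) ≤ 1 := by
    rw [Real.exp_le_one_iff]
    have := sq_nonneg ‖y‖
    linarith
  have h2 := one_le_P v
  have h3 := Real.exp_pos (κ * ‖v‖)
  have h4 : (Real.exp (κ * ‖v‖))⁻¹ * (P v * Real.exp (κ * ‖v‖)) = P v := by
    field_simp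
  rw [h4]
  linarith

lemma om_nonneg (κ : ℝ) (y v : ℂ) : 0 ≤ om κ y v := by
  unfold om
  have := P_pos v
  positivity

/-- the solution in the variables `(t, x, v)` -/
noncomputable def Fg (g : ℝ → Ph → ℂ) (t : ℝ) (Z : Ph) : ℂ := g t (Tm t Z)

lemma Good.nonneg (hg : Good κ N g) : 0 ≤ N := by
  have h1 := hg.bound 0 ⟨by norm_num, by norm_num⟩ 0 0 (io 0 0) (by simp)
  have h2 : 0 < om κ 0 0 := by
    unfold om
    have := P_pos 0
    positivity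
  have h3 := (norm_nonneg _).trans h1
  exact nonneg_of_mul_nonneg_left h3 h2

lemma Good.clW (hκ : 0 < κ) (hg : Good κ N g) : ClW 2 κ N g := by
  have hI : ∀ {t : ℝ}, t ∈ I0 → t ∈ Icc (-2 : ℝ) 1 := fun ht => ⟨ht.1.le, ht.2.le⟩
  have hT : ∀ {t : ℝ}, t ∈ I0 → (2 : ℝ) ≤ 3 - t := fun ht => by linarith [ht.2]
  refine ⟨by norm_num, hκ, hg.nonneg, ?_, ?_, ?_⟩
  · apply hg.cont.mono
    intro q hq
    exact ⟨hI hq.1, tube_mono2 (hT hq.1) hq.2⟩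
  · intro t ht Z hZ E
    exact hg.hol t (hI ht) Z (tube_mono2 (hT ht) hZ) E
  · intro t ht x v Z hZ
    refine (hg.bound t (hI ht) x v Z (hZ.trans_le (hT ht))).trans ?_
    exact mul_le_mul_of_nonneg_left (om_le_exp κ x v) hg.nonneg

lemma Good.clW' (hκ : 0 < κ) (hg : Good κ N g) : ClW (1 / 2) κ N (Fg g) := by
  have h := hg.clW hκ
  refine ⟨by norm_num, hκ, hg.nonneg, ?_, ?_, ?_⟩
  · apply h.cont.comp (f := fun q : ℝ × Ph => ((q.1, Tm q.1 q.2) : ℝ × Ph))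
    · exact (continuous_fst.prodMk continuous_Tm).continuousOn
    · intro q hq
      exact ⟨hq.1, tube_mono2 (by norm_num) (tube_Tm hq.1 hq.2)⟩
  · intro t ht Z hZ E
    have h1 : (fun ζ : ℂ => Fg g t (Z + ζ • E)) = fun ζ => g t (Tm t Z + ζ • Tm t E) := by
      ext ζ; unfold Fg; rw [Tm_add_smul]
    rw [h1]
    exact h.hol t ht _ (tube_mono2 (by norm_num) (tube_Tm ht hZ)) _
  · intro t ht x v Z hZ
    exact h.bound t ht _ v _ ((near_Tm ht hZ).trans_le (by norm_num))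

lemma Del_Tm (t : ℝ) (f h : Ph → ℂ) (Z : Ph) (p : ℂ × ℝ) :
    Del t f h (Tm t Z) p = Del 0 (fun W => f (Tm t W)) (fun W => h (Tm t W)) Z p := by
  unfold Del
  simp only [Tm_Sh]

lemma QC_Tm (t : ℝ) (Z : Ph) :
    QC γ k t (g t) (g t) (Tm t Z) = QF γ k (Fg g) (Fg g) t Z := by
  unfold QF QC Fg
  simp only [Del_Tm]

lemma QC_eq2 (t : ℝ) (Z : Ph) :
    QC γ k t (g t) (g t) Z = QF γ k (Fg g) (Fg g) t (Tp t Z) := by
  rw [← QC_Tm, Tm_Tp]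

lemma QC_cont (hK : Kern s γ k Ck) (hκ : 0 < κ) (hg : Good κ N g) :
    ContinuousOn (fun q : ℝ × Ph => QC γ k q.1 (g q.1) (g q.1) q.2) (I0 ×ˢ tube (1 / 12)) := by
  have h := ClW.QF hK (hg.clW' hκ) (hg.clW' hκ)
  have h1 : (fun q : ℝ × Ph => QC γ k q.1 (g q.1) (g q.1) q.2) =
      fun q => QF γ k (Fg g) (Fg g) q.1 (Tp q.1 q.2) := by
    ext q; exact QC_eq2 _ _
  rw [h1]
  apply h.cont.comp (f := fun q : ℝ × Ph => ((q.1, Tp q.1 q.2) : ℝ × Ph))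
  · exact (continuous_fst.prodMk continuous_Tp).continuousOn
  · intro q hq
    exact ⟨hq.1, tube_mono2 (by norm_num) (tube_Tp hq.1 hq.2)⟩

lemma g_deriv (hK : Kern s γ k Ck) (hκ : 0 < κ) (hg : Good κ N g)
    (heq : ∀ t ∈ Icc (-2 : ℝ) 1, ∀ Z ∈ tube (3 - t), g t Z = g0 Z + BC γ k g g t Z) {t : ℝ}
    (ht : t ∈ I0) {Z : Ph} (hZ : Z ∈ tube (1 / 12)) :
    HasDerivAt (fun τ => g τ Z) (QC γ k t (g t) (g t) Z) t := by
  have h := ClW.QF hK (hg.clW' hκ) (hg.clW' hκ)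
  set φ : ℝ → ℂ := fun τ => QC γ k τ (g τ) (g τ) Z with hφ
  have hcont : ContinuousOn φ I0 :=
    (QC_cont hK hκ hg).comp (f := fun τ : ℝ => ((τ, Z) : ℝ × Ph)) (by fun_prop)
      (fun τ hτ => ⟨hτ, hZ⟩)
  have hbound : ∀ τ ∈ I0, ‖φ τ‖ ≤ 8 / (1 / 2) * (N * N) * domI κ γ k := by
    intro τ hτ
    rw [hφ]
    simp only
    rw [QC_eq2]
    exact h.norm_le hτ (tube_mono2 (by norm_num) (tube_Tp hτ hZ))
  have hint : IntervalIntegrable φ volume (-2) t := by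
    rw [intervalIntegrable_iff_integrableOn_Ioo_of_le ht.1.le]
    have hsub : Ioo (-2) t ⊆ I0 := Ioo_subset_Ioo le_rfl ht.2.le
    refine ⟨(hcont.mono hsub).aestronglyMeasurable measurableSet_Ioo,
      .restrict_of_bounded (C := 8 / (1 / 2) * (N * N) * domI κ γ k) (by simp) ?_⟩
    filter_upwards [ae_restrict_mem measurableSet_Ioo] with τ hτ
    exact hbound τ (hsub hτ)
  have hFTC := intervalIntegral.integral_hasDerivAt_right hint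
    (hcont.stronglyMeasurableAtFilter isOpen_Ioo t ht)
    (hcont.continuousAt (Ioo_mem_nhds ht.1 ht.2))
  have h1 := hFTC.const_add (g0 Z)
  refine h1.congr_of_eventuallyEq ?_
  filter_upwards [Ioo_mem_nhds ht.1 ht.2] with τ hτ
  exact heq τ ⟨hτ.1.le, hτ.2.le⟩ Z (tube_mono2 (by linarith [hτ.2]) hZ)

lemma dd_Fg {E : Ph} (hE : E.2 = 0) (t : ℝ) (Z : Ph) : dd E (Fg g) t Z = dd E g t (Tm t Z) := by
  unfold dd Fg
  congr 1
  ext ζ
  rw [Tm_add_smul]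
  congr 3
  unfold Tm
  rw [hE]
  ext <;> simp [hE]

theorem Fg_TDer (hK : Kern s γ k Ck) (hκ : 0 < κ) (hg : Good κ N g)
    (heq : ∀ t ∈ Icc (-2 : ℝ) 1, ∀ Z ∈ tube (3 - t), g t Z = g0 Z + BC γ k g g t Z) :
    TDer (Fg g) (rhs γ k (Fg g)) := by
  refine ⟨1 / 36, by norm_num, fun t ht Z hZ => ?_⟩
  have hW : Tm t Z ∈ tube (1 / 12) := tube_mono2 (by norm_num) (tube_Tm ht hZ)
  have h1 := hasFDerivAt_joint (hg.clW hκ) (G := fun t Z => QC γ k t (g t) (g t) Z)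
    (r₁ := 1 / 12) (fun t ht Z hZ => g_deriv hK hκ hg heq ht hZ) (QC_cont hK hκ hg) ht
    (Z := Tm t Z) (by
      have : min (1 / 12 : ℝ) (2 / 2) = 1 / 12 := by norm_num
      rw [this]; exact hW)
  have h2 : HasDerivAt (fun τ : ℝ => ((τ, Tm τ Z) : ℝ × Ph)) (1, (-Z.2, 0)) t := by
    apply HasDerivAt.prodMk (hasDerivAt_id t)
    unfold Tm
    apply HasDerivAt.prodMk _ (hasDerivAt_const t Z.2)
    have h3 : HasDerivAt (fun τ : ℝ => (τ : ℂ)) 1 t := Complex.ofRealCLM.hasDerivAt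
    have h4 := (h3.smul_const Z.2).const_sub Z.1
    rw [one_smul] at h4
    exact h4
  have h3 := h1.comp_hasDerivAt t h2
  refine h3.congr_deriv ?_
  rw [ContinuousLinearMap.coprod_apply, ContinuousLinearMap.toSpanSingleton_apply, one_smul,
    ContinuousLinearMap.coe_restrictScalars', DZ_apply]
  unfold rhs
  rw [dd_Fg rfl, dd_Fg rfl, V1_apply, V2_apply, QC_Tm]
  simp only [Prod.fst_neg, Prod.snd_neg, Prod.fst_zero, Prod.snd_zero]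
  ring

/-! ### The real solution -/

/-- the solution -/
noncomputable def fs (g : ℝ → Ph → ℂ) (t : ℝ) (x v : ℂ) : ℝ := (g t (io (x - t * v) v)).re

lemma fs_eq (t : ℝ) (x v : ℂ) : fs g t x v = (Fg g t (io x v)).re := by
  unfold fs Fg; rw [Tm_io]

/-- difference of products at real points -/
noncomputable def DelR (f : ℂ → ℝ) (v : ℂ) (p : ℂ × ℝ) : ℝ :=
  f (v - aa p.2 * p.1) * f (v - (1 - aa p.2) * p.1) - f (v - p.1) * f v

lemma Fg_real (hreal : ∀ t ∈ Icc (-2 : ℝ) 1, ∀ y v, (g t (io y v)).im = 0) {t : ℝ} (ht : t ∈ I0)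
    (x v : ℂ) : Fg g t (io x v) = (fs g t x v : ℂ) := by
  unfold Fg fs
  rw [Tm_io]
  apply Complex.ext
  · simp
  · rw [hreal t ⟨ht.1.le, ht.2.le⟩]; simp

lemma Qi_real (hreal : ∀ t ∈ Icc (-2 : ℝ) 1, ∀ y v, (g t (io y v)).im = 0) {t : ℝ} (ht : t ∈ I0)
    (x v : ℂ) (p : ℂ × ℝ) :
    Qi γ k (Fg g t) (Fg g t) (io x v) p =
      ((k p.2 * ‖p.1‖ ^ γ * DelR (fs g t x) v p : ℝ) : ℂ) := by
  unfold Qi Del DelR
  rw [io_Sh0, io_Sh0, io_Sh0, Fg_real hreal ht, Fg_real hreal ht, Fg_real hreal ht,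
    Fg_real hreal ht]
  push_cast
  ring

theorem fs_smooth (hK : Kern s γ k Ck) (hκ : 0 < κ) (hg : Good κ N g)
    (heq : ∀ t ∈ Icc (-2 : ℝ) 1, ∀ Z ∈ tube (3 - t), g t Z = g0 Z + BC γ k g g t Z) (n : ℕ) :
    DecN n (fun p : ℝ × ℂ × ℂ => fs g p.1 p.2.1 p.2.2) := by
  have h1 : RR' n (Fg g) := RR'.of_equation hK ⟨_, _, _, hg.clW' hκ⟩ (Fg_TDer hK hκ hg heq) n
  have h2 := (decN_uF n h1).clm Complex.reCLM
  refine h2.congr fun p _ => ?_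
  rw [fs_eq]
  rfl

theorem fs_decay (hK : Kern s γ k Ck) (hκ : 0 < κ) (hg : Good κ N g)
    (heq : ∀ t ∈ Icc (-2 : ℝ) 1, ∀ Z ∈ tube (3 - t), g t Z = g0 Z + BC γ k g g t Z) (n q : ℕ) :
    ∃ C : ℝ, ∀ p ∈ U0, (1 + ‖p.2.2‖) ^ q *
      ‖iteratedFDeriv ℝ n (fun p : ℝ × ℂ × ℂ => fs g p.1 p.2.1 p.2.2) p‖ ≤ C := by
  obtain ⟨_, κ', hκ', C, hC⟩ := fs_smooth hK hκ hg heq n
  obtain ⟨D, hD0, hD⟩ := poly_exp_le hκ' q
  refine ⟨|C| * D, fun p hp => ?_⟩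
  have h1 := hC p hp
  have h2 := hD ‖p.2.2‖ (norm_nonneg _)
  calc _ ≤ (1 + ‖p.2.2‖) ^ q * (|C| * Real.exp (-(κ' * ‖p.2.2‖))) := by
        apply mul_le_mul_of_nonneg_left _ (by positivity)
        exact h1.trans (mul_le_mul_of_nonneg_right (le_abs_self C) (Real.exp_pos _).le)
    _ = |C| * ((1 + ‖p.2.2‖) ^ q * Real.exp (-(κ' * ‖p.2.2‖))) := by ring
    _ ≤ _ := mul_le_mul_of_nonneg_left h2 (abs_nonneg _)

theorem fs_integrable (hK : Kern s γ k Ck) (hκ : 0 < κ) (hg : Good κ N g)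
    (hreal : ∀ t ∈ Icc (-2 : ℝ) 1, ∀ y v, (g t (io y v)).im = 0) {t : ℝ} (ht : t ∈ I0)
    (x v : ℂ) :
    Integrable (fun p : ℂ × ℝ => k p.2 * ‖p.1‖ ^ γ * DelR (fs g t x) v p) mu := by
  have h1 := Qi_integrable hK (hg.clW' hκ) (hg.clW' hκ) ht
    (io_mem_tube (r := 1 / 2 / 2) (by norm_num) x v)
  have h2 := h1.re
  refine h2.congr (Eventually.of_forall fun p => ?_)
  simp only
  rw [Qi_real hreal ht]
  exact Complex.ofReal_re _

theorem fs_equation (hK : Kern s γ k Ck) (hκ : 0 < κ) (hg : Good κ N g)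
    (heq : ∀ t ∈ Icc (-2 : ℝ) 1, ∀ Z ∈ tube (3 - t), g t Z = g0 Z + BC γ k g g t Z)
    (hreal : ∀ t ∈ Icc (-2 : ℝ) 1, ∀ y v, (g t (io y v)).im = 0) {t : ℝ} (ht : t ∈ I0)
    (x v : ℂ) :
    deriv (fun τ => fs g τ x v) t + fderiv ℝ (fun y => fs g t y v) x v =
      ∫ p : ℂ × ℝ, k p.2 * ‖p.1‖ ^ γ * DelR (fs g t x) v p ∂mu := by
  have hT := Fg_TDer hK hκ hg heq
  have h1 : RR' 1 (Fg g) := RR'.of_equation hK ⟨_, _, _, hg.clW' hκ⟩ hT 1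
  -- time derivative
  obtain ⟨r₁, hr₁, hder⟩ := hT
  have h2 := hder t ht (io x v) (io_mem_tube hr₁ x v)
  have h3 : HasDerivAt (fun τ => fs g τ x v) (rhs γ k (Fg g) t (io x v)).re t := by
    have h4 := (Complex.reCLM.hasFDerivAt (x := Fg g t (io x v))).comp_hasDerivAt t h2
    refine (h4.congr_deriv rfl).congr_of_eventuallyEq ?_
    exact Eventually.of_forall fun τ => fs_eq τ x v
  -- space derivative
  have hcl : ClW (1 / 2) κ N (Fg g) := hg.clW' hκ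
  have hZ : HasFDerivAt (Fg g t) (DZ (Fg g) t (io x v)) (io x v) :=
    hcl.hasFDerivAt_Z ht (io_mem_tube (by norm_num) x v)
  have hZr : HasFDerivAt (Fg g t) ((DZ (Fg g) t (io x v)).restrictScalars ℝ) (io x v) :=
    hZ.restrictScalars ℝ
  have hio : HasFDerivAt (fun y : ℂ => io y v)
      (((ContinuousLinearMap.id ℝ ℂ).prod (Complex.conjCLE : ℂ →L[ℝ] ℂ)).prod
        (0 : ℂ →L[ℝ] ℂ × ℂ)) x := by
    apply HasFDerivAt.prodMk _ (hasFDerivAt_const _ x)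
    exact (hasFDerivAt_id x).prodMk (Complex.conjCLE : ℂ →L[ℝ] ℂ).hasFDerivAt
  have h5 : HasFDerivAt (fun y : ℂ => fs g t y v)
      (Complex.reCLM.comp (((DZ (Fg g) t (io x v)).restrictScalars ℝ).comp
        (((ContinuousLinearMap.id ℝ ℂ).prod (Complex.conjCLE : ℂ →L[ℝ] ℂ)).prod
          (0 : ℂ →L[ℝ] ℂ × ℂ)))) x := by
    have h6 := (Complex.reCLM.hasFDerivAt (x := Fg g t (io x v))).comp x (hZr.comp x hio)
    refine h6.congr_of_eventuallyEq ?_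
    exact Eventually.of_forall fun y => fs_eq t y v
  rw [h3.deriv, h5.fderiv]
  have h7 : ∫ p : ℂ × ℝ, k p.2 * ‖p.1‖ ^ γ * DelR (fs g t x) v p ∂mu =
      (QF γ k (Fg g) (Fg g) t (io x v)).re := by
    rw [QF_eq]
    simp only [Qi_real hreal ht]
    have h8 := integral_ofReal (𝕜 := ℂ) (μ := mu)
      (f := fun p : ℂ × ℝ => k p.2 * ‖p.1‖ ^ γ * DelR (fs g t x) v p)
    have h9 := congrArg Complex.re h8
    exact h9.symm
  rw [h7]
  simp only [ContinuousLinearMap.comp_apply, ContinuousLinearMap.prod_apply,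
    ContinuousLinearMap.coe_restrictScalars', DZ_apply, Complex.reCLM_apply, rhs, V1_apply,
    V2_apply, io, _root_.zero_apply, Prod.fst_zero, Prod.snd_zero,
    ContinuousLinearMap.id_apply, ContinuousLinearEquiv.coe_coe, Complex.conjCLE_apply]
  simp only [zero_mul, add_zero, Complex.add_re, Complex.neg_re, neg_mul, one_mul]
  ring

end BoltzDisp
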