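import Pool.Agent.MP_08d8de_an.Disp2.Cls

/-!
The collision operator at fixed `x` on the class `Cl`: bounds, continuity, holomorphy, time
derivative.
-/

set_option autoImplicit false

open MeasureTheory Complex Set Filter Topology Metric
open scoped ENNReal ComplexConjugate

namespace BoltzDisp

variable {r κ C r' κ' C' : ℝ} {F G F' G' : ℝ → Ph → ℂ} {s γ Ck : ℝ} {k : ℝ → ℝ}

/-! ### The shifts -/

lemma io_Sh0 (x v u : ℂ) : io x v + Sh 0 u = io x (v - u) := by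
  simp only [io, Sh, Prod.mk_add_mk]
  ext <;> simp [sub_eq_add_neg]

lemma norm_Sh0 (u : ℂ) : ‖Sh 0 u‖ = ‖u‖ := by
  simp [Sh, Prod.norm_def]

lemma Sh_sub (τ : ℝ) (u w : ℂ) : Sh τ u + Sh τ w = Sh τ (u + w) := by
  simp only [Sh, Prod.mk_add_mk, map_add]
  ext <;> simp <;> ring

lemma continuous_Sh0 : Continuous (Sh 0) := by
  unfold Sh
  have := Complex.continuous_conj
  fun_prop

lemma near_Sh0 {Z : Ph} {x v u : ℂ} (hZ : ‖Z - io x v‖ < r) :
    ‖Z + Sh 0 u - io x (v - u)‖ < r := by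
  rw [← io_Sh0]
  have : Z + Sh 0 u - (io x v + Sh 0 u) = Z - io x v := by abel
  rwa [this]

lemma tube_Sh0 {Z : Ph} (hZ : Z ∈ tube r) (u : ℂ) : Z + Sh 0 u ∈ tube r := by
  obtain ⟨x, v, hZ⟩ := hZ
  exact ⟨x, v - u, near_Sh0 hZ⟩

lemma continuous_aa2 : Continuous aa := by unfold aa; fun_prop

/-! ### Lipschitz bound -/

lemma ClW.lip (h : ClW r κ C F) {t : ℝ} (ht : t ∈ I0) {x v : ℂ} {W S : Ph}
    (hW : ‖W - io x v‖ < r / 2) (hS : ‖S‖ < r / 2) :
    ‖F t (W + S) - F t W‖ ≤ 4 / r * (C * Real.exp (-(κ * ‖v‖))) * ‖S‖ := by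
  have hr := h.hr
  rcases eq_or_ne S 0 with rfl | hne
  · simp
  have hS0 : 0 < ‖S‖ := norm_pos_iff.2 hne
  set R₁ := r / 2 / ‖S‖ with hR
  have hR1 : 1 < R₁ := by rw [hR, one_lt_div hS0]; exact hS
  have hin : ∀ ζ ∈ ball (0 : ℂ) R₁, ‖W + ζ • S - io x v‖ < r := by
    intro ζ hζ
    rw [mem_ball, dist_zero_right, hR, lt_div_iff₀ hS0] at hζ
    have : W + ζ • S - io x v = (W - io x v) + ζ • S := by abel
    rw [this]
    refine (norm_add_le _ _).trans_lt ?_
    rw [norm_smul]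
    linarith
  set M := C * Real.exp (-(κ * ‖v‖)) with hM
  have hb : ∀ ζ ∈ ball (0 : ℂ) R₁, ‖F t (W + ζ • S)‖ ≤ M := fun ζ hζ =>
    h.bound t ht x v _ (hin ζ hζ)
  have h1 := Complex.dist_le_div_mul_dist_of_mapsTo_ball (f := fun ζ : ℂ => F t (W + ζ • S))
    (c := 0) (R₁ := R₁) (R₂ := 2 * M) (z := 1)
    (by
      intro ζ hζ
      apply DifferentiableAt.differentiableWithinAt
      exact h.line ht ⟨x, v, hin ζ hζ⟩)
    (by
      intro ζ hζ
      rw [mem_closedBall, dist_eq_norm]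
      refine (norm_sub_le _ _).trans ?_
      have h2 := hb ζ hζ
      have h3 := hb 0 (mem_ball_self (by linarith))
      linarith)
    (by rw [mem_ball, dist_zero_right, norm_one]; exact hR1)
  rw [dist_eq_norm, dist_zero_right, norm_one, mul_one, one_smul, zero_smul, add_zero] at h1
  refine h1.trans (le_of_eq ?_)
  rw [hR]
  field_simp
  ring

/-! ### Energy -/

lemma exp_energy (hκ : 0 < κ) (φ : ℝ) (v w : ℂ) :
    Real.exp (-(κ * ‖v - aa φ * w‖)) * Real.exp (-(κ * ‖v - (1 - aa φ) * w‖)) ≤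
      Real.exp (-(κ / 2 * (‖v‖ + ‖v - w‖))) := by
  rw [← Real.exp_add]
  apply Real.exp_le_exp.2
  set a := ‖v - aa φ * w‖ with ha
  set b := ‖v - (1 - aa φ) * w‖ with hb
  have h1 := energy φ v w
  rw [← ha, ← hb] at h1
  have ha0 : 0 ≤ a := norm_nonneg _
  have hb0 : 0 ≤ b := norm_nonneg _
  have h2 : (‖v‖ + ‖v - w‖) / 2 ≤ a + b := by
    apply le_of_sq_le_sq _ (by positivity)
    nlinarith [sq_nonneg (‖v‖ - ‖v - w‖), mul_nonneg ha0 hb0, sq_nonneg ‖v‖, sq_nonneg ‖v - w‖]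
  nlinarith

/-! ### The bound on the difference -/

lemma Del_le (hF : ClW r κ C F) (hG : ClW r κ C' G) {t : ℝ} (ht : t ∈ I0) {x v : ℂ} {Z : Ph}
    (hZ : ‖Z - io x v‖ < r / 2) (p : ℂ × ℝ) :
    ‖Del 0 (F t) (G t) Z p‖ ≤
      8 / r * (C * C') * (‖p.1‖ * |p.2|) * Real.exp (-(κ / 2 * (‖v‖ + ‖v - p.1‖))) := by
  obtain ⟨w, φ⟩ := p
  simp only
  have hr := hF.hr
  have hκ := hF.hκ
  have hC := hF.hC
  have hC' := hG.hC
  have hZr : ‖Z - io x v‖ < r := hZ.trans (by linarith)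
  have hsin : ‖(1 - aa φ) * w‖ ≤ |φ| * ‖w‖ := by
    rw [norm_mul, norm_one_sub_aa]
    exact mul_le_mul_of_nonneg_right (Real.abs_sin_le_abs) (norm_nonneg _)
  have hexp : Real.exp (-(κ * ‖v - w‖)) * Real.exp (-(κ * ‖v‖)) ≤
      Real.exp (-(κ / 2 * (‖v‖ + ‖v - w‖))) := by
    rw [← Real.exp_add]
    apply Real.exp_le_exp.2
    have := mul_nonneg hκ.le (norm_nonneg v)
    have := mul_nonneg hκ.le (norm_nonneg (v - w))
    nlinarith
  set e := Real.exp (-(κ / 2 * (‖v‖ + ‖v - w‖))) with he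
  have he0 : 0 < e := Real.exp_pos _
  unfold Del
  simp only
  rcases lt_or_ge (|φ| * ‖w‖) (r / 4) with h | h
  · -- small deviation
    have h1 : ‖F t (Z + Sh 0 (aa φ * w)) - F t (Z + Sh 0 w)‖ ≤
        4 / r * (C * Real.exp (-(κ * ‖v - w‖))) * (|φ| * ‖w‖) := by
      have h2 := hF.lip ht (x := x) (v := v - w) (W := Z + Sh 0 w) (S := Sh 0 (-((1 - aa φ) * w)))
        (near_Sh0 hZ) (by rw [norm_Sh0, norm_neg]; linarith)
      have h3 : Z + Sh 0 w + Sh 0 (-((1 - aa φ) * w)) = Z + Sh 0 (aa φ * w) := by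
        rw [add_assoc, Sh_sub]
        congr 2
        ring
      rw [h3, norm_Sh0, norm_neg] at h2
      refine h2.trans ?_
      gcongr
    have h2 : ‖G t (Z + Sh 0 ((1 - aa φ) * w)) - G t Z‖ ≤
        4 / r * (C' * Real.exp (-(κ * ‖v‖))) * (|φ| * ‖w‖) := by
      have h2 := hG.lip ht (x := x) (v := v) (W := Z) (S := Sh 0 ((1 - aa φ) * w))
        hZ (by rw [norm_Sh0]; linarith)
      rw [norm_Sh0] at h2
      refine h2.trans ?_
      gcongr
    have h3 : ‖F t (Z + Sh 0 w)‖ ≤ C * Real.exp (-(κ * ‖v - w‖)) :=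
      hF.bound t ht x (v - w) _ (near_Sh0 hZr)
    have h4 : ‖G t (Z + Sh 0 ((1 - aa φ) * w))‖ ≤ C' * Real.exp (-(κ * ‖v‖)) := by
      apply hG.bound t ht x v
      apply near_add hZ (ρ := r / 2) _ (by linarith)
      rw [norm_Sh0]; linarith
    have h5 : F t (Z + Sh 0 (aa φ * w)) * G t (Z + Sh 0 ((1 - aa φ) * w)) -
        F t (Z + Sh 0 w) * G t Z =
        (F t (Z + Sh 0 (aa φ * w)) - F t (Z + Sh 0 w)) * G t (Z + Sh 0 ((1 - aa φ) * w)) +
        F t (Z + Sh 0 w) * (G t (Z + Sh 0 ((1 - aa φ) * w)) - G t Z) := by ring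
    rw [h5]
    refine (norm_add_le _ _).trans ?_
    rw [norm_mul, norm_mul]
    calc _ ≤ (4 / r * (C * Real.exp (-(κ * ‖v - w‖))) * (|φ| * ‖w‖)) *
          (C' * Real.exp (-(κ * ‖v‖))) + (C * Real.exp (-(κ * ‖v - w‖))) *
          (4 / r * (C' * Real.exp (-(κ * ‖v‖))) * (|φ| * ‖w‖)) := by
          gcongr
      _ = 8 / r * (C * C') * (‖w‖ * |φ|) *
          (Real.exp (-(κ * ‖v - w‖)) * Real.exp (-(κ * ‖v‖))) := by ring
      _ ≤ _ := by gcongr
  · -- large deviation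
    have h1 : ‖F t (Z + Sh 0 (aa φ * w))‖ ≤ C * Real.exp (-(κ * ‖v - aa φ * w‖)) :=
      hF.bound t ht x _ _ (near_Sh0 hZr)
    have h2 : ‖G t (Z + Sh 0 ((1 - aa φ) * w))‖ ≤ C' * Real.exp (-(κ * ‖v - (1 - aa φ) * w‖)) :=
      hG.bound t ht x _ _ (near_Sh0 hZr)
    have h3 : ‖F t (Z + Sh 0 w)‖ ≤ C * Real.exp (-(κ * ‖v - w‖)) :=
      hF.bound t ht x _ _ (near_Sh0 hZr)
    have h4 : ‖G t Z‖ ≤ C' * Real.exp (-(κ * ‖v‖)) := hG.bound t ht x _ _ hZr
    have h5 := exp_energy hκ φ v w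
    have h6 : 2 ≤ 8 / r * (‖w‖ * |φ|) := by
      rw [div_mul_eq_mul_div, le_div_iff₀ hr]
      nlinarith
    refine (norm_sub_le _ _).trans ?_
    rw [norm_mul, norm_mul]
    calc _ ≤ (C * Real.exp (-(κ * ‖v - aa φ * w‖))) * (C' * Real.exp (-(κ * ‖v - (1 - aa φ) * w‖))) +
          (C * Real.exp (-(κ * ‖v - w‖))) * (C' * Real.exp (-(κ * ‖v‖))) := by
          gcongr
      _ = C * C' * (Real.exp (-(κ * ‖v - aa φ * w‖)) * Real.exp (-(κ * ‖v - (1 - aa φ) * w‖))) +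
          C * C' * (Real.exp (-(κ * ‖v - w‖)) * Real.exp (-(κ * ‖v‖))) := by ring
      _ ≤ C * C' * e + C * C' * e := by gcongr
      _ = 2 * (C * C' * e) := by ring
      _ ≤ (8 / r * (‖w‖ * |φ|)) * (C * C' * e) := by gcongr
      _ = _ := by ring

/-! ### The dominating function -/

/-- dominating function -/
noncomputable def domB (κ γ : ℝ) (k : ℝ → ℝ) (p : ℂ × ℝ) : ℝ :=
  (‖p.1‖ ^ (γ + 1) * Real.exp (-(κ / 4 * ‖p.1‖))) * (k p.2 * |p.2|)

lemma abs_rpow_integrable {e : ℝ} (he : -1 < e) (c : ℝ) :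
    IntegrableOn (fun φ : ℝ => |φ| ^ e) (Icc (-c) c) := by
  rcases lt_or_ge c 0 with hc | hc
  · rw [Icc_eq_empty (by linarith)]
    exact integrableOn_empty
  have h1 : IntervalIntegrable (fun φ : ℝ => |φ| ^ e) volume 0 c := by
    refine (intervalIntegral.intervalIntegrable_rpow' (a := 0) (b := c) he).congr ?_
    intro φ hφ
    rw [uIoc_of_le hc] at hφ
    simp only
    rw [abs_of_pos hφ.1]
  have h2 : IntervalIntegrable (fun φ : ℝ => |φ| ^ e) volume (-c) 0 := by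
    have h3 := h1.comp_sub_left 0
    simp only [zero_sub, abs_neg, sub_zero] at h3
    exact h3.symm
  have h3 := h2.trans h1
  rw [intervalIntegrable_iff_integrableOn_Icc_of_le (by linarith)] at h3
  exact h3

lemma norm_rpow_exp_integrable {e b : ℝ} (he : -2 < e) (hb : 0 < b) :
    Integrable (fun w : ℂ => ‖w‖ ^ e * Real.exp (-(b * ‖w‖))) := by
  by_contra hcon
  have h1 := integral_undef hcon
  have h2 := Complex.integral_rpow_mul_exp_neg_mul_rpow (p := 1) (q := e) (b := b) le_rfl he hb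
  simp only [Real.rpow_one, neg_mul] at h2
  rw [h2] at h1
  have h3 : 0 < Real.Gamma ((e + 2) / 1) := Real.Gamma_pos_of_pos (by simp; linarith)
  have h4 : 0 < b ^ (-(e + 2) / 1) := Real.rpow_pos_of_pos hb _
  have h5 := Real.pi_pos
  have : 0 < 2 * Real.pi / 1 * b ^ (-(e + 2) / 1) * Real.Gamma ((e + 2) / 1) := by positivity
  linarith

lemma domB_integrable (hK : Kern s γ k Ck) (hκ : 0 < κ) : Integrable (domB κ γ k) mu := by
  have hs := hK.hs
  have hγ := hK.hγ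
  have hγs := hK.hγs
  unfold domB mu
  apply Integrable.mul_prod (f := fun w : ℂ => ‖w‖ ^ (γ + 1) * Real.exp (-(κ / 4 * ‖w‖)))
    (g := fun φ : ℝ => k φ * |φ|)
  · exact norm_rpow_exp_integrable (by linarith) (by positivity)
  · have h1 : IntegrableOn (fun φ : ℝ => Ck * |φ| ^ (-(2 * s)))
        (Icc (-(Real.pi / 4)) (Real.pi / 4)) :=
      (abs_rpow_integrable (by linarith) _).const_mul _
    refine Integrable.mono' h1 ?_ (Eventually.of_forall fun φ => ?_)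
    · have := hK.meas
      exact (this.mul (by fun_prop)).aestronglyMeasurable
    · rw [Real.norm_eq_abs, abs_of_nonneg (mul_nonneg (hK.nonneg φ) (abs_nonneg _))]
      rcases eq_or_ne φ 0 with rfl | hne
      · simp only [abs_zero, mul_zero]
        apply mul_nonneg hK.hCk
        positivity
      · have h0 : 0 < |φ| := abs_pos.2 hne
        calc k φ * |φ| ≤ (Ck * |φ| ^ (-1 - 2 * s)) * |φ| :=
              mul_le_mul_of_nonneg_right (hK.le φ) h0.le
          _ = Ck * (|φ| ^ (-1 - 2 * s) * |φ| ^ (1 : ℝ)) := by rw [Real.rpow_one]; ring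
          _ = _ := by rw [← Real.rpow_add h0]; congr 2; ring

lemma domB_nonneg (hK : Kern s γ k Ck) (p : ℂ × ℝ) : 0 ≤ domB κ γ k p := by
  have := hK.nonneg p.2
  unfold domB
  positivity

/-- the integrand of `QC` at time-shift `0` -/
noncomputable def Qi (γ : ℝ) (k : ℝ → ℝ) (f g : Ph → ℂ) (Z : Ph) (p : ℂ × ℝ) : ℂ :=
  ((k p.2 * ‖p.1‖ ^ γ : ℝ) : ℂ) * Del 0 f g Z p

lemma Qi_le (hK : Kern s γ k Ck) (hF : ClW r κ C F) (hG : ClW r κ C' G) {t : ℝ} (ht : t ∈ I0)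
    {x v : ℂ} {Z : Ph} (hZ : ‖Z - io x v‖ < r / 2) (p : ℂ × ℝ) :
    ‖Qi γ k (F t) (G t) Z p‖ ≤
      8 / r * (C * C') * Real.exp (-(κ / 4 * ‖v‖)) * domB κ γ k p := by
  have hk := hK.nonneg p.2
  have hr := hF.hr
  have hκ := hF.hκ
  have hC := hF.hC
  have hC' := hG.hC
  unfold Qi domB
  rw [norm_mul, Complex.norm_real, Real.norm_eq_abs, abs_of_nonneg (by positivity)]
  have h1 := Del_le hF hG ht hZ p
  have h2 : Real.exp (-(κ / 2 * (‖v‖ + ‖v - p.1‖))) ≤
      Real.exp (-(κ / 4 * ‖v‖)) * Real.exp (-(κ / 4 * ‖p.1‖)) := by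
    rw [← Real.exp_add]
    apply Real.exp_le_exp.2
    have h3 : ‖p.1‖ ≤ ‖v‖ + ‖v - p.1‖ := by
      have := norm_sub_le v (v - p.1)
      rwa [sub_sub_cancel] at this
    have := norm_nonneg (v - p.1)
    nlinarith
  have h3 : ‖p.1‖ ^ γ * ‖p.1‖ = ‖p.1‖ ^ (γ + 1) := by
    rw [Real.rpow_add_one' (norm_nonneg _)]
    have := hK.hs
    have := hK.hγs
    have := hK.hγ
    linarith
  calc k p.2 * ‖p.1‖ ^ γ * ‖Del 0 (F t) (G t) Z p‖ ≤ k p.2 * ‖p.1‖ ^ γ *
        (8 / r * (C * C') * (‖p.1‖ * |p.2|) *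
          (Real.exp (-(κ / 4 * ‖v‖)) * Real.exp (-(κ / 4 * ‖p.1‖)))) := by
        gcongr
        exact h1.trans (by gcongr)
    _ = 8 / r * (C * C') * Real.exp (-(κ / 4 * ‖v‖)) *
        (((‖p.1‖ ^ γ * ‖p.1‖) * Real.exp (-(κ / 4 * ‖p.1‖))) * (k p.2 * |p.2|)) := by ring
    _ = _ := by rw [h3]

lemma Qi_le' (hK : Kern s γ k Ck) (hF : ClW r κ C F) (hG : ClW r κ C' G) {t : ℝ} (ht : t ∈ I0)
    {Z : Ph} (hZ : Z ∈ tube (r / 2)) (p : ℂ × ℝ) :
    ‖Qi γ k (F t) (G t) Z p‖ ≤ 8 / r * (C * C') * domB κ γ k p := by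
  obtain ⟨x, v, hZ⟩ := hZ
  have hr := hF.hr
  have hC := hF.hC
  have hC' := hG.hC
  refine (Qi_le hK hF hG ht hZ p).trans ?_
  have h1 : Real.exp (-(κ / 4 * ‖v‖)) ≤ 1 := by
    rw [Real.exp_le_one_iff]
    have := mul_nonneg hF.hκ.le (norm_nonneg v)
    linarith
  have h2 := domB_nonneg (κ := κ) hK p
  apply mul_le_mul_of_nonneg_right _ h2
  exact mul_le_of_le_one_right (by positivity) h1

lemma Qi_meas (hK : Kern s γ k Ck) (hF : ClW r κ C F) (hG : ClW r κ C' G) {t : ℝ} (ht : t ∈ I0)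
    {Z : Ph} (hZ : Z ∈ tube (r / 2)) :
    AEStronglyMeasurable (Qi γ k (F t) (G t) Z) mu := by
  have hr := hF.hr
  have hZ' : Z ∈ tube r := tube_mono2 (by linarith) hZ
  have hkm := hK.meas
  have hcF : ∀ {a : ℂ × ℝ → ℂ}, Continuous a → Continuous (fun p => F t (Z + Sh 0 (a p))) := by
    intro a ha
    apply hF.cont.comp_continuous (f := fun p => ((t, Z + Sh 0 (a p)) : ℝ × Ph))
    · have := continuous_Sh0.comp ha
      exact continuous_const.prodMk (continuous_const.add this)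
    · exact fun p => ⟨ht, tube_Sh0 hZ' _⟩
  have hcG : ∀ {a : ℂ × ℝ → ℂ}, Continuous a → Continuous (fun p => G t (Z + Sh 0 (a p))) := by
    intro a ha
    apply hG.cont.comp_continuous (f := fun p => ((t, Z + Sh 0 (a p)) : ℝ × Ph))
    · have := continuous_Sh0.comp ha
      exact continuous_const.prodMk (continuous_const.add this)
    · exact fun p => ⟨ht, tube_Sh0 hZ' _⟩
  have haa := continuous_aa2
  unfold Qi Del
  apply AEStronglyMeasurable.mul
  · apply Measurable.aestronglyMeasurable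
    fun_prop
  · apply Continuous.aestronglyMeasurable
    exact ((hcF (by fun_prop)).mul (hcG (by fun_prop))).sub ((hcF (by fun_prop)).mul continuous_const)

lemma Qi_integrable (hK : Kern s γ k Ck) (hF : ClW r κ C F) (hG : ClW r κ C' G) {t : ℝ}
    (ht : t ∈ I0) {Z : Ph} (hZ : Z ∈ tube (r / 2)) :
    Integrable (Qi γ k (F t) (G t) Z) mu :=
  ((domB_integrable hK hF.hκ).const_mul _).mono' (Qi_meas hK hF hG ht hZ)
    (Eventually.of_forall fun p => Qi_le' hK hF hG ht hZ p)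

/-- the collision operator in the variables `(t, x, v)` -/
noncomputable def QF (γ : ℝ) (k : ℝ → ℝ) (F G : ℝ → Ph → ℂ) (t : ℝ) (Z : Ph) : ℂ :=
  QC γ k 0 (F t) (G t) Z

lemma QF_eq (t : ℝ) (Z : Ph) : QF γ k F G t Z = ∫ p, Qi γ k (F t) (G t) Z p ∂mu := rfl

/-- the integral of the dominating function -/
noncomputable def domI (κ γ : ℝ) (k : ℝ → ℝ) : ℝ := ∫ p, domB κ γ k p ∂mu

lemma Qi_line (hF : ClW r κ C F) (hG : ClW r κ C' G) {t : ℝ} (ht : t ∈ I0) {Z E : Ph} {η : ℂ}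
    (hZ : Z + η • E ∈ tube r) (p : ℂ × ℝ) :
    DifferentiableAt ℂ (fun η : ℂ => Qi γ k (F t) (G t) (Z + η • E) p) η := by
  unfold Qi Del
  apply DifferentiableAt.const_mul
  have hsh : ∀ {H : ℝ → Ph → ℂ} {C'' : ℝ}, ClW r κ C'' H → ∀ u : ℂ,
      DifferentiableAt ℂ (fun η : ℂ => H t (Z + η • E + Sh 0 u)) η := by
    intro H C'' hH u
    have h2 : (fun η : ℂ => H t (Z + η • E + Sh 0 u)) = fun η => H t ((Z + Sh 0 u) + η • E) := by
      ext η; congr 1; abel
    rw [h2]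
    apply hH.line ht
    have h3 := tube_Sh0 hZ u
    have h4 : Z + Sh 0 u + η • E = Z + η • E + Sh 0 u := by abel
    rwa [h4]
  apply DifferentiableAt.sub
  · exact (hsh hF _).mul (hsh hG _)
  · exact (hsh hF _).mul (hG.line ht hZ)

theorem ClW.QF (hK : Kern s γ k Ck) (hF : ClW r κ C F) (hG : ClW r κ C' G) :
    ClW (r / 2) (κ / 4) (8 / r * (C * C') * domI κ γ k) (QF γ k F G) := by
  have hr := hF.hr
  have hκ := hF.hκ
  have hC := hF.hC
  have hC' := hG.hC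
  have hI0 : 0 ≤ domI κ γ k := integral_nonneg fun p => domB_nonneg hK p
  have hdomI := domB_integrable (κ := κ) hK hκ
  refine ⟨by positivity, by positivity, by positivity, ?_, ?_, ?_⟩
  · apply continuousOn_of_dominated (bound := fun p => 8 / r * (C * C') * domB κ γ k p)
    · intro q hq
      exact Qi_meas hK hF hG hq.1 hq.2
    · intro q hq
      exact Eventually.of_forall fun p => Qi_le' hK hF hG hq.1 hq.2 p
    · exact hdomI.const_mul _
    · refine Eventually.of_forall fun p => ?_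
      have hsh : ∀ {H : ℝ → Ph → ℂ} {C'' : ℝ}, ClW r κ C'' H → ∀ u : ℂ,
          ContinuousOn (fun q : ℝ × Ph => H q.1 (q.2 + Sh 0 u)) (I0 ×ˢ tube (r / 2)) := by
        intro H C'' hH u
        apply hH.cont.comp (f := fun q : ℝ × Ph => ((q.1, q.2 + Sh 0 u) : ℝ × Ph))
        · fun_prop
        · intro q hq
          exact ⟨hq.1, tube_Sh0 (tube_mono2 (by linarith) hq.2) u⟩
      have hG' : ContinuousOn (fun q : ℝ × Ph => G q.1 q.2) (I0 ×ˢ tube (r / 2)) :=
        hG.cont.mono (prod_mono le_rfl (tube_mono2 (by linarith)))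
      unfold Del
      apply ContinuousOn.mul continuousOn_const
      exact ((hsh hF _).mul (hsh hG _)).sub ((hsh hF _).mul hG')
  · intro t ht Z hZ E
    obtain ⟨ρ', hρ', hball⟩ := Metric.isOpen_iff.1 (isOpen_tube2 (r / 2)) Z hZ
    have hρ'' : 0 < ρ' / (‖E‖ + 1) := by positivity
    have hin : ∀ η ∈ ball (0 : ℂ) (ρ' / (‖E‖ + 1)), Z + η • E ∈ tube (r / 2) := by
      intro η hη
      apply hball
      rw [mem_ball, dist_eq_norm, add_sub_cancel_left, norm_smul]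
      rw [mem_ball, dist_zero_right, lt_div_iff₀ (by positivity)] at hη
      nlinarith [norm_nonneg η, norm_nonneg E]
    apply hol_int hρ'' (hdomI.const_mul (8 / r * (C * C')))
    · refine Eventually.of_forall fun p η hη => ?_
      apply DifferentiableAt.differentiableWithinAt
      exact Qi_line hF hG ht (tube_mono2 (by linarith) (hin η hη)) p
    · exact Eventually.of_forall fun p η hη => Qi_le' hK hF hG ht (hin η hη) p
    · intro η hη
      exact Qi_meas hK hF hG ht (hin η hη)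
  · intro t ht x v Z hZ
    rw [QF_eq]
    calc ‖∫ p, Qi γ k (F t) (G t) Z p ∂mu‖ ≤ ∫ p, ‖Qi γ k (F t) (G t) Z p‖ ∂mu :=
          norm_integral_le_integral_norm _
      _ ≤ ∫ p, 8 / r * (C * C') * Real.exp (-(κ / 4 * ‖v‖)) * domB κ γ k p ∂mu := by
          apply integral_mono_of_nonneg (Eventually.of_forall fun p => norm_nonneg _)
            (hdomI.const_mul _)
          exact Eventually.of_forall fun p => Qi_le hK hF hG ht hZ p
      _ = _ := by
          rw [integral_const_mul]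
          unfold domI
          ring

lemma Cl.QF (hK : Kern s γ k Ck) (hF : Cl F) (hG : Cl G) : Cl (QF γ k F G) := by
  obtain ⟨r, κ, C, h1, h2⟩ := hF.common hG
  exact ⟨_, _, _, ClW.QF hK h1 h2⟩

theorem TDer.QF (hK : Kern s γ k Ck) (hF : Cl F) (hG : Cl G) (hF' : Cl F') (hG' : Cl G')
    (h : TDer F F') (h' : TDer G G') :
    TDer (QF γ k F G) (fun t Z => BoltzDisp.QF γ k F' G t Z + BoltzDisp.QF γ k F G' t Z) := by
  -- common constants
  obtain ⟨r1, κ1, C1, a1, a2⟩ := hF.common hG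
  obtain ⟨r2, κ2, C2, a3, a4⟩ := hF'.common hG'
  obtain ⟨r3, hr3, h⟩ := h
  obtain ⟨r4, hr4, h'⟩ := h'
  set r := min (min r1 r2) (min r3 r4) with hrdef
  have hr : 0 < r := lt_min (lt_min a1.hr a3.hr) (lt_min hr3 hr4)
  have e1 : r ≤ r1 := (min_le_left _ _).trans (min_le_left _ _)
  have e2 : r ≤ r2 := (min_le_left _ _).trans (min_le_right _ _)
  have e3 : r ≤ r3 := (min_le_right _ _).trans (min_le_left _ _)
  have e4 : r ≤ r4 := (min_le_right _ _).trans (min_le_right _ _)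
  set κ := min κ1 κ2 with hκdef
  have hκ : 0 < κ := lt_min a1.hκ a3.hκ
  set C := max C1 C2 with hCdef
  have b1 : ClW r κ C F := a1.mono hr e1 hκ (min_le_left _ _) (le_max_left _ _)
  have b2 : ClW r κ C G := a2.mono hr e1 hκ (min_le_left _ _) (le_max_left _ _)
  have b3 : ClW r κ C F' := a3.mono hr e2 hκ (min_le_right _ _) (le_max_right _ _)
  have b4 : ClW r κ C G' := a4.mono hr e2 hκ (min_le_right _ _) (le_max_right _ _)
  have hdomI := domB_integrable (κ := κ) hK hκ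
  refine ⟨r / 2, by positivity, fun t ht Z hZ => ?_⟩
  have hZr : Z ∈ tube r := tube_mono2 (by linarith) hZ
  have key := hasDerivAt_integral_of_dominated_loc_of_deriv_le (𝕜 := ℝ) (μ := mu)
    (F := fun τ p => Qi γ k (F τ) (G τ) Z p)
    (F' := fun τ p => Qi γ k (F' τ) (G τ) Z p + Qi γ k (F τ) (G' τ) Z p) (x₀ := t)
    (s := I0) (bound := fun p => 8 / r * (C * C) * domB κ γ k p + 8 / r * (C * C) * domB κ γ k p)
    (Ioo_mem_nhds ht.1 ht.2)
    (by
      filter_upwards [Ioo_mem_nhds ht.1 ht.2] with τ hτ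
      exact Qi_meas hK b1 b2 hτ hZ)
    (Qi_integrable hK b1 b2 ht hZ)
    ((Qi_meas hK b3 b2 ht hZ).add (Qi_meas hK b1 b4 ht hZ))
    (by
      refine Eventually.of_forall fun p τ hτ => ?_
      exact (norm_add_le _ _).trans (add_le_add (Qi_le' hK b3 b2 hτ hZ p) (Qi_le' hK b1 b4 hτ hZ p)))
    ((hdomI.const_mul _).add (hdomI.const_mul _))
    (by
      refine Eventually.of_forall fun p τ hτ => ?_
      unfold Qi Del
      have f1 : ∀ u : ℂ, HasDerivAt (fun τ => F τ (Z + Sh 0 u)) (F' τ (Z + Sh 0 u)) τ :=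
        fun u => h τ hτ _ (tube_mono2 e3 (tube_Sh0 hZr u))
      have f2 : ∀ u : ℂ, HasDerivAt (fun τ => G τ (Z + Sh 0 u)) (G' τ (Z + Sh 0 u)) τ :=
        fun u => h' τ hτ _ (tube_mono2 e4 (tube_Sh0 hZr u))
      have f3 : HasDerivAt (fun τ => G τ Z) (G' τ Z) τ := h' τ hτ _ (tube_mono2 e4 hZr)
      have f4 := (((f1 (aa p.2 * p.1)).mul (f2 ((1 - aa p.2) * p.1))).sub
        ((f1 p.1).mul f3)).const_mul ((k p.2 * ‖p.1‖ ^ γ : ℝ) : ℂ)
      refine f4.congr_deriv ?_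
      ring)
  have h5 := key.2
  rw [integral_add (Qi_integrable hK b3 b2 ht hZ) (Qi_integrable hK b1 b4 ht hZ)] at h5
  exact h5

end BoltzDisp
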