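import Pool.Agent.MP_08d8de_an.Disp2.QCls

/-!
Joint smoothness in `(t, x, v)` and decay of all derivatives.
-/

set_option autoImplicit false

open MeasureTheory Complex Set Filter Topology Metric
open scoped ENNReal ComplexConjugate ContDiff

namespace BoltzDisp

variable {r κ C r' κ' C' : ℝ} {F G F' G' : ℝ → Ph → ℂ} {s γ Ck : ℝ} {k : ℝ → ℝ}

/-- `n` times differentiable in time, within the class -/
def RR' : ℕ → (ℝ → Ph → ℂ) → Prop
  | 0, F => Cl F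
  | n + 1, F => Cl F ∧ ∃ G, RR' n G ∧ TDer F G

lemma RR'.cl {n : ℕ} (h : RR' n F) : Cl F := by
  cases n with
  | zero => exact h
  | succ n => exact h.1

lemma RR'.pred {n : ℕ} : ∀ {F : ℝ → Ph → ℂ}, RR' (n + 1) F → RR' n F := by
  induction n with
  | zero => intro F h; exact h.1
  | succ n ih =>
    intro F h
    obtain ⟨h1, G, h2, h3⟩ := h
    exact ⟨h1, G, ih h2, h3⟩

lemma RR'.add {n : ℕ} : ∀ {F G : ℝ → Ph → ℂ}, RR' n F → RR' n G →
    RR' n (fun t Z => F t Z + G t Z) := by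
  induction n with
  | zero => intro F G h h'; exact Cl.add h h'
  | succ n ih =>
    intro F G h h'
    obtain ⟨h1, F', h2, h3⟩ := h
    obtain ⟨h1', G', h2', h3'⟩ := h'
    exact ⟨h1.add h1', _, ih h2 h2', h3.add h3'⟩

lemma RR'.smul {n : ℕ} (c : ℂ) : ∀ {F : ℝ → Ph → ℂ}, RR' n F → RR' n (fun t Z => c * F t Z) := by
  induction n with
  | zero => intro F h; exact Cl.smul h c
  | succ n ih =>
    intro F h
    obtain ⟨h1, F', h2, h3⟩ := h
    exact ⟨h1.smul c, _, ih h2, h3.mul (fun _ => c)⟩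

lemma RR'.vmul {n : ℕ} (L : Ph →L[ℂ] ℂ) (hL : ∀ (x v : ℂ), ‖L (io x v)‖ ≤ ‖v‖)
    (hL1 : ∀ Z, ‖L Z‖ ≤ ‖Z‖) :
    ∀ {F : ℝ → Ph → ℂ}, RR' n F → RR' n (fun t Z => L Z * F t Z) := by
  induction n with
  | zero => intro F h; exact Cl.vmul h L hL hL1
  | succ n ih =>
    intro F h
    obtain ⟨h1, F', h2, h3⟩ := h
    exact ⟨h1.vmul L hL hL1, _, ih h2, h3.mul (fun Z => L Z)⟩

lemma RR'.dd {n : ℕ} (E : Ph) : ∀ {F : ℝ → Ph → ℂ}, RR' n F → RR' n (dd E F) := by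
  induction n with
  | zero => intro F h; exact Cl.dd h E
  | succ n ih =>
    intro F h
    obtain ⟨h1, F', h2, h3⟩ := h
    exact ⟨h1.dd E, _, ih h2, h3.dd h1 h2.cl E⟩

lemma RR'.QF (hK : Kern s γ k Ck) {n : ℕ} : ∀ {F G : ℝ → Ph → ℂ}, RR' n F → RR' n G →
    RR' n (QF γ k F G) := by
  induction n with
  | zero => intro F G h h'; exact Cl.QF hK h h'
  | succ n ih =>
    intro F G h h'
    have hp := h.pred
    have hp' := h'.pred
    obtain ⟨h1, F', h2, h3⟩ := h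
    obtain ⟨h1', G', h2', h3'⟩ := h'
    exact ⟨Cl.QF hK h1 h1', _, (ih h2 hp').add (ih hp h2'),
      TDer.QF hK h1 h1' h2.cl h2'.cl h3 h3'⟩

/-- coordinate functionals of the velocity -/
noncomputable def V1 : Ph →L[ℂ] ℂ :=
  (ContinuousLinearMap.fst ℂ ℂ ℂ).comp (ContinuousLinearMap.snd ℂ (ℂ × ℂ) (ℂ × ℂ))

noncomputable def V2 : Ph →L[ℂ] ℂ :=
  (ContinuousLinearMap.snd ℂ ℂ ℂ).comp (ContinuousLinearMap.snd ℂ (ℂ × ℂ) (ℂ × ℂ))

lemma V1_apply (Z : Ph) : V1 Z = Z.2.1 := rfl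
lemma V2_apply (Z : Ph) : V2 Z = Z.2.2 := rfl

lemma norm_V1 (Z : Ph) : ‖V1 Z‖ ≤ ‖Z‖ := (norm_fst_le Z.2).trans (norm_snd_le Z)
lemma norm_V2 (Z : Ph) : ‖V2 Z‖ ≤ ‖Z‖ := (norm_snd_le Z.2).trans (norm_snd_le Z)
lemma norm_V1_io (x v : ℂ) : ‖V1 (io x v)‖ ≤ ‖v‖ := le_rfl
lemma norm_V2_io (x v : ℂ) : ‖V2 (io x v)‖ ≤ ‖v‖ := by
  show ‖conj v‖ ≤ ‖v‖
  rw [RCLike.norm_conj]

/-- the coordinate directions -/
def e1 : Ph := ((1, 0), (0, 0))
def e2 : Ph := ((0, 1), (0, 0))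
def e3 : Ph := ((0, 0), (1, 0))
def e4 : Ph := ((0, 0), (0, 1))

/-- right-hand side of the Boltzmann equation -/
noncomputable def rhs (γ : ℝ) (k : ℝ → ℝ) (F : ℝ → Ph → ℂ) (t : ℝ) (Z : Ph) : ℂ :=
  QF γ k F F t Z + (-1) * (V1 Z * dd e1 F t Z + V2 Z * dd e2 F t Z)

/-- Solutions are infinitely differentiable in time within the class. -/
theorem RR'.of_equation (hK : Kern s γ k Ck) (hF : Cl F) (h : TDer F (rhs γ k F)) (n : ℕ) :
    RR' n F := by
  induction n with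
  | zero => exact hF
  | succ n ih =>
    refine ⟨hF, _, ?_, h⟩
    exact (RR'.QF hK ih ih).add (RR'.smul (-1)
      (((ih.dd e1).vmul V1 norm_V1_io norm_V1).add ((ih.dd e2).vmul V2 norm_V2_io norm_V2)))

/-! ### Fréchet differentiability -/

/-- partial derivative in `Z` -/
noncomputable def DZ (F : ℝ → Ph → ℂ) (t : ℝ) (Z : Ph) : Ph →L[ℂ] ℂ :=
  ((ContinuousLinearMap.toSpanSingleton ℂ (dd e1 F t Z)).coprod
    (ContinuousLinearMap.toSpanSingleton ℂ (dd e2 F t Z))).coprod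
  ((ContinuousLinearMap.toSpanSingleton ℂ (dd e3 F t Z)).coprod
    (ContinuousLinearMap.toSpanSingleton ℂ (dd e4 F t Z)))

lemma DZ_apply (F : ℝ → Ph → ℂ) (t : ℝ) (Z H : Ph) :
    DZ F t Z H = H.1.1 * dd e1 F t Z + H.1.2 * dd e2 F t Z +
      (H.2.1 * dd e3 F t Z + H.2.2 * dd e4 F t Z) := by
  unfold DZ
  simp [ContinuousLinearMap.coprod_apply, ContinuousLinearMap.toSpanSingleton_apply]

lemma continuous_toSpan {X : Type*} [TopologicalSpace X] {f : X → ℂ} {S : Set X}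
    (hf : ContinuousOn f S) :
    ContinuousOn (fun x => ContinuousLinearMap.toSpanSingleton ℂ (f x) : X → ℂ →L[ℂ] ℂ) S := by
  have : (fun x => ContinuousLinearMap.toSpanSingleton ℂ (f x) : X → ℂ →L[ℂ] ℂ) =
      fun x => f x • (1 : ℂ →L[ℂ] ℂ) := by
    ext x
    simp
  rw [this]
  exact hf.smul continuousOn_const

lemma ContinuousOn.coprod' {X : Type*} [TopologicalSpace X] {E₁ E₂ E₃ : Type*}
    [NormedAddCommGroup E₁] [NormedSpace ℂ E₁] [NormedAddCommGroup E₂] [NormedSpace ℂ E₂]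
    [NormedAddCommGroup E₃] [NormedSpace ℂ E₃] {f : X → E₁ →L[ℂ] E₃} {g : X → E₂ →L[ℂ] E₃}
    {S : Set X} (hf : ContinuousOn f S) (hg : ContinuousOn g S) :
    ContinuousOn (fun x => (f x).coprod (g x)) S := by
  have : (fun x => (f x).coprod (g x)) = fun x =>
      (f x).comp (ContinuousLinearMap.fst ℂ E₁ E₂) + (g x).comp (ContinuousLinearMap.snd ℂ E₁ E₂) := by
    ext x y <;> simp
  rw [this]
  exact (hf.clm_comp continuousOn_const).add (hg.clm_comp continuousOn_const)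

lemma ClW.dd_hasDerivAt (h : ClW r κ C F) {t : ℝ} (ht : t ∈ I0) {Z : Ph} (hZ : Z ∈ tube r)
    (E : Ph) : HasDerivAt (fun ζ : ℂ => F t (Z + ζ • E)) (BoltzDisp.dd E F t Z) 0 :=
  (h.hol t ht Z hZ E).hasDerivAt

/-- coordinate curve version -/
lemma coord_deriv {f : ℂ → ℂ} {a b c : ℂ} (h : HasDerivAt (fun ζ : ℂ => f (a + ζ * b)) c 0)
    (hb : b = 1) : HasFDerivAt f (ContinuousLinearMap.toSpanSingleton ℂ c) a := by
  subst hb
  have h1 : HasDerivAt (fun ζ : ℂ => f (a + ζ)) c 0 := by simpa using h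
  have h2 : HasDerivAt (fun z : ℂ => f (a + (z - a))) c a := by
    have h3 : HasDerivAt (fun z : ℂ => z - a) 1 a := by
      simpa using (hasDerivAt_id a).sub_const a
    have h4 := HasDerivAt.comp (h₂ := fun ζ : ℂ => f (a + ζ)) (h := fun z : ℂ => z - a) (x := a)
      (h₂' := c) (h' := 1) (by rw [sub_self]; exact h1) h3
    rw [mul_one] at h4
    exact h4
  have h3 : (fun z : ℂ => f (a + (z - a))) = f := by
    ext z; congr 1; ring
  rw [h3] at h2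
  exact h2.hasFDerivAt

theorem ClW.hasFDerivAt_Z (h : ClW r κ C F) {t : ℝ} (ht : t ∈ I0) {Z : Ph}
    (hZ : Z ∈ tube (r / 2)) : HasFDerivAt (F t) (DZ F t Z) Z := by
  have hr := h.hr
  obtain ⟨ρ1, hρ1, h1⟩ := exists_rad r hr e1
  obtain ⟨ρ2, hρ2, h2⟩ := exists_rad r hr e2
  obtain ⟨ρ3, hρ3, h3⟩ := exists_rad r hr e3
  obtain ⟨ρ4, hρ4, h4⟩ := exists_rad r hr e4
  have hopen := isOpen_tube2 (r / 2)
  have hev : ∀ᶠ W in 𝓝 Z, W ∈ tube (r / 2) := hopen.mem_nhds hZ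
  have hsub : ∀ {W : Ph}, W ∈ tube (r / 2) → W ∈ tube r := fun hW => tube_mono2 (by linarith) hW
  -- continuity of the partial derivatives at `Z`
  have hc : ∀ {E : Ph} {ρ : ℝ}, 0 < ρ → ρ * ‖E‖ ≤ r / 2 →
      ContinuousOn (fun W : Ph => BoltzDisp.dd E F t W) (tube (r / 2)) := by
    intro E ρ hρ hρE
    exact (h.dd E hρ hρE).cont.comp (f := fun W : Ph => ((t, W) : ℝ × Ph)) (by fun_prop)
      (fun W hW => ⟨ht, hW⟩)
  -- derivative along the coordinates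
  have q1 : ∀ W ∈ tube (r / 2), HasFDerivAt (fun a : ℂ => F t ((a, W.1.2), W.2))
      (ContinuousLinearMap.toSpanSingleton ℂ (BoltzDisp.dd e1 F t W)) W.1.1 := by
    intro W hW
    apply coord_deriv (b := 1) _ rfl
    have h5 := h.dd_hasDerivAt ht (hsub hW) e1
    have h6 : (fun ζ : ℂ => F t (W + ζ • e1)) = fun ζ => F t ((W.1.1 + ζ * 1, W.1.2), W.2) := by
      ext ζ; congr 1; ext <;> simp [e1]
    rwa [h6] at h5
  have q2 : ∀ W ∈ tube (r / 2), HasFDerivAt (fun a : ℂ => F t ((W.1.1, a), W.2))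
      (ContinuousLinearMap.toSpanSingleton ℂ (BoltzDisp.dd e2 F t W)) W.1.2 := by
    intro W hW
    apply coord_deriv (b := 1) _ rfl
    have h5 := h.dd_hasDerivAt ht (hsub hW) e2
    have h6 : (fun ζ : ℂ => F t (W + ζ • e2)) = fun ζ => F t ((W.1.1, W.1.2 + ζ * 1), W.2) := by
      ext ζ; congr 1; ext <;> simp [e2]
    rwa [h6] at h5
  have q3 : ∀ W ∈ tube (r / 2), HasFDerivAt (fun a : ℂ => F t (W.1, (a, W.2.2)))
      (ContinuousLinearMap.toSpanSingleton ℂ (BoltzDisp.dd e3 F t W)) W.2.1 := by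
    intro W hW
    apply coord_deriv (b := 1) _ rfl
    have h5 := h.dd_hasDerivAt ht (hsub hW) e3
    have h6 : (fun ζ : ℂ => F t (W + ζ • e3)) = fun ζ => F t (W.1, (W.2.1 + ζ * 1, W.2.2)) := by
      ext ζ; congr 1; ext <;> simp [e3]
    rwa [h6] at h5
  have q4 : ∀ W ∈ tube (r / 2), HasFDerivAt (fun a : ℂ => F t (W.1, (W.2.1, a)))
      (ContinuousLinearMap.toSpanSingleton ℂ (BoltzDisp.dd e4 F t W)) W.2.2 := by
    intro W hW
    apply coord_deriv (b := 1) _ rfl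
    have h5 := h.dd_hasDerivAt ht (hsub hW) e4
    have h6 : (fun ζ : ℂ => F t (W + ζ • e4)) = fun ζ => F t (W.1, (W.2.1, W.2.2 + ζ * 1)) := by
      ext ζ; congr 1; ext <;> simp [e4]
    rwa [h6] at h5
  -- first pair
  have p1 : ∀ W ∈ tube (r / 2), HasFDerivAt (fun Y : ℂ × ℂ => F t (Y, W.2))
      ((ContinuousLinearMap.toSpanSingleton ℂ (BoltzDisp.dd e1 F t W)).coprod
        (ContinuousLinearMap.toSpanSingleton ℂ (BoltzDisp.dd e2 F t W))) W.1 := by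
    intro W hW
    have hcW : Continuous (fun Y : ℂ × ℂ => ((Y, W.2) : Ph)) := by fun_prop
    have hevW : ∀ᶠ Y in 𝓝 W.1, ((Y, W.2) : Ph) ∈ tube (r / 2) :=
      hcW.continuousAt.eventually_mem (hopen.mem_nhds hW)
    have hO : IsOpen {Y : ℂ × ℂ | ((Y, W.2) : Ph) ∈ tube (r / 2)} := hopen.preimage hcW
    exact (hasStrictFDerivAt_uncurry_coprod (𝕜 := ℂ) (u := W.1)
      (f := fun a b => F t ((a, b), W.2))
      (f₁ := fun a b => ContinuousLinearMap.toSpanSingleton ℂ (BoltzDisp.dd e1 F t ((a, b), W.2)))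
      (f₂ := fun a b => ContinuousLinearMap.toSpanSingleton ℂ (BoltzDisp.dd e2 F t ((a, b), W.2)))
      (by filter_upwards [hevW] with Y hY; exact q1 _ hY)
      (by filter_upwards [hevW] with Y hY; exact q2 _ hY)
      (((continuous_toSpan (hc hρ1 h1)).comp hcW.continuousOn
        (fun Y (hY : Y ∈ {Y : ℂ × ℂ | ((Y, W.2) : Ph) ∈ tube (r / 2)}) => hY)).continuousAt
        (hO.mem_nhds hW))
      (((continuous_toSpan (hc hρ2 h2)).comp hcW.continuousOn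
        (fun Y (hY : Y ∈ {Y : ℂ × ℂ | ((Y, W.2) : Ph) ∈ tube (r / 2)}) => hY)).continuousAt
        (hO.mem_nhds hW))).hasFDerivAt
  have p2 : ∀ W ∈ tube (r / 2), HasFDerivAt (fun Y : ℂ × ℂ => F t (W.1, Y))
      ((ContinuousLinearMap.toSpanSingleton ℂ (BoltzDisp.dd e3 F t W)).coprod
        (ContinuousLinearMap.toSpanSingleton ℂ (BoltzDisp.dd e4 F t W))) W.2 := by
    intro W hW
    have hcW : Continuous (fun Y : ℂ × ℂ => ((W.1, Y) : Ph)) := by fun_prop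
    have hevW : ∀ᶠ Y in 𝓝 W.2, ((W.1, Y) : Ph) ∈ tube (r / 2) :=
      hcW.continuousAt.eventually_mem (hopen.mem_nhds hW)
    have hO : IsOpen {Y : ℂ × ℂ | ((W.1, Y) : Ph) ∈ tube (r / 2)} := hopen.preimage hcW
    exact (hasStrictFDerivAt_uncurry_coprod (𝕜 := ℂ) (u := W.2)
      (f := fun a b => F t (W.1, (a, b)))
      (f₁ := fun a b => ContinuousLinearMap.toSpanSingleton ℂ (BoltzDisp.dd e3 F t (W.1, (a, b))))
      (f₂ := fun a b => ContinuousLinearMap.toSpanSingleton ℂ (BoltzDisp.dd e4 F t (W.1, (a, b))))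
      (by filter_upwards [hevW] with Y hY; exact q3 _ hY)
      (by filter_upwards [hevW] with Y hY; exact q4 _ hY)
      (((continuous_toSpan (hc hρ3 h3)).comp hcW.continuousOn
        (fun Y (hY : Y ∈ {Y : ℂ × ℂ | ((W.1, Y) : Ph) ∈ tube (r / 2)}) => hY)).continuousAt
        (hO.mem_nhds hW))
      (((continuous_toSpan (hc hρ4 h4)).comp hcW.continuousOn
        (fun Y (hY : Y ∈ {Y : ℂ × ℂ | ((W.1, Y) : Ph) ∈ tube (r / 2)}) => hY)).continuousAt
        (hO.mem_nhds hW))).hasFDerivAt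
  exact (hasStrictFDerivAt_uncurry_coprod (𝕜 := ℂ) (u := Z)
    (f := fun (a b : ℂ × ℂ) => F t (a, b))
    (f₁ := fun (a b : ℂ × ℂ) => (ContinuousLinearMap.toSpanSingleton ℂ (BoltzDisp.dd e1 F t (a, b))).coprod
        (ContinuousLinearMap.toSpanSingleton ℂ (BoltzDisp.dd e2 F t (a, b))))
    (f₂ := fun (a b : ℂ × ℂ) => (ContinuousLinearMap.toSpanSingleton ℂ (BoltzDisp.dd e3 F t (a, b))).coprod
        (ContinuousLinearMap.toSpanSingleton ℂ (BoltzDisp.dd e4 F t (a, b))))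
    (by filter_upwards [hev] with W hW; exact p1 W hW)
    (by filter_upwards [hev] with W hW; exact p2 W hW)
    ((ContinuousOn.coprod' (continuous_toSpan (hc hρ1 h1))
      (continuous_toSpan (hc hρ2 h2))).continuousAt (hopen.mem_nhds hZ))
    ((ContinuousOn.coprod' (continuous_toSpan (hc hρ3 h3))
      (continuous_toSpan (hc hρ4 h4))).continuousAt (hopen.mem_nhds hZ))).hasFDerivAt

/-- Joint differentiability in `(t, Z)`. -/
theorem hasFDerivAt_joint {r₁ : ℝ} (h : ClW r κ C F)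
    (hder : ∀ t ∈ I0, ∀ Z ∈ tube r₁, HasDerivAt (fun τ => F τ Z) (G t Z) t)
    (hG : ContinuousOn (fun q : ℝ × Ph => G q.1 q.2) (I0 ×ˢ tube r₁))
    {t : ℝ} (ht : t ∈ I0) {Z : Ph} (hZ : Z ∈ tube (min r₁ (r / 2))) :
    HasFDerivAt (fun q : ℝ × Ph => F q.1 q.2)
      ((ContinuousLinearMap.toSpanSingleton ℝ (G t Z)).coprod
        ((DZ F t Z).restrictScalars ℝ)) (t, Z) := by
  have hr := h.hr
  have hO : IsOpen (I0 ×ˢ tube (min r₁ (r / 2))) := isOpen_Ioo.prod (isOpen_tube2 _)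
  have hmem : ((t, Z) : ℝ × Ph) ∈ I0 ×ˢ tube (min r₁ (r / 2)) := ⟨ht, hZ⟩
  have hev := hO.mem_nhds hmem
  obtain ⟨ρ1, hρ1, h1⟩ := exists_rad r hr e1
  obtain ⟨ρ2, hρ2, h2⟩ := exists_rad r hr e2
  obtain ⟨ρ3, hρ3, h3⟩ := exists_rad r hr e3
  obtain ⟨ρ4, hρ4, h4⟩ := exists_rad r hr e4
  have hDZ : ContinuousOn (fun q : ℝ × Ph => DZ F q.1 q.2) (I0 ×ˢ tube (r / 2)) := by
    unfold DZ
    exact ContinuousOn.coprod'
      (ContinuousOn.coprod' (continuous_toSpan (h.dd e1 hρ1 h1).cont)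
        (continuous_toSpan (h.dd e2 hρ2 h2).cont))
      (ContinuousOn.coprod' (continuous_toSpan (h.dd e3 hρ3 h3).cont)
        (continuous_toSpan (h.dd e4 hρ4 h4).cont))
  refine (hasStrictFDerivAt_uncurry_coprod (𝕜 := ℝ) (u := ((t, Z) : ℝ × Ph))
    (f := fun (τ : ℝ) (W : Ph) => F τ W)
    (f₁ := fun τ W => ContinuousLinearMap.toSpanSingleton ℝ (G τ W))
    (f₂ := fun τ W => (DZ F τ W).restrictScalars ℝ) ?_ ?_ ?_ ?_).hasFDerivAt
  · filter_upwards [hev] with q hq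
    exact (hder q.1 hq.1 q.2 (tube_mono2 (min_le_left _ _) hq.2)).hasFDerivAt
  · filter_upwards [hev] with q hq
    exact (h.hasFDerivAt_Z hq.1 (tube_mono2 (min_le_right _ _) hq.2)).restrictScalars ℝ
  · have h5 : ContinuousAt (fun q : ℝ × Ph => G q.1 q.2) (t, Z) :=
      (hG.mono (prod_mono le_rfl (tube_mono2 (min_le_left _ _)))).continuousAt hev
    have h6 : (fun q : ℝ × Ph => (ContinuousLinearMap.toSpanSingleton ℝ (G q.1 q.2) : ℝ →L[ℝ] ℂ)) =
        fun q => (ContinuousLinearMap.toSpanSingletonCLE (𝕜 := ℝ) (E := ℂ)) (G q.1 q.2) := by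
      ext q; rfl
    show ContinuousAt (fun q : ℝ × Ph =>
      (ContinuousLinearMap.toSpanSingleton ℝ (G q.1 q.2) : ℝ →L[ℝ] ℂ)) (t, Z)
    rw [h6]
    exact (ContinuousLinearEquiv.continuous _).continuousAt.comp h5
  · have h5 : ContinuousAt (fun q : ℝ × Ph => DZ F q.1 q.2) (t, Z) :=
      (hDZ.mono (prod_mono le_rfl (tube_mono2 (min_le_right _ _)))).continuousAt hev
    exact ((ContinuousLinearMap.restrictScalarsL ℂ Ph ℂ ℝ ℝ).continuous.continuousAt).comp h5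

end BoltzDisp
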