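import Pool.Agent.MP_08d8de_an.Disp2.Smooth

/-!
From the class to functions of the real variables `(t, x, v)`.
-/

set_option autoImplicit false

open MeasureTheory Complex Set Filter Topology Metric
open scoped ENNReal ComplexConjugate ContDiff

namespace BoltzDisp

variable {r κ C : ℝ} {F G : ℝ → Ph → ℂ} {s γ Ck : ℝ} {k : ℝ → ℝ}

/-- open space-time slab -/
def U0 : Set (ℝ × ℂ × ℂ) := {p | p.1 ∈ I0}

lemma isOpen_U0 : IsOpen U0 := isOpen_Ioo.preimage continuous_fst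

/-- real points, as a linear map -/
noncomputable def iotaL : (ℝ × ℂ × ℂ) →L[ℝ] ℝ × Ph :=
  (ContinuousLinearMap.fst ℝ ℝ (ℂ × ℂ)).prod
    ((((ContinuousLinearMap.fst ℝ ℂ ℂ).comp (ContinuousLinearMap.snd ℝ ℝ (ℂ × ℂ))).prod
      ((Complex.conjCLE : ℂ →L[ℝ] ℂ).comp
        ((ContinuousLinearMap.fst ℝ ℂ ℂ).comp (ContinuousLinearMap.snd ℝ ℝ (ℂ × ℂ))))).prod
    (((ContinuousLinearMap.snd ℝ ℂ ℂ).comp (ContinuousLinearMap.snd ℝ ℝ (ℂ × ℂ))).prod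
      ((Complex.conjCLE : ℂ →L[ℝ] ℂ).comp
        ((ContinuousLinearMap.snd ℝ ℂ ℂ).comp (ContinuousLinearMap.snd ℝ ℝ (ℂ × ℂ))))))

lemma iotaL_apply (p : ℝ × ℂ × ℂ) : iotaL p = (p.1, io p.2.1 p.2.2) := rfl

/-- restriction to real points -/
noncomputable def uF (F : ℝ → Ph → ℂ) (p : ℝ × ℂ × ℂ) : ℂ := F p.1 (io p.2.1 p.2.2)

noncomputable def l0 : (ℝ × ℂ × ℂ) →L[ℝ] ℂ :=
  Complex.ofRealCLM.comp (ContinuousLinearMap.fst ℝ ℝ (ℂ × ℂ))
noncomputable def l1 : (ℝ × ℂ × ℂ) →L[ℝ] ℂ :=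
  (ContinuousLinearMap.fst ℝ ℂ ℂ).comp (ContinuousLinearMap.snd ℝ ℝ (ℂ × ℂ))
noncomputable def l2 : (ℝ × ℂ × ℂ) →L[ℝ] ℂ := (Complex.conjCLE : ℂ →L[ℝ] ℂ).comp l1
noncomputable def l3 : (ℝ × ℂ × ℂ) →L[ℝ] ℂ :=
  (ContinuousLinearMap.snd ℝ ℂ ℂ).comp (ContinuousLinearMap.snd ℝ ℝ (ℂ × ℂ))
noncomputable def l4 : (ℝ × ℂ × ℂ) →L[ℝ] ℂ := (Complex.conjCLE : ℂ →L[ℝ] ℂ).comp l3

lemma l0_apply (p : ℝ × ℂ × ℂ) : l0 p = (p.1 : ℂ) := rfl
lemma l1_apply (p : ℝ × ℂ × ℂ) : l1 p = p.2.1 := rfl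
lemma l2_apply (p : ℝ × ℂ × ℂ) : l2 p = conj p.2.1 := rfl
lemma l3_apply (p : ℝ × ℂ × ℂ) : l3 p = p.2.2 := rfl
lemma l4_apply (p : ℝ × ℂ × ℂ) : l4 p = conj p.2.2 := rfl

/-- multiplication by a functional -/
noncomputable def ml (l : (ℝ × ℂ × ℂ) →L[ℝ] ℂ) : ℂ →L[ℝ] ((ℝ × ℂ × ℂ) →L[ℝ] ℂ) :=
  LinearMap.mkContinuous
    { toFun := fun c => c • l
      map_add' := fun a b => add_smul a b l
      map_smul' := fun a b => smul_assoc a b l } ‖l‖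
    (fun c => by
      simp only [LinearMap.coe_mk, AddHom.coe_mk]
      rw [norm_smul, mul_comm])

lemma ml_apply (l : (ℝ × ℂ × ℂ) →L[ℝ] ℂ) (c : ℂ) : ml l c = c • l := rfl

/-- the derivative of `uF` -/
lemma uF_hasFDerivAt {r₁ : ℝ} (hr₁ : 0 < r₁) (h : ClW r κ C F)
    (hder : ∀ t ∈ I0, ∀ Z ∈ tube r₁, HasDerivAt (fun τ => F τ Z) (G t Z) t)
    (hG : ContinuousOn (fun q : ℝ × Ph => G q.1 q.2) (I0 ×ˢ tube r₁)) {p : ℝ × ℂ × ℂ}
    (hp : p ∈ U0) :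
    HasFDerivAt (uF F) (ml l0 (uF G p) + ml l1 (uF (dd e1 F) p) + ml l2 (uF (dd e2 F) p) +
      ml l3 (uF (dd e3 F) p) + ml l4 (uF (dd e4 F) p)) p := by
  have hr := h.hr
  have h1 := hasFDerivAt_joint h hder hG (t := p.1) hp (Z := io p.2.1 p.2.2)
    (io_mem_tube (lt_min hr₁ (by positivity)) _ _)
  have h2 : HasFDerivAt (fun p : ℝ × ℂ × ℂ => iotaL p) iotaL p := iotaL.hasFDerivAt
  have h3 := HasFDerivAt.comp (g := fun q : ℝ × Ph => F q.1 q.2) p h1 h2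
  refine h3.congr_fderiv ?_
  refine ContinuousLinearMap.ext fun a => ?_
  simp only [ContinuousLinearMap.comp_apply, iotaL_apply, ContinuousLinearMap.coprod_apply,
    _root_.add_apply, ml_apply, _root_.smul_apply, l0_apply, l1_apply,
    l2_apply, l3_apply, l4_apply, ContinuousLinearMap.toSpanSingleton_apply,
    ContinuousLinearMap.coe_restrictScalars', DZ_apply, uF, io, smul_eq_mul, Complex.real_smul]
  ring

variable {W W' : Type*} [NormedAddCommGroup W] [NormedSpace ℝ W] [NormedAddCommGroup W']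
  [NormedSpace ℝ W']

/-- `C^n` with exponentially decaying `n`-th derivative -/
def DecN (n : ℕ) (f : ℝ × ℂ × ℂ → W) : Prop :=
  ContDiffOn ℝ n f U0 ∧ ∃ κ > 0, ∃ C : ℝ, ∀ p ∈ U0,
    ‖iteratedFDeriv ℝ n f p‖ ≤ C * Real.exp (-(κ * ‖p.2.2‖))

lemma DecN.congr {n : ℕ} {f g : ℝ × ℂ × ℂ → W} (h : DecN n f) (hfg : ∀ p ∈ U0, g p = f p) :
    DecN n g := by
  obtain ⟨h1, κ, hκ, C, h2⟩ := h
  refine ⟨h1.congr hfg, κ, hκ, C, fun p hp => ?_⟩
  have h3 : g =ᶠ[𝓝 p] f := by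
    filter_upwards [isOpen_U0.mem_nhds hp] with q hq
    exact hfg q hq
  rw [(h3.iteratedFDeriv ℝ n).eq_of_nhds]
  exact h2 p hp

lemma DecN.add {n : ℕ} {f g : ℝ × ℂ × ℂ → W} (hf : DecN n f) (hg : DecN n g) :
    DecN n (fun p => f p + g p) := by
  obtain ⟨h1, κ, hκ, C, h2⟩ := hf
  obtain ⟨h1', κ', hκ', C', h2'⟩ := hg
  refine ⟨h1.add h1', min κ κ', lt_min hκ hκ', |C| + |C'|, fun p hp => ?_⟩
  have hn := isOpen_U0.mem_nhds hp
  have h3 := iteratedFDeriv_add_apply (h1.contDiffAt hn) (h1'.contDiffAt hn)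
  have h4 : (fun p => f p + g p) = f + g := rfl
  rw [h4, h3]
  refine (norm_add_le _ _).trans ?_
  have h5 : Real.exp (-(κ * ‖p.2.2‖)) ≤ Real.exp (-(min κ κ' * ‖p.2.2‖)) := by
    apply Real.exp_le_exp.2
    have := mul_le_mul_of_nonneg_right (min_le_left κ κ') (norm_nonneg p.2.2)
    linarith
  have h6 : Real.exp (-(κ' * ‖p.2.2‖)) ≤ Real.exp (-(min κ κ' * ‖p.2.2‖)) := by
    apply Real.exp_le_exp.2
    have := mul_le_mul_of_nonneg_right (min_le_right κ κ') (norm_nonneg p.2.2)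
    linarith
  rw [add_mul]
  apply add_le_add
  · refine (h2 p hp).trans ?_
    exact mul_le_mul (le_abs_self C) h5 (Real.exp_pos _).le (abs_nonneg _)
  · refine (h2' p hp).trans ?_
    exact mul_le_mul (le_abs_self C') h6 (Real.exp_pos _).le (abs_nonneg _)

lemma DecN.clm {n : ℕ} {f : ℝ × ℂ × ℂ → W} (hf : DecN n f) (L : W →L[ℝ] W') :
    DecN n (fun p => L (f p)) := by
  obtain ⟨h1, κ, hκ, C, h2⟩ := hf
  refine ⟨L.contDiff.comp_contDiffOn h1, κ, hκ, ‖L‖ * C, fun p hp => ?_⟩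
  have hn := isOpen_U0.mem_nhds hp
  have h3 := L.norm_iteratedFDeriv_comp_left (h1.contDiffAt hn) (n := n) le_rfl
  refine h3.trans ?_
  rw [mul_assoc]
  exact mul_le_mul_of_nonneg_left (h2 p hp) (norm_nonneg _)

/-- Main regularity theorem. -/
theorem decN_uF (n : ℕ) : ∀ {F : ℝ → Ph → ℂ}, RR' n F → DecN n (uF F) := by
  induction n with
  | zero =>
    intro F hF
    obtain ⟨r, κ, C, h⟩ := hF
    constructor
    · rw [show ((0 : ℕ) : ℕ∞ω) = 0 from rfl, contDiffOn_zero]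
      apply h.cont.comp (f := fun p : ℝ × ℂ × ℂ => iotaL p) iotaL.continuous.continuousOn
      intro p hp
      exact ⟨hp, io_mem_tube h.hr _ _⟩
    · refine ⟨κ, h.hκ, C, fun p hp => ?_⟩
      rw [norm_iteratedFDeriv_zero]
      exact h.bound p.1 hp p.2.1 p.2.2 _ (by rw [sub_self, norm_zero]; exact h.hr)
  | succ n ih =>
    intro F hF
    have hFn := hF.pred
    obtain ⟨⟨r, κ, C, h⟩, G, hG, r₁, hr₁, hder⟩ := hF
    obtain ⟨r', κ', C', hGw⟩ := hG.cl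
    have hder' : ∀ t ∈ I0, ∀ Z ∈ tube (min r₁ r'), HasDerivAt (fun τ => F τ Z) (G t Z) t :=
      fun t ht Z hZ => hder t ht Z (tube_mono2 (min_le_left _ _) hZ)
    have hGc : ContinuousOn (fun q : ℝ × Ph => G q.1 q.2) (I0 ×ˢ tube (min r₁ r')) :=
      hGw.cont.mono (prod_mono le_rfl (tube_mono2 (min_le_right _ _)))
    have hd : ∀ p ∈ U0, HasFDerivAt (uF F) _ p := fun p hp =>
      uF_hasFDerivAt (lt_min hr₁ hGw.hr) h hder' hGc hp
    have hDec : DecN n (fun p => ml l0 (uF G p) + ml l1 (uF (dd e1 F) p) +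
        ml l2 (uF (dd e2 F) p) + ml l3 (uF (dd e3 F) p) + ml l4 (uF (dd e4 F) p)) :=
      (((((ih hG).clm (ml l0)).add ((ih (hFn.dd e1)).clm (ml l1))).add
        ((ih (hFn.dd e2)).clm (ml l2))).add ((ih (hFn.dd e3)).clm (ml l3))).add
        ((ih (hFn.dd e4)).clm (ml l4))
    have hDec' : DecN n (fderiv ℝ (uF F)) := hDec.congr fun p hp => (hd p hp).fderiv
    constructor
    · rw [show ((n + 1 : ℕ) : ℕ∞ω) = (n : ℕ∞ω) + 1 from rfl,
        contDiffOn_succ_iff_fderiv_of_isOpen isOpen_U0]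
      refine ⟨fun p hp => (hd p hp).differentiableAt.differentiableWithinAt, ?_, hDec'.1⟩
      intro hn
      exact absurd hn (by simp)
    · obtain ⟨κ'', hκ'', C'', h3⟩ := hDec'.2
      refine ⟨κ'', hκ'', C'', fun p hp => ?_⟩
      rw [← norm_iteratedFDeriv_fderiv]
      exact h3 p hp

/-- exponential beats polynomial -/
lemma poly_exp_le {κ : ℝ} (hκ : 0 < κ) (q : ℕ) : ∃ C : ℝ, 0 ≤ C ∧ ∀ d : ℝ, 0 ≤ d →
    (1 + d) ^ q * Real.exp (-(κ * d)) ≤ C := by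
  refine ⟨(q.factorial : ℝ) / κ ^ q * Real.exp κ, by positivity, fun d hd => ?_⟩
  have h1 := Real.pow_div_factorial_le_exp (κ * (1 + d)) (by positivity) q
  rw [div_le_iff₀ (by positivity), mul_pow] at h1
  have h2 : (1 + d) ^ q ≤ Real.exp (κ * (1 + d)) * q.factorial / κ ^ q := by
    rw [le_div_iff₀ (by positivity)]
    linarith
  calc (1 + d) ^ q * Real.exp (-(κ * d)) ≤
        (Real.exp (κ * (1 + d)) * q.factorial / κ ^ q) * Real.exp (-(κ * d)) := by gcongr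
    _ = (q.factorial : ℝ) / κ ^ q * (Real.exp (κ * (1 + d)) * Real.exp (-(κ * d))) := by ring
    _ = _ := by rw [← Real.exp_add]; congr 2; ring

end BoltzDisp
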